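import Mathlib
import Pool.Agent.H313R3.TK.H
import Pool.Agent.TH988.RB.Lan
import Pool.Agent.H409R2.MZ.PNT

/-! Landau's theorem for the positive part of the Mertens function. -/

set_option autoImplicit false

namespace Pool.Agent.TH299.GO

open MeasureTheory ProbabilityTheory Filter Topology Set
open Pool.Agent.W263.BSD Pool.Agent.TH988.RB
open Pool.Agent.H409R2.MZ.PNT (mm MM laplace_mm measurable_mm abs_mm_le)

lemma lap_analyticAt {f : ℝ → ℝ} (hf : Measurable f) (h0 : ∀ u, 0 < u → 0 ≤ f u) {s : ℝ}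
    (hL : ∀ w > s, LInt f w) {w : ℝ} (hw : s < w) : AnalyticAt ℝ (fun w => lap f w) w := by
  have h2 : (fun w => lap f w) = fun w => mgf id (dens f) (-w) := by
    funext w
    rw [mgf_dens hf h0, neg_neg]
  rw [h2]
  have h3 : AnalyticAt ℝ (mgf id (dens f)) (-w) := by
    apply analyticAt_mgf
    rw [mem_interior]
    refine ⟨Iio (-s), fun t ht => ?_, isOpen_Iio, by simpa using hw⟩
    rw [mem_integrableExpSet_dens hf h0]
    exact hL _ (by have : t < -s := ht; show s < -t; linarith)
  exact h3.comp_of_eq (analyticAt_id.neg) rfl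

lemma zeta_real_ne {x : ℝ} (h0 : 0 < x) (h1 : x < 1) : riemannZeta (x : ℂ) ≠ 0 := by
  intro h
  have hne : (x : ℂ) ≠ 1 := by
    intro h2
    have : (x : ℝ) = 1 := by exact_mod_cast h2
    linarith
  have hk := H313.TK.Kh_eq (x : ℂ) (by simpa using h0) (by rw [Complex.ofReal_re]; linarith) hne
  rw [h, zero_mul] at hk
  have h2 : H313.TK.Kh (x : ℂ) = ((∫ v : ℝ, Real.exp (-(x * v)) * H313.TK.kp v : ℝ) : ℂ) := by
    unfold H313.TK.Kh
    rw [← integral_complex_ofReal]
    refine integral_congr_ae (ae_of_all _ fun v => ?_)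
    simp only
    push_cast
    congr 2
    ring
  rw [h2, Complex.ofReal_eq_zero] at hk
  have hi := (H313.TK.mass_le x h0.le (by linarith)).1
  have hpos : ∀ v, 0 < Real.exp (-(x * v)) * H313.TK.kp v := by
    intro v
    have h2 := (H313.TK.kp_bounds v).1
    have h3 := H313.TK.W_pos v
    have h4 : 0 < H313.TK.kp v := by linarith
    positivity
  have h3 : 0 < ∫ v : ℝ, Real.exp (-(x * v)) * H313.TK.kp v := by
    rw [integral_pos_iff_support_of_nonneg (fun v => (hpos v).le) hi]
    have h3 : Function.support (fun v => Real.exp (-(x * v)) * H313.TK.kp v) = univ := by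
      ext v
      simp only [Function.mem_support, mem_univ, iff_true]
      exact (hpos v).ne'
    rw [h3]
    simp
  exact h3.ne' hk

lemma zeta1_ne {s : ℂ} (hs : 0 < s.re) : riemannZeta₁ (1 + s) ≠ 0 := by
  have hne : (1 + s : ℂ) ≠ 1 := by
    intro h
    have h2 : s = 0 := by linear_combination h
    rw [h2] at hs
    simp at hs
  have h1 : riemannZeta (1 + s) ≠ 0 := riemannZeta_ne_zero_of_one_le_re (by simpa using hs.le)
  rw [riemannZeta_eq_inv_sub_mul hne] at h1
  exact right_ne_zero_of_mul h1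

lemma zeta1_real_ne {w : ℝ} (hw : -1 < w) : riemannZeta₁ (1 + (w : ℂ)) ≠ 0 := by
  rcases lt_trichotomy w 0 with h | h | h
  · have h2 := zeta_real_ne (x := 1 + w) (by linarith) (by linarith)
    have hne : ((1 + w : ℝ) : ℂ) ≠ 1 := by
      intro h2
      have : (1 + w : ℝ) = 1 := by exact_mod_cast h2
      linarith
    rw [riemannZeta_eq_inv_sub_mul hne] at h2
    have h3 := right_ne_zero_of_mul h2
    simpa using h3
  · rw [h]
    simp [riemannZeta₁_one]
  · exact zeta1_ne (by simpa using h)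

/-- the continuation of the Laplace transform of `mm` -/
noncomputable def Rc (z : ℂ) : ℂ := z / ((1 + z) * riemannZeta₁ (1 + z))
/-- its values on the real line -/
noncomputable def Rr (w : ℝ) : ℝ := (Rc w).re

lemma lapC_mm {z : ℂ} (hz : 0 < z.re) : lapC mm z = Rc z := by
  have h := laplace_mm z hz
  have h1 : lapC mm z = ∫ u in Ioi (0:ℝ), (mm u : ℂ) * Complex.exp (-z * u) := by
    unfold lapC
    congr 1
    funext u
    congr 2
    ring
  have hz0 : z ≠ 0 := by
    intro h
    rw [h] at hz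
    simp at hz
  have hz1 : z + 1 ≠ 1 := by
    intro h
    exact hz0 (by linear_combination h)
  rw [h1, h]
  unfold Rc
  rw [riemannZeta_eq_inv_sub_mul hz1, add_comm z 1]
  have e : (1 + z - 1 : ℂ) = z := by ring
  rw [e]
  field_simp

lemma Rr_analyticAt {w : ℝ} (hw : -1 < w) : AnalyticAt ℝ Rr w := by
  have h1 : AnalyticAt ℂ Rc (w : ℂ) := by
    unfold Rc
    refine AnalyticAt.div analyticAt_id ((analyticAt_const.add analyticAt_id).mul ?_) ?_
    · exact (differentiable_riemannZeta₁.comp (differentiable_const (1:ℂ) |>.add differentiable_id)).analyticAt _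
    · refine mul_ne_zero ?_ (zeta1_real_ne hw)
      intro h
      have h2 := congrArg Complex.re h
      simp at h2
      linarith
  exact h1.re_ofReal

lemma mm_LInt {w : ℝ} (hw : 0 < w) : LInt mm w := by
  unfold LInt
  have := integrableOn_exp_mul_Ioi (a := -w) (by linarith) 0
  refine Integrable.mono this ?_ (Eventually.of_forall fun u => ?_)
  · exact (measurable_mm.mul (by fun_prop)).aestronglyMeasurable
  · rw [norm_mul, Real.norm_of_nonneg (Real.exp_pos _).le, Real.norm_of_nonneg (Real.exp_pos _).le, Real.norm_eq_abs]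
    have := abs_mm_le u
    calc |mm u| * Real.exp (-(w * u)) ≤ 1 * Real.exp (-(w * u)) :=
          mul_le_mul_of_nonneg_right this (Real.exp_pos _).le
      _ = _ := by rw [one_mul, neg_mul]

lemma lap_mm {w : ℝ} (hw : 0 < w) : lap mm w = Rr w := by
  have h := lapC_mm (z := (w:ℂ)) (by simpa using hw)
  rw [lapC_ofReal] at h
  unfold Rr
  rw [← h, Complex.ofReal_re]

/-- positive part of `s mm` -/
noncomputable def ap (s : ℝ) (u : ℝ) : ℝ := max (s * mm u) 0
/-- negative part of `s mm` -/
noncomputable def bp (s : ℝ) (u : ℝ) : ℝ := max (-(s * mm u)) 0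

lemma ap_meas (s : ℝ) : Measurable (ap s) := (measurable_mm.const_mul s).max measurable_const
lemma bp_meas (s : ℝ) : Measurable (bp s) := (measurable_mm.const_mul s).neg.max measurable_const
lemma ap_nn (s u : ℝ) : 0 ≤ ap s u := le_max_right _ _
lemma bp_nn (s u : ℝ) : 0 ≤ bp s u := le_max_right _ _
lemma ap_bp (s u : ℝ) : ap s u - bp s u = s * mm u := by
  unfold ap bp
  rcases le_total (s * mm u) 0 with h | h
  · rw [max_eq_right h, max_eq_left (by linarith)]; ring
  · rw [max_eq_left h, max_eq_right (by linarith)]; ring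

theorem one_sided {s : ℝ} (H : ∀ w > -(1/2:ℝ), LInt (ap s) w) :
    (∀ w > -(1/2:ℝ), LInt (bp s) w) ∧
    ∀ w > -(1/2:ℝ), lap (bp s) w = lap (ap s) w - s * Rr w := by
  have hb : ∀ w > (0:ℝ), LInt (bp s) w := fun w hw => by
    have h1 : LInt (fun u => -(s * mm u)) w := ((mm_LInt hw).const_mul s).neg
    exact LInt.posPart (measurable_mm.const_mul s).neg h1
  refine landau_lap (bp_meas s) (fun u _ => bp_nn s u) (w1 := 0) hb (g := fun w => lap (ap s) w - s * Rr w) ?_ ?_
  · intro w hw
    exact (lap_analyticAt (ap_meas s) (fun u _ => ap_nn s u) H hw).sub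
      (analyticAt_const.mul (Rr_analyticAt (by have : -(1/2:ℝ) < w := hw; linarith)))
  · intro w hw hw2
    have h1 : lap (fun u => s * mm u) w = s * Rr w := by rw [lap_const_mul, lap_mm hw]
    have h2 : lap (fun u => ap s u - bp s u) w = lap (ap s) w - lap (bp s) w := lap_sub (H w hw2) (hb w hw)
    have h3 : (fun u => ap s u - bp s u) = fun u => s * mm u := by funext u; exact ap_bp s u
    rw [h3, h1] at h2
    linarith

lemma mm_LInt' {s : ℝ} (hs : s = 1 ∨ s = -1) (H : ∀ w > -(1/2:ℝ), LInt (ap s) w) {w : ℝ}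
    (hw : -(1/2:ℝ) < w) : LInt mm w := by
  have h1 := ((H w hw).sub ((one_sided H).1 w hw)).const_mul s
  have h3 : (fun u => s * (ap s u - bp s u)) = mm := by
    funext u
    rw [ap_bp]
    rcases hs with h | h <;> · rw [h]; ring
  rwa [h3] at h1

/-- the bound for the Laplace transform -/
lemma lapC_le {s : ℝ} (hs : s = 1 ∨ s = -1) (H : ∀ w > -(1/2:ℝ), LInt (ap s) w) {z : ℂ}
    (hz : -(1/2:ℝ) < z.re) : ‖lapC mm z‖ ≤ 2 * lap (ap s) z.re - s * Rr z.re := by
  obtain ⟨hb1, hb2⟩ := one_sided H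
  have h1 : ‖lapC mm z‖ ≤ lap (fun u => ap s u + bp s u) z.re := by
    unfold lapC lap
    refine (norm_integral_le_integral_norm _).trans (le_of_eq ?_)
    congr 1
    funext u
    rw [norm_mul, Complex.norm_exp, Complex.norm_real, Real.norm_eq_abs]
    have e1 : (-(z * (u:ℂ))).re = -(z.re * u) := by simp
    rw [e1]
    congr 1
    unfold ap bp
    have e2 : |mm u| = |s * mm u| := by
      rw [abs_mul]
      rcases hs with h | h <;> · rw [h]; simp
    rw [e2]
    show |s * mm u| = max (s * mm u) 0 + max (-(s * mm u)) 0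
    rcases le_total (s * mm u) 0 with h | h
    · rw [max_eq_right h, max_eq_left (by linarith), abs_of_nonpos h]; ring
    · rw [max_eq_left h, max_eq_right (by linarith), abs_of_nonneg h]; ring
  rw [lap_add (H _ hz) (hb1 _ hz), hb2 _ hz] at h1
  linarith

/-- the identity in the half plane -/
theorem ident {s : ℝ} (hs : s = 1 ∨ s = -1) (H : ∀ w > -(1/2:ℝ), LInt (ap s) w) {z : ℂ}
    (hz : -(1/2:ℝ) < z.re) : (1 + z) * riemannZeta₁ (1 + z) * lapC mm z = z := by
  set U : Set ℂ := {z : ℂ | -(1/2:ℝ) < z.re} with hU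
  have hUo : IsOpen U := isOpen_lt continuous_const Complex.continuous_re
  have hUc : IsPreconnected U := (convex_halfSpace_re_gt _).isPreconnected
  have hd : DifferentiableOn ℂ (fun z => (1 + z) * riemannZeta₁ (1 + z) * lapC mm z) U := by
    intro z hz
    have h1 : DifferentiableAt ℂ (lapC mm) z :=
      lapC_differentiableAt measurable_mm (fun w hw => mm_LInt' hs H hw) hz
    have h2 : DifferentiableAt ℂ (fun z : ℂ => riemannZeta₁ (1 + z)) z :=
      (differentiable_riemannZeta₁.comp (differentiable_const (1:ℂ) |>.add differentiable_id)) z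
    exact (((differentiableAt_const _).add differentiableAt_id).mul h2).mul h1 |>.differentiableWithinAt
  have hA := hd.analyticOnNhd hUo
  have hB : AnalyticOnNhd ℂ (fun z : ℂ => z) U := fun z _ => analyticAt_id
  have h1U : (1:ℂ) ∈ U := by
    show -(1/2:ℝ) < (1:ℂ).re
    rw [Complex.one_re]
    norm_num
  refine hA.eqOn_of_preconnected_of_eventuallyEq hB hUc h1U ?_ hz
  have hpos : {z : ℂ | 0 < z.re} ∈ 𝓝 (1:ℂ) :=
    (isOpen_lt continuous_const Complex.continuous_re).mem_nhds (by show (0:ℝ) < (1:ℂ).re; simp)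
  filter_upwards [hpos] with z hz
  have hz' : 0 < z.re := hz
  rw [lapC_mm hz']
  unfold Rc
  have h1 : (1 + z) ≠ 0 := by
    intro h
    have := congrArg Complex.re h
    simp at this
    linarith
  have h2 : riemannZeta₁ (1 + z) ≠ 0 := zeta1_ne hz'
  field_simp

/-- **lower bound for zeta** -/
theorem lower {s : ℝ} (hs : s = 1 ∨ s = -1) (H : ∀ w > -(1/2:ℝ), LInt (ap s) w) {κ C : ℝ} (hκ : 0 ≤ κ)
    (hC : ∀ η : ℝ, 0 < η → η ≤ 1 / 2 → lap (ap s) (-(1/2) + η) ≤ C * η ^ (-(1 + κ))) :
    (∀ w : ℂ, 1 / 2 < w.re → riemannZeta w ≠ 0) ∧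
    ∃ c : ℝ, 0 < c ∧ ∀ η t : ℝ, 0 < η → η ≤ 1 / 2 → t ≠ 0 →
      c * η ^ (1 + κ) ≤ (1 + |t|) * ‖riemannZeta (1 / 2 + η + t * Complex.I)‖ := by
  constructor
  · intro w hw h0
    have hw1 : w ≠ 1 := by
      intro h
      rw [h] at h0
      exact riemannZeta_ne_zero_of_one_le_re (by simp) h0
    have h1 := ident hs H (z := w - 1) (by rw [Complex.sub_re, Complex.one_re]; linarith)
    have e : 1 + (w - 1) = w := by ring
    rw [e] at h1
    rw [riemannZeta_eq_inv_sub_mul hw1] at h0
    have h2 : riemannZeta₁ w = 0 := by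
      rcases mul_eq_zero.mp h0 with h | h
      · exact absurd (inv_eq_zero.mp h) (sub_ne_zero.mpr hw1)
      · exact h
    rw [h2, mul_zero, zero_mul] at h1
    exact sub_ne_zero.mpr hw1 h1.symm
  · have hcont : ContinuousOn Rr (Icc (-(1/2:ℝ)) 0) := fun w hw =>
      (Rr_analyticAt (by have := hw.1; linarith)).continuousAt.continuousWithinAt
    obtain ⟨K, hK⟩ := isCompact_Icc.exists_bound_of_continuousOn hcont
    have hK0 : 0 ≤ K := (norm_nonneg _).trans (hK 0 ⟨by norm_num, le_rfl⟩)
    set D : ℝ := 2 * |C| + K + 1 with hD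
    have hD0 : 0 < D := by positivity
    refine ⟨1 / D, by positivity, fun η t hη hη2 ht => ?_⟩
    set z : ℂ := (-(1/2) + η : ℝ) + t * Complex.I with hz
    have hzre : z.re = -(1/2) + η := by rw [hz]; simp
    have hzim : z.im = t := by rw [hz]; simp
    have hzr : -(1/2:ℝ) < z.re := by rw [hzre]; linarith
    have hz0 : z ≠ 0 := by
      intro h
      rw [h] at hzim
      simp at hzim
      exact ht hzim.symm
    have hp1 : 1 ≤ η ^ (-(1 + κ)) := by
      apply Real.one_le_rpow_of_pos_of_le_one_of_nonpos hη (by linarith) (by linarith)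
    have hL : ‖lapC mm z‖ ≤ D * η ^ (-(1 + κ)) := by
      have h1 := lapC_le hs H hzr
      rw [hzre] at h1
      have h2 := hC η hη hη2
      have h3 := hK (-(1/2) + η) ⟨by linarith, by linarith⟩
      rw [Real.norm_eq_abs] at h3
      have h4 : -(s * Rr (-(1/2) + η)) ≤ K := by
        have := neg_abs_le (s * Rr (-(1/2) + η))
        have e : |s * Rr (-(1/2) + η)| = |Rr (-(1/2) + η)| := by
          rw [abs_mul]
          rcases hs with h | h <;> · rw [h]; simp
        rw [e] at this
        linarith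
      have h5 : C * η ^ (-(1 + κ)) ≤ |C| * η ^ (-(1 + κ)) :=
        mul_le_mul_of_nonneg_right (le_abs_self _) (by linarith)
      have h6 : K ≤ K * η ^ (-(1 + κ)) := le_mul_of_one_le_right hK0 hp1
      rw [hD]
      nlinarith
    have hid := ident hs H hzr
    have hsz : (1 / 2 + η + t * Complex.I : ℂ) = 1 + z := by
      rw [hz]; push_cast; ring
    have hne1 : (1 + z : ℂ) ≠ 1 := by
      intro h
      exact hz0 (by linear_combination h)
    have hze : riemannZeta (1 + z) = z⁻¹ * riemannZeta₁ (1 + z) := by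
      rw [riemannZeta_eq_inv_sub_mul hne1]
      congr 2
      ring
    have h1 : (1 + z) * riemannZeta (1 + z) * lapC mm z = 1 := by
      rw [hze]
      have : (1 + z) * (z⁻¹ * riemannZeta₁ (1 + z)) * lapC mm z = z⁻¹ * ((1 + z) * riemannZeta₁ (1 + z) * lapC mm z) := by ring
      rw [this, hid, inv_mul_cancel₀ hz0]
    have h2 : ‖1 + z‖ * ‖riemannZeta (1 + z)‖ * ‖lapC mm z‖ = 1 := by
      rw [← norm_mul, ← norm_mul, h1, norm_one]
    have h3 : ‖1 + z‖ ≤ 1 + |t| := by
      rw [← hsz]
      have e : (1 / 2 + η + t * Complex.I : ℂ) = ((1 / 2 + η : ℝ) : ℂ) + t * Complex.I := by push_cast; ring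
      rw [e]
      refine (norm_add_le _ _).trans ?_
      rw [norm_mul, Complex.norm_I, mul_one, Complex.norm_real, Complex.norm_real, Real.norm_eq_abs, Real.norm_eq_abs,
        abs_of_pos (by linarith : (0:ℝ) < 1 / 2 + η)]
      linarith
    rw [hsz]
    have h4 : 1 ≤ (1 + |t|) * ‖riemannZeta (1 + z)‖ * (D * η ^ (-(1 + κ))) := by
      calc (1:ℝ) = ‖1 + z‖ * ‖riemannZeta (1 + z)‖ * ‖lapC mm z‖ := h2.symm
        _ ≤ _ := by gcongr
    have h5 : η ^ (1 + κ) * η ^ (-(1 + κ)) = 1 := by
      rw [← Real.rpow_add hη]; simp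
    have h6 : 0 < η ^ (1 + κ) := by positivity
    rw [div_mul_eq_mul_div, div_le_iff₀ (by positivity), one_mul]
    calc η ^ (1 + κ) = η ^ (1 + κ) * 1 := (mul_one _).symm
      _ ≤ η ^ (1 + κ) * ((1 + |t|) * ‖riemannZeta (1 + z)‖ * (D * η ^ (-(1 + κ)))) :=
          mul_le_mul_of_nonneg_left h4 h6.le
      _ = (η ^ (1 + κ) * η ^ (-(1 + κ))) * ((1 + |t|) * ‖riemannZeta (1 + z)‖ * D) := by ring
      _ = _ := by rw [h5, one_mul]

end Pool.Agent.TH299.GO
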