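import Mathlib
import Pool.Agent.TH299.GO.A1

/-! From a bound for the one-sided logarithmic mean to a bound for the Laplace transform. -/

set_option autoImplicit false

namespace Pool.Agent.TH299.GO

open MeasureTheory ProbabilityTheory Filter Topology Set
open Pool.Agent.W263.BSD

lemma summ_const : Summable (fun k : ℕ => Real.exp (-(k:ℝ)) * ((k:ℝ) + 2) ^ 2) := by
  have h0 := Real.summable_pow_mul_exp_neg_nat_mul 0 (r := 1) one_pos
  have h1 := Real.summable_pow_mul_exp_neg_nat_mul 1 (r := 1) one_pos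
  have h2 := Real.summable_pow_mul_exp_neg_nat_mul 2 (r := 1) one_pos
  refine ((h2.add (h1.mul_left 4)).add (h0.mul_left 4)).congr fun k => ?_
  simp only [pow_zero, pow_one, one_mul]
  have e : Real.exp (-1 * (k:ℝ)) = Real.exp (-(k:ℝ)) := by rw [neg_one_mul]
  rw [e]
  ring

/-- an absolute constant -/
noncomputable def Sc : ℝ := ∑' k : ℕ, Real.exp (-(k:ℝ)) * ((k:ℝ) + 2) ^ 2

lemma Sc_nn : 0 ≤ Sc := tsum_nonneg fun k => by positivity

/-- the general lemma -/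
theorem laplace_bound' {a : ℝ → ℝ} (ha : ∀ u, 0 ≤ a u) (hloc : ∀ V : ℝ, 0 ≤ V → IntervalIntegrable a volume 0 V)
    {κ C : ℝ} (hκ : 0 ≤ κ) (hκ1 : κ ≤ 1) (hC : 0 ≤ C)
    (hA : ∀ V : ℝ, 0 ≤ V → ∫ v in (0:ℝ)..V, a v ≤ C * (1 + V) ^ (1 + κ)) :
    ∀ η : ℝ, 0 < η → η ≤ 1 →
      IntegrableOn (fun u => a u * Real.exp (-(η * u))) (Ioi 0) ∧
      ∫ u in Ioi (0:ℝ), a u * Real.exp (-(η * u)) ≤ C * Sc * η ^ (-(1 + κ)) := by
  set S : ℝ := Sc with hS
  have hS0 : 0 ≤ S := Sc_nn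
  intro η hη hη1
  have hii : ∀ x y : ℝ, 0 ≤ x → 0 ≤ y → IntervalIntegrable a volume x y := fun x y hx hy =>
    (hloc x hx).symm.trans (hloc y hy)
  have hii2 : ∀ x y : ℝ, 0 ≤ x → 0 ≤ y → IntervalIntegrable (fun u => a u * Real.exp (-(η * u))) volume x y :=
    fun x y hx hy => (hii x y hx hy).mul_continuousOn (by fun_prop)
  have hk : ∀ k : ℕ, ∫ u in ((k:ℝ) / η)..(((k + 1 : ℕ):ℝ) / η), a u * Real.exp (-(η * u)) ≤
      C * η ^ (-(1 + κ)) * (Real.exp (-(k:ℝ)) * ((k:ℝ) + 2) ^ 2) := by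
    intro k
    have h0 : 0 ≤ (k:ℝ) / η := by positivity
    have h1 : 0 ≤ (((k + 1 : ℕ):ℝ)) / η := by positivity
    have h01 : (k:ℝ) / η ≤ ((k + 1 : ℕ):ℝ) / η := by
      apply div_le_div_of_nonneg_right _ hη.le
      push_cast
      linarith
    have e1 : ∫ u in ((k:ℝ) / η)..(((k + 1 : ℕ):ℝ) / η), a u * Real.exp (-(η * u)) ≤
        ∫ u in ((k:ℝ) / η)..(((k + 1 : ℕ):ℝ) / η), a u * Real.exp (-(k:ℝ)) := by
      apply intervalIntegral.integral_mono_on h01 (hii2 _ _ h0 h1) ((hii _ _ h0 h1).mul_const _)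
      intro u hu
      apply mul_le_mul_of_nonneg_left _ (ha u)
      apply Real.exp_le_exp.mpr
      have := hu.1
      rw [div_le_iff₀ hη] at this
      linarith
    have e2 : ∫ u in ((k:ℝ) / η)..(((k + 1 : ℕ):ℝ) / η), a u ≤ ∫ u in (0:ℝ)..(((k + 1 : ℕ):ℝ) / η), a u := by
      rw [← intervalIntegral.integral_add_adjacent_intervals (hii 0 _ le_rfl h0) (hii _ _ h0 h1)]
      have : 0 ≤ ∫ u in (0:ℝ)..((k:ℝ) / η), a u := intervalIntegral.integral_nonneg h0 fun u _ => ha u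
      linarith
    have e3 := hA _ h1
    have e4 : (1 + ((k + 1 : ℕ):ℝ) / η) ^ (1 + κ) ≤ η ^ (-(1 + κ)) * ((k:ℝ) + 2) ^ 2 := by
      have h5 : 1 + ((k + 1 : ℕ):ℝ) / η ≤ ((k:ℝ) + 2) * η⁻¹ := by
        have h6 : 1 ≤ η⁻¹ := (one_le_inv₀ hη).mpr hη1
        push_cast
        rw [div_eq_mul_inv]
        nlinarith
      have h7 : (0:ℝ) ≤ 1 + ((k + 1 : ℕ):ℝ) / η := by positivity
      calc (1 + ((k + 1 : ℕ):ℝ) / η) ^ (1 + κ) ≤ (((k:ℝ) + 2) * η⁻¹) ^ (1 + κ) :=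
            Real.rpow_le_rpow h7 h5 (by linarith)
        _ = ((k:ℝ) + 2) ^ (1 + κ) * η⁻¹ ^ (1 + κ) := Real.mul_rpow (by positivity) (by positivity)
        _ = ((k:ℝ) + 2) ^ (1 + κ) * η ^ (-(1 + κ)) := by
            rw [Real.inv_rpow hη.le, Real.rpow_neg hη.le]
        _ ≤ ((k:ℝ) + 2) ^ (2:ℝ) * η ^ (-(1 + κ)) := by
            apply mul_le_mul_of_nonneg_right _ (by positivity)
            apply Real.rpow_le_rpow_of_exponent_le _ (by linarith)
            have : (0:ℝ) ≤ k := Nat.cast_nonneg k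
            linarith
        _ = _ := by rw [Real.rpow_two]; ring
    rw [intervalIntegral.integral_mul_const] at e1
    have he := Real.exp_pos (-(k:ℝ))
    calc _ ≤ (∫ u in ((k:ℝ) / η)..(((k + 1 : ℕ):ℝ) / η), a u) * Real.exp (-(k:ℝ)) := e1
      _ ≤ (C * (η ^ (-(1 + κ)) * ((k:ℝ) + 2) ^ 2)) * Real.exp (-(k:ℝ)) := by
          apply mul_le_mul_of_nonneg_right _ he.le
          exact (e2.trans e3).trans (mul_le_mul_of_nonneg_left e4 hC)
      _ = _ := by ring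
  have hN : ∀ N : ℕ, ∫ u in (0:ℝ)..((N:ℝ) / η), a u * Real.exp (-(η * u)) ≤ C * S * η ^ (-(1 + κ)) := by
    intro N
    have h1 := intervalIntegral.sum_integral_adjacent_intervals (μ := volume) (f := fun u => a u * Real.exp (-(η * u)))
      (a := fun k : ℕ => (k:ℝ) / η) (n := N) (fun k _ => hii2 _ _ (by positivity) (by positivity))
    simp only [Nat.cast_zero, zero_div] at h1
    rw [← h1]
    calc _ ≤ ∑ k ∈ Finset.range N, C * η ^ (-(1 + κ)) * (Real.exp (-(k:ℝ)) * ((k:ℝ) + 2) ^ 2) :=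
          Finset.sum_le_sum fun k _ => hk k
      _ = C * η ^ (-(1 + κ)) * ∑ k ∈ Finset.range N, (Real.exp (-(k:ℝ)) * ((k:ℝ) + 2) ^ 2) := by
          rw [Finset.mul_sum]
      _ ≤ C * η ^ (-(1 + κ)) * S := by
          apply mul_le_mul_of_nonneg_left _ (by positivity)
          exact summ_const.sum_le_tsum _ (fun k _ => by positivity)
      _ = _ := by ring
  have hall : ∀ V : ℝ, 0 ≤ V → ∫ u in (0:ℝ)..V, a u * Real.exp (-(η * u)) ≤ C * S * η ^ (-(1 + κ)) := by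
    intro V hV
    set N : ℕ := ⌈V * η⌉₊ with hNdef
    have h1 : V ≤ (N:ℝ) / η := by
      rw [le_div_iff₀ hη]
      exact Nat.le_ceil _
    have h2 := hN N
    have h3 : 0 ≤ (N:ℝ) / η := by positivity
    rw [← intervalIntegral.integral_add_adjacent_intervals (hii2 0 V le_rfl hV) (hii2 V _ hV h3)] at h2
    have : 0 ≤ ∫ u in V..((N:ℝ) / η), a u * Real.exp (-(η * u)) :=
      intervalIntegral.integral_nonneg h1 fun u _ => mul_nonneg (ha u) (Real.exp_pos _).le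
    linarith
  have hint : IntegrableOn (fun u => a u * Real.exp (-(η * u))) (Ioi 0) := by
    apply integrableOn_Ioi_of_intervalIntegral_norm_bounded (C * S * η ^ (-(1 + κ))) (0:ℝ) (l := atTop) (b := fun x : ℝ => x)
      ?_ tendsto_id ?_
    · intro x
      rcases le_total 0 x with h | h
      · exact (intervalIntegrable_iff_integrableOn_Ioc_of_le h).mp (hii2 0 x le_rfl h)
      · rw [Ioc_eq_empty (by linarith)]
        exact integrableOn_empty
    · filter_upwards [eventually_ge_atTop (0:ℝ)] with x hx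
      have e : ∫ u in (0:ℝ)..x, ‖a u * Real.exp (-(η * u))‖ = ∫ u in (0:ℝ)..x, a u * Real.exp (-(η * u)) := by
        congr 1
        funext u
        exact Real.norm_of_nonneg (mul_nonneg (ha u) (Real.exp_pos _).le)
      rw [e]
      exact hall x hx
  refine ⟨hint, ?_⟩
  have hlim := intervalIntegral_tendsto_integral_Ioi (0:ℝ) hint tendsto_id
  refine le_of_tendsto hlim ?_
  filter_upwards [eventually_ge_atTop (0:ℝ)] with x hx
  exact hall x hx

theorem laplace_bound {a : ℝ → ℝ} (ha : ∀ u, 0 ≤ a u) (hloc : ∀ V : ℝ, 0 ≤ V → IntervalIntegrable a volume 0 V)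
    {κ C : ℝ} (hκ : 0 ≤ κ) (hκ1 : κ ≤ 1) (hC : 0 ≤ C)
    (hA : ∀ V : ℝ, 0 ≤ V → ∫ v in (0:ℝ)..V, a v ≤ C * (1 + V) ^ (1 + κ)) :
    ∃ D : ℝ, 0 ≤ D ∧ ∀ η : ℝ, 0 < η → η ≤ 1 →
      IntegrableOn (fun u => a u * Real.exp (-(η * u))) (Ioi 0) ∧
      ∫ u in Ioi (0:ℝ), a u * Real.exp (-(η * u)) ≤ D * η ^ (-(1 + κ)) :=
  ⟨C * Sc, mul_nonneg hC Sc_nn, laplace_bound' ha hloc hκ hκ1 hC hA⟩

end Pool.Agent.TH299.GO
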