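import Mathlib
import Pool.Agent.TH299.GO.A2

/-! The hypothesis for the Mertens function. -/

set_option autoImplicit false

namespace Pool.Agent.TH299.GO

open MeasureTheory ProbabilityTheory Filter Topology Set
open Pool.Agent.W263.BSD
open Pool.Agent.H409R2.MZ.PNT (mm MM laplace_mm measurable_mm abs_mm_le)

/-- the Mertens function -/
noncomputable def MS (x : ℝ) : ℝ := ∑ n ∈ Finset.Icc 1 ⌊x⌋₊, ((ArithmeticFunction.moebius n : ℤ) : ℝ)

noncomputable def aa (s v : ℝ) : ℝ := ap s v * Real.exp (v / 2)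

lemma aa_nn (s v : ℝ) : 0 ≤ aa s v := mul_nonneg (ap_nn s v) (Real.exp_pos _).le

lemma aa_eq (s v : ℝ) (hv : 0 < v) : aa s v = max (s * MS (Real.exp v)) 0 * Real.exp (-(v / 2)) := by
  unfold aa ap
  have h1 : mm v = Real.exp (-v) * MS (Real.exp v) := by
    unfold mm
    rw [if_pos hv]
    rfl
  have h2 : max (s * mm v) 0 = Real.exp (-v) * max (s * MS (Real.exp v)) 0 := by
    rw [h1, mul_max_of_nonneg _ _ (Real.exp_pos _).le, mul_zero]
    congr 1
    ring
  rw [h2]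
  have h3 : Real.exp (-v) * Real.exp (v / 2) = Real.exp (-(v / 2)) := by
    rw [← Real.exp_add]; congr 1; ring
  calc Real.exp (-v) * max (s * MS (Real.exp v)) 0 * Real.exp (v / 2) =
      max (s * MS (Real.exp v)) 0 * (Real.exp (-v) * Real.exp (v / 2)) := by ring
    _ = _ := by rw [h3]

lemma subst (s V : ℝ) (hV : 0 ≤ V) :
    ∫ u in (1:ℝ)..Real.exp V, max (s * MS u) 0 / u ^ (3 / 2 : ℝ) = ∫ v in (0:ℝ)..V, aa s v := by
  rw [intervalIntegral.integral_of_le (Real.one_le_exp hV), intervalIntegral.integral_of_le hV]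
  have himg : Real.exp '' (Ioc (0 : ℝ) V) = Ioc (1 : ℝ) (Real.exp V) := by
    ext y
    constructor
    · rintro ⟨x, hx, rfl⟩
      exact ⟨Real.one_lt_exp_iff.mpr hx.1, Real.exp_le_exp.mpr hx.2⟩
    · intro hy
      have hy0 : 0 < y := by linarith [hy.1]
      exact ⟨Real.log y, ⟨Real.log_pos hy.1, (Real.log_le_iff_le_exp hy0).mpr hy.2⟩, Real.exp_log hy0⟩
  rw [← himg]
  rw [integral_image_eq_integral_abs_deriv_smul measurableSet_Ioc
    (fun x _ => (Real.hasDerivAt_exp x).hasDerivWithinAt) (Real.exp_injective.injOn)]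
  apply setIntegral_congr_fun measurableSet_Ioc
  intro v hv
  simp only
  rw [aa_eq s v hv.1, abs_of_pos (Real.exp_pos v), smul_eq_mul]
  have h1 : (Real.exp v) ^ (3 / 2 : ℝ) = Real.exp (v * (3 / 2)) := by
    rw [← Real.exp_mul]
  rw [h1]
  have h2 : Real.exp v / Real.exp (v * (3 / 2)) = Real.exp (-(v / 2)) := by
    rw [← Real.exp_sub]; congr 1; ring
  rw [← h2]
  ring

lemma aa_ii (s V : ℝ) : IntervalIntegrable (aa s) volume 0 V := by
  have h : IntervalIntegrable (ap s) volume 0 V := by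
    refine (intervalIntegrable_const (c := |s|)).mono_fun (ap_meas s).aestronglyMeasurable (ae_of_all _ fun u => ?_)
    show ‖ap s u‖ ≤ ‖|s|‖
    rw [Real.norm_of_nonneg (ap_nn s u), Real.norm_of_nonneg (abs_nonneg s)]
    unfold ap
    apply max_le _ (abs_nonneg s)
    calc s * mm u ≤ |s * mm u| := le_abs_self _
      _ = |s| * |mm u| := abs_mul _ _
      _ ≤ |s| * 1 := mul_le_mul_of_nonneg_left (abs_mm_le u) (abs_nonneg s)
      _ = |s| := mul_one _
  exact h.mul_continuousOn (by fun_prop)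

/-- **the hypothesis**: the one-sided logarithmic mean of `M(x)/√x` is `O((log x)^κ)` -/
def Hyp (s κ : ℝ) : Prop := ∃ C : ℝ, ∀ᶠ x : ℝ in atTop,
  ∫ u in (1:ℝ)..x, max (s * MS u) 0 / u ^ (3 / 2 : ℝ) ≤ C * Real.log x ^ (1 + κ)

lemma hyp_lap {s κ : ℝ} (hκ : 0 ≤ κ) (hκ1 : κ ≤ 1) (h : Hyp s κ) :
    (∀ w > -(1/2:ℝ), LInt (ap s) w) ∧
    ∃ C : ℝ, ∀ η : ℝ, 0 < η → η ≤ 1 / 2 → lap (ap s) (-(1/2) + η) ≤ C * η ^ (-(1 + κ)) := by
  obtain ⟨C, hC⟩ := h
  obtain ⟨x0, hx0⟩ := eventually_atTop.mp hC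
  set V0 : ℝ := Real.log (max x0 1) with hV0
  have hV00 : 0 ≤ V0 := Real.log_nonneg (le_max_right _ _)
  have hex : Real.exp V0 = max x0 1 := Real.exp_log (lt_of_lt_of_le one_pos (le_max_right _ _))
  have hA : ∀ V : ℝ, 0 ≤ V → ∫ v in (0:ℝ)..V, aa s v ≤ (|C| * (1 + V0) ^ (1 + κ)) * (1 + V) ^ (1 + κ) := by
    intro V hV
    set V' : ℝ := V + V0 with hV'
    have hV'0 : 0 ≤ V' := by positivity
    have h1 : x0 ≤ Real.exp V' := by
      calc x0 ≤ max x0 1 := le_max_left _ _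
        _ = Real.exp V0 := hex.symm
        _ ≤ _ := Real.exp_le_exp.mpr (by rw [hV']; linarith)
    have h2 := hx0 _ h1
    rw [subst s V' hV'0, Real.log_exp] at h2
    have h3 : ∫ v in (0:ℝ)..V, aa s v ≤ ∫ v in (0:ℝ)..V', aa s v := by
      rw [← intervalIntegral.integral_add_adjacent_intervals (aa_ii s V) ((aa_ii s V).symm.trans (aa_ii s V'))]
      have : 0 ≤ ∫ u in V..V', aa s u :=
        intervalIntegral.integral_nonneg (by rw [hV']; linarith) fun u _ => aa_nn s u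
      linarith
    have h4 : V' ≤ (1 + V0) * (1 + V) := by rw [hV']; nlinarith
    calc _ ≤ C * V' ^ (1 + κ) := h3.trans h2
      _ ≤ |C| * V' ^ (1 + κ) := mul_le_mul_of_nonneg_right (le_abs_self _) (by positivity)
      _ ≤ |C| * ((1 + V0) * (1 + V)) ^ (1 + κ) :=
          mul_le_mul_of_nonneg_left (Real.rpow_le_rpow hV'0 h4 (by linarith)) (abs_nonneg _)
      _ = _ := by rw [Real.mul_rpow (by positivity) (by positivity)]; ring
  obtain ⟨D, hD0, hD⟩ := laplace_bound (aa_nn s) (fun V _ => aa_ii s V) hκ hκ1 (by positivity) hA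
  have e : ∀ η u : ℝ, aa s u * Real.exp (-(η * u)) = ap s u * Real.exp (-((-(1/2) + η) * u)) := by
    intro η u
    unfold aa
    rw [mul_assoc, ← Real.exp_add]
    congr 2
    ring
  constructor
  · intro w hw
    have hη : 0 < min (w + 1 / 2) 1 := lt_min (by have : -(1/2:ℝ) < w := hw; linarith) one_pos
    have h1 := (hD _ hη (min_le_right _ _)).1
    have h2 : LInt (ap s) (-(1/2) + min (w + 1 / 2) 1) := by
      unfold LInt
      refine h1.congr_fun (fun u _ => ?_) measurableSet_Ioi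
      exact e _ u
    exact h2.mono (ap_meas s) (by have := min_le_left (w + 1 / 2) 1; linarith)
  · refine ⟨D, fun η hη hη2 => ?_⟩
    have h1 := (hD η hη (by linarith)).2
    unfold lap
    calc _ = ∫ u in Ioi (0:ℝ), aa s u * Real.exp (-(η * u)) := by
          congr 1
          funext u
          exact (e η u).symm
      _ ≤ _ := h1

/-- **first consequence** -/
theorem first {s κ : ℝ} (hs : s = 1 ∨ s = -1) (hκ : 0 ≤ κ) (hκ1 : κ ≤ 1) (h : Hyp s κ) :
    (∀ w : ℂ, 1 / 2 < w.re → riemannZeta w ≠ 0) ∧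
    ∃ c : ℝ, 0 < c ∧ ∀ η t : ℝ, 0 < η → η ≤ 1 / 2 → t ≠ 0 →
      c * η ^ (1 + κ) ≤ (1 + |t|) * ‖riemannZeta (1 / 2 + η + t * Complex.I)‖ := by
  obtain ⟨h1, C, hC⟩ := hyp_lap hκ hκ1 h
  exact lower hs h1 hκ hC

end Pool.Agent.TH299.GO
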