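import Mathlib
import Pool.Agent.TH299.GO.A3

/-! Increments of the Mertens function. -/

set_option autoImplicit false

namespace Pool.Agent.TH299.GO

open MeasureTheory ProbabilityTheory Filter Topology Set
open Pool.Agent.W263.BSD Pool.Agent.TH988.RB
open Pool.Agent.H409R2.MZ.PNT (mm MM laplace_mm measurable_mm abs_mm_le)

/-- the increment of the Mertens function, times `e^(-u)` (for `u > 0`) -/
noncomputable def gg (δ u : ℝ) : ℝ := Real.exp δ * mm (u + δ) - mm u

lemma gg_meas (δ : ℝ) : Measurable (gg δ) :=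
  ((measurable_mm.comp (measurable_id.add_const δ)).const_mul _).sub measurable_mm

lemma gg_bd (δ u : ℝ) : |gg δ u| ≤ Real.exp δ + 1 := by
  unfold gg
  refine (abs_sub _ _).trans ?_
  rw [abs_mul, abs_of_pos (Real.exp_pos δ)]
  have h1 := abs_mm_le (u + δ)
  have h2 := abs_mm_le u
  have h3 := mul_le_mul_of_nonneg_left h1 (Real.exp_pos δ).le
  rw [mul_one] at h3
  exact add_le_add h3 h2

lemma gg_eq {δ u : ℝ} (hδ : 0 < δ) (hu : 0 < u) :
    gg δ u = (MS (Real.exp (u + δ)) - MS (Real.exp u)) * Real.exp (-u) := by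
  unfold gg mm
  rw [if_pos hu, if_pos (by linarith)]
  have h1 : Real.exp δ * Real.exp (-(u + δ)) = Real.exp (-u) := by
    rw [← Real.exp_add]; congr 1; ring
  have e1 : MM ⌊Real.exp (u + δ)⌋₊ = MS (Real.exp (u + δ)) := rfl
  have e2 : MM ⌊Real.exp u⌋₊ = MS (Real.exp u) := rfl
  rw [e1, e2, ← mul_assoc, h1]
  ring

lemma bd_LInt {f : ℝ → ℝ} (hf : Measurable f) {B : ℝ} (hB : ∀ u, |f u| ≤ B) {w : ℝ} (hw : 0 < w) : LInt f w := by
  unfold LInt
  have := (integrableOn_exp_mul_Ioi (a := -w) (by linarith) 0).const_mul B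
  refine Integrable.mono this ?_ (Eventually.of_forall fun u => ?_)
  · exact (hf.mul (by fun_prop)).aestronglyMeasurable
  · have hB0 : 0 ≤ B := (abs_nonneg _).trans (hB u)
    rw [norm_mul, norm_mul, Real.norm_of_nonneg (Real.exp_pos _).le, Real.norm_of_nonneg (Real.exp_pos _).le,
      Real.norm_eq_abs, Real.norm_of_nonneg hB0]
    calc |f u| * Real.exp (-(w * u)) ≤ B * Real.exp (-(w * u)) :=
          mul_le_mul_of_nonneg_right (hB u) (Real.exp_pos _).le
      _ = _ := by rw [neg_mul]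

lemma mm_small {w : ℝ} (h0 : 0 < w) (h1 : w < 3 / 5) : mm w = Real.exp (-w) := by
  unfold mm
  rw [if_pos h0]
  have hl := Real.log_two_gt_d9
  have h2 : ⌊Real.exp w⌋₊ = 1 := by
    rw [Nat.floor_eq_iff (Real.exp_pos w).le]
    constructor
    · push_cast
      exact Real.one_le_exp h0.le
    · push_cast
      have : Real.exp w < Real.exp (Real.log 2) := Real.exp_lt_exp.mpr (by linarith)
      rw [Real.exp_log (by norm_num)] at this
      linarith
  rw [h2]
  unfold MM
  simp

/-- the Laplace transform of the increments -/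
lemma lapC_gg {δ : ℝ} (hδ : 0 < δ) (hδ1 : δ ≤ 1 / 2) {z : ℂ} (hz : 0 < z.re) :
    lapC (gg δ) z = (Complex.exp (δ * (1 + z)) - 1) * (Rc z - 1 / (1 + z)) := by
  have hI : IntegrableOn (fun u : ℝ => (mm u : ℂ) * Complex.exp (-(z * u))) (Ioi 0) :=
    LInt.complex measurable_mm (mm_LInt hz)
  have hI2 : IntegrableOn (fun u : ℝ => (mm u : ℂ) * Complex.exp (-(z * u))) (Ioi δ) :=
    hI.mono_set (Ioi_subset_Ioi hδ.le)
  have h1z : (1 + z : ℂ) ≠ 0 := by
    intro h
    have := congrArg Complex.re h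
    simp at this
    linarith
  -- shift
  have hsh : ∫ u in Ioi (0:ℝ), ((mm (u + δ) : ℝ) : ℂ) * Complex.exp (-(z * (u + δ : ℝ))) =
      ∫ u in Ioi δ, (mm u : ℂ) * Complex.exp (-(z * u)) := by
    have h2 := (measurePreserving_add_right volume δ).setIntegral_preimage_emb
      (MeasurableEquiv.addRight δ).measurableEmbedding (fun u : ℝ => (mm u : ℂ) * Complex.exp (-(z * u))) (Ioi δ)
    have h3 : (fun x : ℝ => x + δ) ⁻¹' Ioi δ = Ioi 0 := by
      ext x
      simp
    rw [h3] at h2
    exact h2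
  have hshI : IntegrableOn (fun u : ℝ => ((mm (u + δ) : ℝ) : ℂ) * Complex.exp (-(z * (u + δ : ℝ)))) (Ioi 0) := by
    have h2 := (measurePreserving_add_right volume δ).integrableOn_comp_preimage
      (MeasurableEquiv.addRight δ).measurableEmbedding (f := fun u : ℝ => (mm u : ℂ) * Complex.exp (-(z * u))) (s := Ioi δ)
    have h3 : (fun x : ℝ => x + δ) ⁻¹' Ioi δ = Ioi 0 := by
      ext x
      simp
    rw [h3] at h2
    exact h2.mpr hI2
  have hE : Complex.exp (δ * (1 + z)) = Complex.exp δ * Complex.exp (z * δ) := by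
    rw [← Complex.exp_add]; congr 1; ring
  have h1 : lapC (gg δ) z = Complex.exp (δ * (1 + z)) *
      (∫ u in Ioi (0:ℝ), ((mm (u + δ) : ℝ) : ℂ) * Complex.exp (-(z * (u + δ : ℝ)))) - lapC mm z := by
    unfold lapC
    rw [← integral_const_mul, ← integral_sub (hshI.const_mul _) hI]
    congr 1
    funext u
    unfold gg
    push_cast
    rw [hE]
    have h4 : Complex.exp (z * δ) * Complex.exp (-(z * (u + δ))) = Complex.exp (-(z * u)) := by
      rw [← Complex.exp_add]; congr 1; ring
    calc _ = Complex.exp δ * (mm (u + δ) : ℂ) * Complex.exp (-(z * u)) - (mm u : ℂ) * Complex.exp (-(z * u)) := by ring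
      _ = _ := by rw [← h4]; ring
  have h2 : ∫ u in Ioi δ, (mm u : ℂ) * Complex.exp (-(z * u)) = lapC mm z - (1 - Complex.exp (-(δ * (1 + z)))) / (1 + z) := by
    unfold lapC
    have h3 : ∫ u in Ioi (0:ℝ), (mm u : ℂ) * Complex.exp (-(z * u)) =
        (∫ u in Ioc 0 δ, (mm u : ℂ) * Complex.exp (-(z * u))) + ∫ u in Ioi δ, (mm u : ℂ) * Complex.exp (-(z * u)) := by
      rw [← setIntegral_union (Ioc_disjoint_Ioi le_rfl) measurableSet_Ioi (hI.mono_set Ioc_subset_Ioi_self) hI2,
        Ioc_union_Ioi_eq_Ioi hδ.le]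
    have h4 : ∫ u in Ioc 0 δ, (mm u : ℂ) * Complex.exp (-(z * u)) = (1 - Complex.exp (-(δ * (1 + z)))) / (1 + z) := by
      rw [← intervalIntegral.integral_of_le hδ.le]
      have h5 : ∫ u in (0:ℝ)..δ, (mm u : ℂ) * Complex.exp (-(z * u)) = ∫ u in (0:ℝ)..δ, Complex.exp (-(1 + z) * u) := by
        rw [intervalIntegral.integral_of_le hδ.le, intervalIntegral.integral_of_le hδ.le]
        apply setIntegral_congr_fun measurableSet_Ioc
        intro u hu
        simp only
        rw [mm_small hu.1 (by linarith [hu.2]), Complex.ofReal_exp, ← Complex.exp_add]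
        congr 1
        push_cast
        ring
      rw [h5, integral_exp_mul_complex (neg_ne_zero.mpr h1z)]
      have e : -(1 + z) * (δ:ℂ) = -(δ * (1 + z)) := by ring
      rw [e]
      simp only [Complex.ofReal_zero, mul_zero, Complex.exp_zero]
      rw [div_neg, ← neg_div]
      congr 1
      ring
    rw [h4] at h3
    rw [h3]
    ring
  rw [h1, hsh, h2, lapC_mm hz]
  have h5 : Complex.exp (δ * (1 + z)) * Complex.exp (-(δ * (1 + z))) = 1 := by
    rw [← Complex.exp_add]; simp
  have h6 : Complex.exp (δ * (1 + z)) * ((1 - Complex.exp (-(δ * (1 + z)))) / (1 + z)) =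
      (Complex.exp (δ * (1 + z)) - 1) / (1 + z) := by
    rw [← mul_div_assoc, mul_sub, mul_one, h5]
  rw [mul_sub, h6]
  ring

end Pool.Agent.TH299.GO
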