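import Mathlib
import Pool.Agent.TH299.GO.A4

/-! Landau's theorem for the increments of the Mertens function. -/

set_option autoImplicit false

namespace Pool.Agent.TH299.GO

open MeasureTheory ProbabilityTheory Filter Topology Set
open Pool.Agent.W263.BSD Pool.Agent.TH988.RB
open Pool.Agent.H409R2.MZ.PNT (mm MM laplace_mm measurable_mm abs_mm_le)

section generic

variable {f : ℝ → ℝ} (hf : Measurable f) {B : ℝ} (hB : ∀ u, |f u| ≤ B) {R : ℝ → ℝ}
  (hR : ∀ w > -(1/2:ℝ), AnalyticAt ℝ R w) (hfR : ∀ w > (0:ℝ), lap f w = R w) {s : ℝ}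
  (H : ∀ w > -(1/2:ℝ), LInt (fun u => max (s * f u) 0) w)

include hf hB hR hfR H

theorem g_one_sided :
    (∀ w > -(1/2:ℝ), LInt (fun u => max (-(s * f u)) 0) w) ∧
    ∀ w > -(1/2:ℝ), lap (fun u => max (-(s * f u)) 0) w = lap (fun u => max (s * f u) 0) w - s * R w := by
  have hL : ∀ w > (0:ℝ), LInt f w := fun w hw => bd_LInt hf hB hw
  have hb : ∀ w > (0:ℝ), LInt (fun u => max (-(s * f u)) 0) w := fun w hw => by
    have h1 : LInt (fun u => -(s * f u)) w := ((hL w hw).const_mul s).neg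
    exact LInt.posPart (hf.const_mul s).neg h1
  refine landau_lap ((hf.const_mul s).neg.max measurable_const) (fun u _ => le_max_right _ _) (w1 := 0) hb
    (g := fun w => lap (fun u => max (s * f u) 0) w - s * R w) ?_ ?_
  · intro w hw
    exact (lap_analyticAt ((hf.const_mul s).max measurable_const) (fun u _ => le_max_right _ _) H hw).sub
      (analyticAt_const.mul (hR w hw))
  · intro w hw hw2
    have h1 : lap (fun u => s * f u) w = s * R w := by rw [lap_const_mul, hfR w hw]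
    have h2 : lap (fun u => max (s * f u) 0 - max (-(s * f u)) 0) w =
        lap (fun u => max (s * f u) 0) w - lap (fun u => max (-(s * f u)) 0) w := lap_sub (H w hw2) (hb w hw)
    have h3 : (fun u => max (s * f u) 0 - max (-(s * f u)) 0) = fun u => s * f u := by
      funext u
      rcases le_total (s * f u) 0 with h | h
      · rw [max_eq_right h, max_eq_left (by linarith)]; ring
      · rw [max_eq_left h, max_eq_right (by linarith)]; ring
    rw [h3, h1] at h2
    show lap (fun u => max (-(s * f u)) 0) w = _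
    linarith

theorem g_LInt (hs : s = 1 ∨ s = -1) {w : ℝ} (hw : -(1/2:ℝ) < w) : LInt f w := by
  have h1 := ((H w hw).sub ((g_one_sided hf hB hR hfR H).1 w hw)).const_mul s
  have h3 : (fun u => s * (max (s * f u) 0 - max (-(s * f u)) 0)) = f := by
    funext u
    have : max (s * f u) 0 - max (-(s * f u)) 0 = s * f u := by
      rcases le_total (s * f u) 0 with h | h
      · rw [max_eq_right h, max_eq_left (by linarith)]; ring
      · rw [max_eq_left h, max_eq_right (by linarith)]; ring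
    rw [this]
    rcases hs with h | h <;> · rw [h]; ring
  rwa [h3] at h1

theorem g_lapC_le (hs : s = 1 ∨ s = -1) {z : ℂ} (hz : -(1/2:ℝ) < z.re) :
    ‖lapC f z‖ ≤ 2 * lap (fun u => max (s * f u) 0) z.re - s * R z.re := by
  obtain ⟨hb1, hb2⟩ := g_one_sided hf hB hR hfR H
  have h1 : ‖lapC f z‖ ≤ lap (fun u => max (s * f u) 0 + max (-(s * f u)) 0) z.re := by
    unfold lapC lap
    refine (norm_integral_le_integral_norm _).trans (le_of_eq ?_)
    congr 1
    funext u
    rw [norm_mul, Complex.norm_exp, Complex.norm_real, Real.norm_eq_abs]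
    have e1 : (-(z * (u:ℂ))).re = -(z.re * u) := by simp
    rw [e1]
    congr 1
    have e2 : |f u| = |s * f u| := by
      rw [abs_mul]
      rcases hs with h | h <;> · rw [h]; simp
    rw [e2]
    show |s * f u| = max (s * f u) 0 + max (-(s * f u)) 0
    rcases le_total (s * f u) 0 with h | h
    · rw [max_eq_right h, max_eq_left (by linarith), abs_of_nonpos h]; ring
    · rw [max_eq_left h, max_eq_right (by linarith), abs_of_nonneg h]; ring
  rw [lap_add (H _ hz) (hb1 _ hz), hb2 _ hz] at h1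
  linarith

end generic

/-- continuation of the transform of the increments -/
noncomputable def Rd (δ w : ℝ) : ℝ := ((Complex.exp (δ * (1 + (w:ℂ))) - 1) * (Rc w - 1 / (1 + (w:ℂ)))).re

lemma Rc_an {w : ℝ} (hw : -1 < w) : AnalyticAt ℂ Rc (w : ℂ) := by
  unfold Rc
  refine AnalyticAt.div analyticAt_id ((analyticAt_const.add analyticAt_id).mul ?_) ?_
  · exact (differentiable_riemannZeta₁.comp (differentiable_const (1:ℂ) |>.add differentiable_id)).analyticAt _
  · refine mul_ne_zero ?_ (zeta1_real_ne hw)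
    intro h
    have h2 := congrArg Complex.re h
    simp at h2
    linarith

lemma one_add_ne {w : ℝ} (hw : -1 < w) : (1 + (w:ℂ)) ≠ 0 := by
  intro h
  have h2 := congrArg Complex.re h
  simp at h2
  linarith

lemma Rd_analyticAt (δ : ℝ) {w : ℝ} (hw : -1 < w) : AnalyticAt ℝ (Rd δ) w := by
  have h1 : AnalyticAt ℂ (fun z : ℂ => (Complex.exp (δ * (1 + z)) - 1) * (Rc z - 1 / (1 + z))) (w : ℂ) := by
    refine AnalyticAt.mul ?_ ((Rc_an hw).sub (analyticAt_const.div (analyticAt_const.add analyticAt_id) (one_add_ne hw)))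
    exact ((by fun_prop : Differentiable ℂ fun z : ℂ => Complex.exp (δ * (1 + z)) - 1)).analyticAt _
  exact h1.re_ofReal

lemma lap_gg {δ : ℝ} (hδ : 0 < δ) (hδ1 : δ ≤ 1 / 2) {w : ℝ} (hw : 0 < w) : lap (gg δ) w = Rd δ w := by
  have h := lapC_gg hδ hδ1 (z := (w:ℂ)) (by simpa using hw)
  rw [lapC_ofReal] at h
  unfold Rd
  rw [← h, Complex.ofReal_re]

lemma Rd_bound : ∃ K : ℝ, 0 ≤ K ∧ ∀ δ w : ℝ, 0 < δ → δ ≤ 1 / 2 → -(1/2) ≤ w → w ≤ 0 → |Rd δ w| ≤ K * δ := by
  have hcont : ContinuousOn (fun w : ℝ => Rc (w:ℂ) - 1 / (1 + (w:ℂ))) (Icc (-(1/2:ℝ)) 0) := by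
    intro w hw
    have hw1 : -1 < w := by have := hw.1; linarith
    have h1 : ContinuousAt (fun z : ℂ => Rc z - 1 / (1 + z)) (w:ℂ) :=
      ((Rc_an hw1).sub (analyticAt_const.div (analyticAt_const.add analyticAt_id) (one_add_ne hw1))).continuousAt
    exact (ContinuousAt.comp (f := fun w : ℝ => (w:ℂ)) h1 Complex.continuous_ofReal.continuousAt).continuousWithinAt
  obtain ⟨K, hK⟩ := isCompact_Icc.exists_bound_of_continuousOn hcont
  have hK0 : 0 ≤ K := (norm_nonneg _).trans (hK 0 ⟨by norm_num, le_rfl⟩)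
  refine ⟨2 * K, by positivity, fun δ w hδ hδ1 hw1 hw2 => ?_⟩
  unfold Rd
  refine (Complex.abs_re_le_norm _).trans ?_
  rw [norm_mul]
  have hn : ‖(δ * (1 + (w:ℂ)) : ℂ)‖ ≤ δ := by
    have e : (δ * (1 + (w:ℂ)) : ℂ) = ((δ * (1 + w) : ℝ) : ℂ) := by push_cast; ring
    rw [e, Complex.norm_real, Real.norm_of_nonneg (mul_nonneg hδ.le (by linarith))]
    nlinarith
  have h1 := Complex.norm_exp_sub_one_le (x := (δ * (1 + (w:ℂ)) : ℂ)) (by linarith)
  have h2 := hK w ⟨hw1, hw2⟩
  calc _ ≤ (2 * δ) * K := mul_le_mul (by linarith) h2 (norm_nonneg _) (by positivity)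
    _ = _ := by ring

/-- the identity for the increments -/
theorem ident2 {δ : ℝ} (hδ : 0 < δ) (hδ1 : δ ≤ 1 / 2) {s : ℝ} (hs : s = 1 ∨ s = -1)
    (H : ∀ w > -(1/2:ℝ), LInt (fun u => max (s * gg δ u) 0) w) {z : ℂ}
    (hz : -(1/2:ℝ) < z.re) :
    (1 + z) * riemannZeta₁ (1 + z) * lapC (gg δ) z = (Complex.exp (δ * (1 + z)) - 1) * (z - riemannZeta₁ (1 + z)) := by
  set U : Set ℂ := {z : ℂ | -(1/2:ℝ) < z.re} with hU
  have hUo : IsOpen U := isOpen_lt continuous_const Complex.continuous_re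
  have hUc : IsPreconnected U := (convex_halfSpace_re_gt _).isPreconnected
  have hz1d : Differentiable ℂ (fun z : ℂ => riemannZeta₁ (1 + z)) :=
    differentiable_riemannZeta₁.comp (differentiable_const (1:ℂ) |>.add differentiable_id)
  have hd : DifferentiableOn ℂ (fun z => (1 + z) * riemannZeta₁ (1 + z) * lapC (gg δ) z) U := by
    intro z hz
    have h1 : DifferentiableAt ℂ (lapC (gg δ)) z :=
      lapC_differentiableAt (gg_meas δ) (fun w hw => g_LInt (gg_meas δ) (gg_bd δ)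
        (fun w hw => Rd_analyticAt δ (by have : -(1/2:ℝ) < w := hw; linarith)) (fun w hw => lap_gg hδ hδ1 hw) H hs hw) hz
    exact (((differentiableAt_const _).add differentiableAt_id).mul (hz1d z)).mul h1 |>.differentiableWithinAt
  have hA := hd.analyticOnNhd hUo
  have hB : AnalyticOnNhd ℂ (fun z : ℂ => (Complex.exp (δ * (1 + z)) - 1) * (z - riemannZeta₁ (1 + z))) U := by
    have h2 : Differentiable ℂ (fun z : ℂ => (Complex.exp (δ * (1 + z)) - 1) * (z - riemannZeta₁ (1 + z))) :=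
      (by fun_prop : Differentiable ℂ fun z : ℂ => Complex.exp (δ * (1 + z)) - 1).mul (differentiable_id.sub hz1d)
    exact fun z _ => h2.analyticAt z
  have h1U : (1:ℂ) ∈ U := by
    show -(1/2:ℝ) < (1:ℂ).re
    rw [Complex.one_re]
    norm_num
  refine hA.eqOn_of_preconnected_of_eventuallyEq hB hUc h1U ?_ hz
  have hpos : {z : ℂ | 0 < z.re} ∈ 𝓝 (1:ℂ) :=
    (isOpen_lt continuous_const Complex.continuous_re).mem_nhds (by show (0:ℝ) < (1:ℂ).re; simp)
  filter_upwards [hpos] with z hz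
  have hz' : 0 < z.re := hz
  rw [lapC_gg hδ hδ1 hz']
  unfold Rc
  have h1 : (1 + z) ≠ 0 := by
    intro h
    have := congrArg Complex.re h
    simp at this
    linarith
  have h2 : riemannZeta₁ (1 + z) ≠ 0 := zeta1_ne hz'
  field_simp

/-- **lower bound for zeta from the increments** -/
theorem lower2 {s : ℝ} (hs : s = 1 ∨ s = -1) {θ κ C : ℝ} (hθ : 0 ≤ θ) (hθ1 : θ ≤ 1) (hκ : 0 ≤ κ)
    (H : ∀ δ : ℝ, 0 < δ → δ ≤ 1 / 2 → ∀ w > -(1/2:ℝ), LInt (fun u => max (s * gg δ u) 0) w)
    (hC : ∀ δ : ℝ, 0 < δ → δ ≤ 1 / 2 → ∀ η : ℝ, 0 < η → η ≤ 1 / 2 →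
      lap (fun u => max (s * gg δ u) 0) (-(1/2) + η) ≤ C * δ ^ θ * η ^ (-(1 + κ))) :
    (∀ w : ℂ, 1 / 2 < w.re → riemannZeta w ≠ 0) ∧
    ∃ c : ℝ, 0 < c ∧ ∀ η t : ℝ, 0 < η → η ≤ 1 / 2 → t ≠ 0 →
      c * η ^ (1 + κ) ≤ (1 + |t|) ^ (1 - θ) * ‖riemannZeta (1 / 2 + η + t * Complex.I)‖ := by
  constructor
  · intro w hw h0
    have hw1 : w ≠ 1 := by
      intro h
      rw [h] at h0
      exact riemannZeta_ne_zero_of_one_le_re (by simp) h0
    have h1 := ident2 (δ := 1 / 2) (by norm_num) le_rfl hs (H (1 / 2) (by norm_num) le_rfl) (z := w - 1)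
      (by rw [Complex.sub_re, Complex.one_re]; linarith)
    have e : 1 + (w - 1) = w := by ring
    rw [e] at h1
    rw [riemannZeta_eq_inv_sub_mul hw1] at h0
    have h2 : riemannZeta₁ w = 0 := by
      rcases mul_eq_zero.mp h0 with h | h
      · exact absurd (inv_eq_zero.mp h) (sub_ne_zero.mpr hw1)
      · exact h
    rw [h2, mul_zero, zero_mul, sub_zero] at h1
    rcases mul_eq_zero.mp h1.symm with h3 | h3
    · have h4 : ‖Complex.exp ((1 / 2 : ℝ) * w)‖ = 1 := by
        rw [sub_eq_zero.mp h3, norm_one]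
      rw [Complex.norm_exp] at h4
      have h5 : (((1 / 2 : ℝ) : ℂ) * w).re = w.re / 2 := by simp; ring
      rw [h5, Real.exp_eq_one_iff] at h4
      linarith
    · exact sub_ne_zero.mpr hw1 h3
  · obtain ⟨K, hK0, hK⟩ := Rd_bound
    set D : ℝ := 2 * |C| + K + 1 with hD
    have hD0 : 0 < D := by positivity
    have hc0 : (0:ℝ) < 1 / (8 * D) := by positivity
    refine ⟨min (1 / 2) (1 / (8 * D)), lt_min (by norm_num) hc0, fun η t hη hη2 ht => ?_⟩
    have ht0 : 0 < |t| := abs_pos.mpr ht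
    have hT : 0 < 1 + |t| := by linarith
    set δ : ℝ := 1 / (2 * (1 + |t|)) with hδdef
    have hδ : 0 < δ := by positivity
    have hδ1 : δ ≤ 1 / 2 := by
      rw [hδdef]
      apply one_div_le_one_div_of_le (by norm_num)
      linarith
    set z : ℂ := (-(1/2) + η : ℝ) + t * Complex.I with hz
    have hzre : z.re = -(1/2) + η := by rw [hz]; simp
    have hzim : z.im = t := by rw [hz]; simp
    have hzr : -(1/2:ℝ) < z.re := by rw [hzre]; linarith
    have hz0 : z ≠ 0 := by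
      intro h
      rw [h] at hzim
      simp at hzim
      exact ht hzim.symm
    have hp1 : 1 ≤ η ^ (-(1 + κ)) := by
      apply Real.one_le_rpow_of_pos_of_le_one_of_nonpos hη (by linarith) (by linarith)
    have hδθ : δ ≤ δ ^ θ := by
      calc δ = δ ^ (1:ℝ) := (Real.rpow_one _).symm
        _ ≤ δ ^ θ := Real.rpow_le_rpow_of_exponent_ge hδ (by linarith) hθ1
    have hδθ0 : 0 < δ ^ θ := by positivity
    have hL : ‖lapC (gg δ) z‖ ≤ D * δ ^ θ * η ^ (-(1 + κ)) := by
      have h1 := g_lapC_le (gg_meas δ) (gg_bd δ)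
        (fun w hw => Rd_analyticAt δ (by have : -(1/2:ℝ) < w := hw; linarith)) (fun w hw => lap_gg hδ hδ1 hw)
        (H δ hδ hδ1) hs hzr
      rw [hzre] at h1
      have h2 := hC δ hδ hδ1 η hη hη2
      have h3 := hK δ (-(1/2) + η) hδ hδ1 (by linarith) (by linarith)
      have h4 : -(s * Rd δ (-(1/2) + η)) ≤ K * δ := by
        have := neg_abs_le (s * Rd δ (-(1/2) + η))
        have e : |s * Rd δ (-(1/2) + η)| = |Rd δ (-(1/2) + η)| := by
          rw [abs_mul]
          rcases hs with h | h <;> · rw [h]; simp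
        rw [e] at this
        linarith
      have h5 : C * δ ^ θ * η ^ (-(1 + κ)) ≤ |C| * δ ^ θ * η ^ (-(1 + κ)) := by
        apply mul_le_mul_of_nonneg_right _ (by linarith)
        exact mul_le_mul_of_nonneg_right (le_abs_self _) hδθ0.le
      have h6 : K * δ ≤ K * δ ^ θ * η ^ (-(1 + κ)) := by
        calc K * δ ≤ K * δ ^ θ := mul_le_mul_of_nonneg_left hδθ hK0
          _ ≤ _ := le_mul_of_one_le_right (by positivity) hp1
      have h7 : 0 ≤ δ ^ θ * η ^ (-(1 + κ)) := by positivity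
      calc _ ≤ 2 * (|C| * δ ^ θ * η ^ (-(1 + κ))) + K * δ ^ θ * η ^ (-(1 + κ)) := by linarith
        _ = (2 * |C| + K) * (δ ^ θ * η ^ (-(1 + κ))) := by ring
        _ ≤ D * (δ ^ θ * η ^ (-(1 + κ))) := mul_le_mul_of_nonneg_right (by rw [hD]; linarith) h7
        _ = _ := by ring
    have hid := ident2 hδ hδ1 hs (H δ hδ hδ1) hzr
    have hsz : (1 / 2 + η + t * Complex.I : ℂ) = 1 + z := by
      rw [hz]; push_cast; ring
    have hne1 : (1 + z : ℂ) ≠ 1 := by
      intro h
      exact hz0 (by linear_combination h)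
    have hze : riemannZeta₁ (1 + z) = z * riemannZeta (1 + z) := by
      rw [riemannZeta_eq_inv_sub_mul hne1]
      have e : (1 + z - 1 : ℂ) = z := by ring
      rw [e, ← mul_assoc, mul_inv_cancel₀ hz0, one_mul]
    rw [hze] at hid
    have h1 : (1 + z) * riemannZeta (1 + z) * lapC (gg δ) z =
        (Complex.exp (δ * (1 + z)) - 1) * (1 - riemannZeta (1 + z)) := by
      apply mul_left_cancel₀ hz0
      linear_combination hid
    have hs1 : ‖1 + z‖ ≤ 1 + |t| := by
      rw [← hsz]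
      have e : (1 / 2 + η + t * Complex.I : ℂ) = ((1 / 2 + η : ℝ) : ℂ) + t * Complex.I := by push_cast; ring
      rw [e]
      refine (norm_add_le _ _).trans ?_
      rw [norm_mul, Complex.norm_I, mul_one, Complex.norm_real, Complex.norm_real, Real.norm_eq_abs, Real.norm_eq_abs,
        abs_of_pos (by linarith : (0:ℝ) < 1 / 2 + η)]
      linarith
    have hs0 : 0 < ‖1 + z‖ := by
      apply norm_pos_iff.mpr
      intro h
      have := congrArg Complex.re h
      simp [hzre] at this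
      linarith
    rw [hsz]
    set Z : ℝ := ‖riemannZeta (1 + z)‖ with hZ
    have hη1 : η ^ (1 + κ) ≤ 1 := Real.rpow_le_one hη.le (by linarith) (by linarith)
    have hη0 : 0 < η ^ (1 + κ) := by positivity
    have hTt : 1 ≤ (1 + |t|) ^ (1 - θ) := Real.one_le_rpow (by linarith) (by linarith)
    rcases le_total (1 / 2) Z with hZ1 | hZ1
    · calc min (1 / 2) (1 / (8 * D)) * η ^ (1 + κ) ≤ (1 / 2) * 1 :=
            mul_le_mul (min_le_left _ _) hη1 hη0.le (by norm_num)
        _ ≤ 1 * Z := by linarith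
        _ ≤ _ := mul_le_mul_of_nonneg_right hTt (by linarith)
    · have h2 : 1 / 2 ≤ ‖1 - riemannZeta (1 + z)‖ := by
        have := norm_sub_norm_le (1:ℂ) (riemannZeta (1 + z))
        rw [norm_one] at this
        linarith
      have hx : ‖(δ * (1 + z) : ℂ)‖ = δ * ‖1 + z‖ := by
        rw [norm_mul, Complex.norm_real, Real.norm_of_nonneg hδ.le]
      have hx2 : δ * ‖1 + z‖ ≤ 1 / 2 := by
        calc δ * ‖1 + z‖ ≤ δ * (1 + |t|) := mul_le_mul_of_nonneg_left hs1 hδ.le
          _ = 1 / 2 := by rw [hδdef]; field_simp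
      have h3 : δ * ‖1 + z‖ / 2 ≤ ‖Complex.exp (δ * (1 + z)) - 1‖ := by
        have h4 := Complex.norm_exp_sub_one_sub_id_le (x := (δ * (1 + z) : ℂ)) (by rw [hx]; linarith)
        have h5 := norm_sub_norm_le (δ * (1 + z) : ℂ) (-(Complex.exp (δ * (1 + z)) - 1 - δ * (1 + z)))
        have h6 : (δ * (1 + z) : ℂ) - -(Complex.exp (δ * (1 + z)) - 1 - δ * (1 + z)) =
            Complex.exp (δ * (1 + z)) - 1 := by ring
        rw [h6, norm_neg, hx] at h5
        rw [hx] at h4
        have h7 : 0 ≤ δ * ‖1 + z‖ := by positivity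
        nlinarith
      have h4 : ‖1 + z‖ * Z * ‖lapC (gg δ) z‖ = ‖Complex.exp (δ * (1 + z)) - 1‖ * ‖1 - riemannZeta (1 + z)‖ := by
        rw [hZ, ← norm_mul, ← norm_mul, h1, norm_mul]
      have h5 : δ * ‖1 + z‖ / 2 * (1 / 2) ≤ ‖1 + z‖ * Z * (D * δ ^ θ * η ^ (-(1 + κ))) := by
        calc _ ≤ ‖Complex.exp (δ * (1 + z)) - 1‖ * ‖1 - riemannZeta (1 + z)‖ :=
              mul_le_mul h3 h2 (by norm_num) (norm_nonneg _)
          _ = ‖1 + z‖ * Z * ‖lapC (gg δ) z‖ := h4.symm
          _ ≤ _ := mul_le_mul_of_nonneg_left hL (by positivity)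
      have h6 : δ / 4 ≤ Z * (D * δ ^ θ * η ^ (-(1 + κ))) := by
        apply le_of_mul_le_mul_left _ hs0
        calc ‖1 + z‖ * (δ / 4) = δ * ‖1 + z‖ / 2 * (1 / 2) := by ring
          _ ≤ _ := h5
          _ = _ := by ring
      have h7 : η ^ (1 + κ) * η ^ (-(1 + κ)) = 1 := by
        rw [← Real.rpow_add hη]; simp
      have h8 : δ ^ (1 - θ) * δ ^ θ = δ := by
        rw [← Real.rpow_add hδ]; simp
      have h9 : δ ^ (1 - θ) * η ^ (1 + κ) ≤ 4 * D * Z := by
        apply le_of_mul_le_mul_right _ hδθ0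
        calc δ ^ (1 - θ) * η ^ (1 + κ) * δ ^ θ = (δ ^ (1 - θ) * δ ^ θ) * η ^ (1 + κ) := by ring
          _ = 4 * (δ / 4) * η ^ (1 + κ) := by rw [h8]; ring
          _ ≤ 4 * (Z * (D * δ ^ θ * η ^ (-(1 + κ)))) * η ^ (1 + κ) := by
              apply mul_le_mul_of_nonneg_right _ hη0.le
              linarith
          _ = 4 * D * Z * δ ^ θ * (η ^ (1 + κ) * η ^ (-(1 + κ))) := by ring
          _ = _ := by rw [h7]; ring
      have h10 : 1 / 2 ≤ (1 + |t|) ^ (1 - θ) * δ ^ (1 - θ) := by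
        rw [← Real.mul_rpow hT.le hδ.le]
        have e : (1 + |t|) * δ = 1 / 2 := by rw [hδdef]; field_simp
        rw [e]
        calc (1 / 2 : ℝ) = (1 / 2) ^ (1:ℝ) := (Real.rpow_one _).symm
          _ ≤ (1 / 2) ^ (1 - θ) := Real.rpow_le_rpow_of_exponent_ge (by norm_num) (by norm_num) (by linarith)
      have hT0 : 0 < (1 + |t|) ^ (1 - θ) := by positivity
      calc min (1 / 2) (1 / (8 * D)) * η ^ (1 + κ) ≤ 1 / (8 * D) * η ^ (1 + κ) :=
            mul_le_mul_of_nonneg_right (min_le_right _ _) hη0.le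
        _ = 1 / (4 * D) * (1 / 2 * η ^ (1 + κ)) := by field_simp; ring
        _ ≤ 1 / (4 * D) * (((1 + |t|) ^ (1 - θ) * δ ^ (1 - θ)) * η ^ (1 + κ)) := by
            apply mul_le_mul_of_nonneg_left _ (by positivity)
            exact mul_le_mul_of_nonneg_right h10 hη0.le
        _ = 1 / (4 * D) * ((1 + |t|) ^ (1 - θ) * (δ ^ (1 - θ) * η ^ (1 + κ))) := by ring
        _ ≤ 1 / (4 * D) * ((1 + |t|) ^ (1 - θ) * (4 * D * Z)) := by
            apply mul_le_mul_of_nonneg_left _ (by positivity)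
            exact mul_le_mul_of_nonneg_left h9 hT0.le
        _ = _ := by field_simp

end Pool.Agent.TH299.GO
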