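import Mathlib
import Pool.Agent.TH299.GO.A5

/-! The hypothesis for the increments of the Mertens function. -/

set_option autoImplicit false

namespace Pool.Agent.TH299.GO

open MeasureTheory ProbabilityTheory Filter Topology Set
open Pool.Agent.W263.BSD
open Pool.Agent.H409R2.MZ.PNT (mm MM laplace_mm measurable_mm abs_mm_le)

noncomputable def ab (s δ v : ℝ) : ℝ := max (s * gg δ v) 0 * Real.exp (v / 2)

lemma ab_nn (s δ v : ℝ) : 0 ≤ ab s δ v := mul_nonneg (le_max_right _ _) (Real.exp_pos _).le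

lemma ab_eq (s : ℝ) {δ v : ℝ} (hδ : 0 < δ) (hv : 0 < v) :
    ab s δ v = max (s * (MS (Real.exp δ * Real.exp v) - MS (Real.exp v))) 0 * Real.exp (-(v / 2)) := by
  unfold ab
  rw [gg_eq hδ hv]
  have h0 : Real.exp δ * Real.exp v = Real.exp (v + δ) := by rw [← Real.exp_add, add_comm]
  rw [h0]
  have h2 : max (s * ((MS (Real.exp (v + δ)) - MS (Real.exp v)) * Real.exp (-v))) 0 =
      Real.exp (-v) * max (s * (MS (Real.exp (v + δ)) - MS (Real.exp v))) 0 := by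
    rw [mul_max_of_nonneg _ _ (Real.exp_pos _).le, mul_zero]
    congr 1
    ring
  rw [h2]
  have h3 : Real.exp (-v) * Real.exp (v / 2) = Real.exp (-(v / 2)) := by
    rw [← Real.exp_add]; congr 1; ring
  rw [← h3]
  ring

lemma subst2 (s : ℝ) {δ V : ℝ} (hδ : 0 < δ) (hV : 0 ≤ V) :
    ∫ u in (1:ℝ)..Real.exp V, max (s * (MS (Real.exp δ * u) - MS u)) 0 / u ^ (3 / 2 : ℝ) =
      ∫ v in (0:ℝ)..V, ab s δ v := by
  rw [intervalIntegral.integral_of_le (Real.one_le_exp hV), intervalIntegral.integral_of_le hV]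
  have himg : Real.exp '' (Ioc (0 : ℝ) V) = Ioc (1 : ℝ) (Real.exp V) := by
    ext y
    constructor
    · rintro ⟨x, hx, rfl⟩
      exact ⟨Real.one_lt_exp_iff.mpr hx.1, Real.exp_le_exp.mpr hx.2⟩
    · intro hy
      have hy0 : 0 < y := by linarith [hy.1]
      exact ⟨Real.log y, ⟨Real.log_pos hy.1, (Real.log_le_iff_le_exp hy0).mpr hy.2⟩, Real.exp_log hy0⟩
  rw [← himg]
  rw [integral_image_eq_integral_abs_deriv_smul measurableSet_Ioc
    (fun x _ => (Real.hasDerivAt_exp x).hasDerivWithinAt) (Real.exp_injective.injOn)]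
  apply setIntegral_congr_fun measurableSet_Ioc
  intro v hv
  simp only
  rw [ab_eq s hδ hv.1, abs_of_pos (Real.exp_pos v), smul_eq_mul]
  have h1 : (Real.exp v) ^ (3 / 2 : ℝ) = Real.exp (v * (3 / 2)) := by
    rw [← Real.exp_mul]
  rw [h1]
  have h2 : Real.exp v / Real.exp (v * (3 / 2)) = Real.exp (-(v / 2)) := by
    rw [← Real.exp_sub]; congr 1; ring
  rw [← h2]
  ring

lemma ab_ii (s δ V : ℝ) : IntervalIntegrable (ab s δ) volume 0 V := by
  have h : IntervalIntegrable (fun v => max (s * gg δ v) 0) volume 0 V := by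
    refine (intervalIntegrable_const (c := |s| * (Real.exp δ + 1))).mono_fun
      (((gg_meas δ).const_mul s).max measurable_const).aestronglyMeasurable (ae_of_all _ fun u => ?_)
    show ‖max (s * gg δ u) 0‖ ≤ ‖|s| * (Real.exp δ + 1)‖
    rw [Real.norm_of_nonneg (le_max_right _ _), Real.norm_of_nonneg (by positivity)]
    apply max_le _ (by positivity)
    calc s * gg δ u ≤ |s * gg δ u| := le_abs_self _
      _ = |s| * |gg δ u| := abs_mul _ _
      _ ≤ _ := mul_le_mul_of_nonneg_left (gg_bd δ u) (abs_nonneg s)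
  exact h.mul_continuousOn (by fun_prop)

/-- **the hypothesis**: the one-sided logarithmic mean of `(M(e^δ x) - M(x))/√x` is `O(δ^θ (log x)^κ)`,
uniformly in `δ` -/
def Hyp2 (s θ κ : ℝ) : Prop := ∃ C : ℝ, ∀ δ : ℝ, 0 < δ → δ ≤ 1 / 2 → ∀ x : ℝ, 1 ≤ x →
  ∫ u in (1:ℝ)..x, max (s * (MS (Real.exp δ * u) - MS u)) 0 / u ^ (3 / 2 : ℝ) ≤
    C * δ ^ θ * (1 + Real.log x) ^ (1 + κ)

/-- **first consequence** -/
theorem first2 {s θ κ : ℝ} (hs : s = 1 ∨ s = -1) (hθ : 0 ≤ θ) (hθ1 : θ ≤ 1) (hκ : 0 ≤ κ) (hκ1 : κ ≤ 1)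
    (h : Hyp2 s θ κ) :
    (∀ w : ℂ, 1 / 2 < w.re → riemannZeta w ≠ 0) ∧
    ∃ c : ℝ, 0 < c ∧ ∀ η t : ℝ, 0 < η → η ≤ 1 / 2 → t ≠ 0 →
      c * η ^ (1 + κ) ≤ (1 + |t|) ^ (1 - θ) * ‖riemannZeta (1 / 2 + η + t * Complex.I)‖ := by
  obtain ⟨C, hC⟩ := h
  have hA : ∀ δ : ℝ, 0 < δ → δ ≤ 1 / 2 → ∀ V : ℝ, 0 ≤ V →
      ∫ v in (0:ℝ)..V, ab s δ v ≤ (|C| * δ ^ θ) * (1 + V) ^ (1 + κ) := by
    intro δ hδ hδ1 V hV
    have h1 := hC δ hδ hδ1 (Real.exp V) (Real.one_le_exp hV)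
    rw [subst2 s hδ hV, Real.log_exp] at h1
    refine h1.trans ?_
    apply mul_le_mul_of_nonneg_right _ (by positivity)
    exact mul_le_mul_of_nonneg_right (le_abs_self _) (by positivity)
  have hD := fun (δ : ℝ) (hδ : 0 < δ) (hδ1 : δ ≤ 1 / 2) =>
    laplace_bound' (ab_nn s δ) (fun V _ => ab_ii s δ V) hκ hκ1 (by positivity) (hA δ hδ hδ1)
  have e : ∀ δ η u : ℝ, ab s δ u * Real.exp (-(η * u)) = max (s * gg δ u) 0 * Real.exp (-((-(1/2) + η) * u)) := by
    intro δ η u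
    unfold ab
    rw [mul_assoc, ← Real.exp_add]
    congr 2
    ring
  refine lower2 hs hθ hθ1 hκ (C := |C| * Sc) ?_ ?_
  · intro δ hδ hδ1 w hw
    have hη : 0 < min (w + 1 / 2) 1 := lt_min (by have : -(1/2:ℝ) < w := hw; linarith) one_pos
    have h1 := (hD δ hδ hδ1 _ hη (min_le_right _ _)).1
    have h2 : LInt (fun u => max (s * gg δ u) 0) (-(1/2) + min (w + 1 / 2) 1) := by
      unfold LInt
      refine h1.congr_fun (fun u _ => ?_) measurableSet_Ioi
      exact e _ _ u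
    exact h2.mono (((gg_meas δ).const_mul s).max measurable_const)
      (by have := min_le_left (w + 1 / 2) 1; linarith)
  · intro δ hδ hδ1 η hη hη2
    have h1 := (hD δ hδ hδ1 η hη (by linarith)).2
    unfold lap
    calc _ = ∫ u in Ioi (0:ℝ), ab s δ u * Real.exp (-(η * u)) := by
          congr 1
          funext u
          exact (e δ η u).symm
      _ ≤ |C| * δ ^ θ * Sc * η ^ (-(1 + κ)) := h1
      _ = _ := by ring

end Pool.Agent.TH299.GO
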