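import Mathlib
import Pool.Agent.TH804.SB7

/-! The Riemann hypothesis bounds zeta in small discs about points of the critical line. -/

set_option autoImplicit false

namespace Pool.Agent.TH299.GO

open Complex Filter Topology Metric Set Polynomial
open Pool.Agent.TH804.SB
open Pool.Agent.TH804.SP (PZ)

/-- the zero-free half plane gives the zeros on the line -/
lemma re_half (hRH : ∀ w : ℂ, 1 / 2 < w.re → riemannZeta w ≠ 0) {z : ℂ} (h0 : 0 < z.re) (h1 : z.re < 1)
    (hz : riemannZeta z = 0) : z.re = 1 / 2 := by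
  rcases lt_trichotomy z.re (1 / 2) with h | h | h
  · exfalso
    have h2 := riemannZeta_one_sub (s := z) (fun n hn => by
      rw [hn] at h0
      simp at h0
      have : (0:ℝ) ≤ n := Nat.cast_nonneg n
      linarith) (by
      intro hn
      rw [hn] at h1
      simp at h1)
    rw [hz, mul_zero] at h2
    exact hRH (1 - z) (by rw [Complex.sub_re, Complex.one_re]; linarith) h2
  · exact h
  · exact absurd hz (hRH z h)

theorem lh (hRH : ∀ w : ℂ, 1 / 2 < w.re → riemannZeta w ≠ 0) : LH := by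
  rw [LH_iff (P := (1 : ℂ[X])) one_ne_zero 0]
  intro δ hδ ε hε
  refine ⟨1, fun T hT => ?_⟩
  intro S hS
  have hemp : S = ∅ := by
    rw [Finset.eq_empty_iff_forall_notMem]
    intro z hz
    obtain ⟨h1, h2, h3, h4⟩ := hS z hz
    have e : PZ 1 z = riemannZeta z := by
      unfold PZ
      rw [← Polynomial.C_1, Polynomial.sum_C_index]
      · simp
      · simp
    rw [e] at h4
    have h5 := re_half hRH h1 (by linarith) h4
    linarith
  rw [hemp, Finset.sum_empty]
  exact mul_nonneg hε.le (Real.log_nonneg hT)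

/-- **local upper bound** -/
theorem local_upper (hRH : ∀ w : ℂ, 1 / 2 < w.re → riemannZeta w ≠ 0) {ε : ℝ} (hε : 0 < ε) (hε1 : ε ≤ 1) :
    ∃ r T₁ : ℝ, 0 < r ∧ r ≤ 1 / 4 ∧ 8 ≤ T₁ ∧ ∀ T : ℝ, T₁ ≤ T → ∀ z : ℂ, ‖z‖ ≤ r →
      ‖riemannZeta (1 / 2 + T * I + z)‖ ≤ T ^ ε := by
  obtain ⟨η, V, hη, hηε, hV, hup⟩ := left_upper (ε := ε / 4) (B := 5) (by positivity) (by linarith) (by norm_num)
  obtain ⟨T0, hT0, hLG⟩ := zT_LG (η := η) (W := V + 1) hη (by linarith)
  obtain ⟨C, hC⟩ := lh hRH (η / 2) (by positivity)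
  obtain ⟨K, hK, hleft⟩ := zeta_left
  have hev1 := (tendsto_rpow_atTop (by positivity : 0 < η / 2)).eventually_ge_atTop (|C| * 2 ^ (η / 2))
  have hev2 := (tendsto_rpow_atTop (by positivity : 0 < ε / 2)).eventually_ge_atTop (Real.exp K)
  obtain ⟨T2, hT2⟩ := eventually_atTop.mp (hev1.and hev2)
  refine ⟨ε / 4, max (max T0 T2) (V + 8), by positivity, by linarith,
    by have := le_max_right (max T0 T2) (V + 8); linarith, fun T hT z hz => ?_⟩
  have hTT0 : T0 ≤ T := (le_max_left _ _).trans ((le_max_left _ _).trans hT)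
  have hTT2 : T2 ≤ T := (le_max_right _ _).trans ((le_max_left _ _).trans hT)
  have hTV : V + 8 ≤ T := (le_max_right _ _).trans hT
  have hT0' : 0 < T := by linarith
  obtain ⟨hb1, hb2⟩ := hT2 T hTT2
  have habs : |T| = T := abs_of_pos hT0'
  have hlog : 0 ≤ Real.log |T| := by rw [habs]; exact Real.log_nonneg (by linarith)
  have hcrit : ∀ y : ℝ, |y| ≤ V + 1 → ‖zT T (y * I)‖ ≤ Real.exp (η * Real.log |T|) := by
    intro y hy
    have hy' := abs_le.mp hy
    have e : zT T (y * I) = riemannZeta (1 / 2 + ((T + y : ℝ) : ℂ) * I) := by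
      unfold zT
      congr 1
      push_cast
      ring
    rw [e]
    have h1 : 1 ≤ |T + y| := by
      rw [abs_of_pos (by linarith)]
      linarith
    have h2 : |T + y| ≤ 2 * T := by
      rw [abs_of_pos (by linarith)]
      linarith
    calc _ ≤ C * |T + y| ^ (η / 2) := hC _ h1
      _ ≤ |C| * (2 * T) ^ (η / 2) := by
          apply mul_le_mul (le_abs_self _) (Real.rpow_le_rpow (abs_nonneg _) h2 (by positivity))
            (by positivity) (abs_nonneg _)
      _ = (|C| * 2 ^ (η / 2)) * T ^ (η / 2) := by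
          rw [Real.mul_rpow (by norm_num) hT0'.le]; ring
      _ ≤ T ^ (η / 2) * T ^ (η / 2) := mul_le_mul_of_nonneg_right hb1 (by positivity)
      _ = T ^ η := by rw [← Real.rpow_add hT0']; congr 1; ring
      _ = _ := by rw [habs, Real.rpow_def_of_pos hT0', mul_comm]
  have hmain := hup (zT T) (V + 1) (Real.log |T|) hlog (hLG T (by rw [habs]; exact hTT0)) hcrit
  have hre := (Complex.abs_re_le_norm z).trans hz
  have him := (Complex.abs_im_le_norm z).trans hz
  have hre' := abs_le.mp hre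
  have key : ∀ w : ℂ, -(ε / 4) ≤ w.re → w.re ≤ 0 → |w.im| ≤ 1 →
      ‖riemannZeta (1 / 2 + T * I + w)‖ ≤ T ^ (ε / 2) := by
    intro w h1 h2 h3
    have h4 := hmain w (by linarith) h2 (by linarith)
    refine h4.trans ?_
    rw [habs, Real.rpow_def_of_pos hT0']
    apply Real.exp_le_exp.mpr
    rw [mul_comm]
    apply mul_le_mul_of_nonneg_left (by linarith) (by rw [← habs]; exact hlog)
  have hpw : T ^ (ε / 2) * T ^ (ε / 2) = T ^ ε := by rw [← Real.rpow_add hT0']; congr 1; ring
  have hp0 : 0 < T ^ (ε / 2) := by positivity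
  have hp1 : 1 ≤ T ^ (ε / 2) := Real.one_le_rpow (by linarith) (by positivity)
  rcases le_total z.re 0 with h | h
  · refine (key z (by linarith) h (by linarith)).trans ?_
    rw [← hpw]
    exact le_mul_of_one_le_left hp0.le hp1
  · set w : ℂ := 1 / 2 + T * I + z with hw
    have hwre : w.re = 1 / 2 + z.re := by rw [hw]; simp
    have hwim : w.im = T + z.im := by rw [hw]; simp
    have him' := abs_le.mp him
    have habsw : 1 ≤ |w.im| := by
      rw [hwim, abs_of_pos (by linarith)]
      linarith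
    obtain ⟨h5, _⟩ := hleft w (by rw [hwre]; linarith) (by rw [hwre]; linarith) habsw
    have h6 : ‖riemannZeta (1 - w)‖ ≤ T ^ (ε / 2) := by
      have e : (starRingEnd ℂ) (1 - w) = 1 / 2 + T * I + (⟨-z.re, z.im⟩ : ℂ) := by
        apply Complex.ext
        · rw [Complex.conj_re, Complex.sub_re, hwre]
          simp
          ring
        · rw [Complex.conj_im, Complex.sub_im, hwim]
          simp
      rw [← Pool.Agent.TH804.SP.norm_zeta_conj, e]
      exact key _ (by simp; linarith) (by simpa using h) (by simpa using (by linarith : |z.im| ≤ 1))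
    have h7 : 1 ≤ |w.im| ^ (w.re - 1 / 2) := Real.one_le_rpow habsw (by rw [hwre]; linarith)
    have h8 : Real.exp (-K) * ‖riemannZeta w‖ ≤ T ^ (ε / 2) := by
      calc Real.exp (-K) * ‖riemannZeta w‖ ≤ Real.exp (-K) * |w.im| ^ (w.re - 1 / 2) * ‖riemannZeta w‖ := by
            apply mul_le_mul_of_nonneg_right _ (norm_nonneg _)
            exact le_mul_of_one_le_right (Real.exp_pos _).le h7
        _ ≤ _ := h5.trans h6
    have h9 : ‖riemannZeta w‖ ≤ Real.exp K * T ^ (ε / 2) := by
      have h10 : Real.exp K * (Real.exp (-K) * ‖riemannZeta w‖) = ‖riemannZeta w‖ := by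
        rw [← mul_assoc, ← Real.exp_add]; simp
      rw [← h10]
      exact mul_le_mul_of_nonneg_left h8 (Real.exp_pos _).le
    calc _ ≤ Real.exp K * T ^ (ε / 2) := h9
      _ ≤ T ^ (ε / 2) * T ^ (ε / 2) := mul_le_mul_of_nonneg_right hb2 hp0.le
      _ = _ := hpw

end Pool.Agent.TH299.GO
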