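import Mathlib
import Pool.Agent.TH299.GO.A3
import Pool.Agent.TH299.GO.B1

/-! Two close zeros make zeta small nearby. -/

set_option autoImplicit false

namespace Pool.Agent.TH299.GO

open Complex Filter Topology Metric Set

/-- Schwarz lemma with two zeros -/
theorem two_zeros {F : ℂ → ℂ} {r R M δ : ℝ} (hr : 0 < r) (hrR : r < R) (hF : DifferentiableOn ℂ F (ball 0 R))
    (hM : ∀ z : ℂ, ‖z‖ ≤ r → ‖F z‖ ≤ M) (h0 : F 0 = 0) (hδ : 0 ≤ δ) (hδr : δ ≤ r / 2)
    (h1 : dslope F 0 (δ * I) = 0) {η : ℝ} (hη : 0 < η) (hηr : η ≤ r / 2) (hδη : δ ≤ η) :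
    ‖F η‖ ≤ 4 * M / r ^ 2 * η ^ 2 := by
  have hM0 : 0 ≤ M := (norm_nonneg _).trans (hM 0 (by simpa using hr.le))
  have hR : 0 < R := by linarith
  set a : ℂ := δ * I with ha
  have han : ‖a‖ = δ := by rw [ha, norm_mul, Complex.norm_I, mul_one, Complex.norm_real, Real.norm_of_nonneg hδ]
  have haR : a ∈ ball (0:ℂ) R := by rw [mem_ball_zero_iff, han]; linarith
  have hF1 : DifferentiableOn ℂ (dslope F 0) (ball 0 R) :=
    (Complex.differentiableOn_dslope (ball_mem_nhds 0 hR)).mpr hF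
  have hF2 : DifferentiableOn ℂ (dslope (dslope F 0) a) (ball 0 R) :=
    (Complex.differentiableOn_dslope (isOpen_ball.mem_nhds haR)).mpr hF1
  have hfac : ∀ z : ℂ, F z = z * ((z - a) * dslope (dslope F 0) a z) := by
    intro z
    have e1 := sub_smul_dslope F 0 z
    have e2 := sub_smul_dslope (dslope F 0) a z
    rw [h0, sub_zero, sub_zero, smul_eq_mul] at e1
    rw [h1, sub_zero, smul_eq_mul] at e2
    rw [e2, e1]
  have hsph : ∀ z : ℂ, ‖z‖ = r → ‖dslope (dslope F 0) a z‖ ≤ 2 * M / r ^ 2 := by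
    intro z hz
    have h3 := hM z hz.le
    rw [hfac z, norm_mul, norm_mul, hz] at h3
    have h4 : r / 2 ≤ ‖z - a‖ := by
      have := norm_sub_norm_le z a
      rw [hz, han] at this
      linarith
    rw [le_div_iff₀ (by positivity)]
    have h5 : 0 ≤ ‖dslope (dslope F 0) a z‖ := norm_nonneg _
    have h6 : r * (r / 2 * ‖dslope (dslope F 0) a z‖) ≤ M :=
      le_trans (mul_le_mul_of_nonneg_left (mul_le_mul_of_nonneg_right h4 h5) hr.le) h3
    nlinarith
  have hmax : ‖dslope (dslope F 0) a (η:ℂ)‖ ≤ 2 * M / r ^ 2 := by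
    refine Complex.norm_le_of_forall_mem_frontier_norm_le (U := ball (0:ℂ) r) isBounded_ball ?_ ?_ ?_
    · apply DifferentiableOn.diffContOnCl
      rw [closure_ball _ hr.ne']
      exact hF2.mono (closedBall_subset_ball hrR)
    · intro z hz
      rw [frontier_ball _ hr.ne', mem_sphere_zero_iff_norm] at hz
      exact hsph z hz
    · rw [closure_ball _ hr.ne', mem_closedBall_zero_iff, Complex.norm_real, Real.norm_of_nonneg hη.le]
      linarith
  have hηa : ‖(η:ℂ) - a‖ ≤ 2 * η := by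
    refine (norm_sub_le _ _).trans ?_
    rw [han, Complex.norm_real, Real.norm_of_nonneg hη.le]
    linarith
  rw [hfac, norm_mul, norm_mul, Complex.norm_real, Real.norm_of_nonneg hη.le]
  calc η * (‖(η:ℂ) - a‖ * ‖dslope (dslope F 0) a (η:ℂ)‖) ≤ η * (2 * η * (2 * M / r ^ 2)) := by
        apply mul_le_mul_of_nonneg_left _ hη.le
        exact mul_le_mul hηa hmax (norm_nonneg _) (by positivity)
    _ = _ := by ring

/-- the two zeros (or the double zero) at height `T`, at distance `δ` -/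
def Pair (T δ : ℝ) : Prop := riemannZeta (1 / 2 + T * I) = 0 ∧
  (0 < δ → riemannZeta (1 / 2 + ((T + δ : ℝ) : ℂ) * I) = 0) ∧
  (δ = 0 → deriv riemannZeta (1 / 2 + T * I) = 0)

lemma zeta_diff {T : ℝ} (hT : 1 ≤ T) : DifferentiableOn ℂ (fun z : ℂ => riemannZeta (1 / 2 + T * I + z)) (ball 0 (1 / 2)) := by
  intro z hz
  have h1 : (1 / 2 + T * I + z : ℂ) ≠ 1 := by
    intro h
    have h2 := congrArg Complex.im h
    simp at h2
    rw [mem_ball_zero_iff] at hz
    have h3 := (Complex.abs_im_le_norm z).trans_lt hz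
    have := abs_lt.mp h3
    linarith
  have h2 := differentiableAt_riemannZeta h1
  exact (h2.comp z ((differentiableAt_const _).add differentiableAt_id)).differentiableWithinAt

lemma pair_dslope {T δ : ℝ} (hδ0 : 0 ≤ δ) (h : Pair T δ) :
    dslope (fun z : ℂ => riemannZeta (1 / 2 + T * I + z)) 0 (δ * I) = 0 := by
  obtain ⟨h1, h2, h3⟩ := h
  rcases hδ0.eq_or_lt with hδ | hδ
  · rw [← hδ, Complex.ofReal_zero, zero_mul, dslope_same]
    have h4 := h3 hδ.symm
    have h5 : deriv (fun z : ℂ => riemannZeta (1 / 2 + T * I + z)) 0 = deriv riemannZeta (1 / 2 + T * I + 0) :=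
      deriv_comp_const_add _ _ _
    rw [h5, add_zero, h4]
  · have hne : (δ * I : ℂ) ≠ 0 := mul_ne_zero (by exact_mod_cast hδ.ne') Complex.I_ne_zero
    have h4 : riemannZeta (1 / 2 + T * I + δ * I) = 0 := by
      rw [← h2 hδ]
      congr 1
      push_cast
      ring
    rw [dslope_of_ne _ hne, slope_def_field]
    simp only [add_zero]
    rw [h4, h1]
    simp

/-- the lower bound, packaged -/
def Low (A κ c : ℝ) : Prop := ∀ η t : ℝ, 0 < η → η ≤ 1 / 2 → t ≠ 0 →
      c * η ^ (1 + κ) ≤ (1 + |t|) ^ A * ‖riemannZeta (1 / 2 + η + t * Complex.I)‖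

/-- **the gap between two zeros** -/
theorem gap {A κ c : ℝ} (hA0 : 0 ≤ A) (hA1 : A ≤ 1) (hκ1 : κ < 1) (hc : 0 < c) (hlow : Low A κ c)
    (hRH : ∀ w : ℂ, 1 / 2 < w.re → riemannZeta w ≠ 0) {ε : ℝ} (hε : 0 < ε) (hε1 : ε ≤ 1) :
    ∃ c0 T₁ : ℝ, 0 < c0 ∧ 1 ≤ T₁ ∧ ∀ T δ : ℝ, T₁ ≤ T → 0 ≤ δ → Pair T δ →
      0 < δ ∧ c0 ≤ δ ^ (1 - κ) * T ^ (A + ε) := by
  obtain ⟨r, T₁, hr, hr4, hT1, hup⟩ := local_upper hRH hε hε1
  set d : ℝ := c * r ^ 2 / 8 with hd
  have hd0 : 0 < d := by positivity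
  have hκ' : 0 < 1 - κ := by linarith
  have hr20 : 0 < r / 2 := by positivity
  refine ⟨min d ((r / 2) ^ (1 - κ)), T₁, lt_min hd0 (by positivity), by linarith, fun T δ hT hδ hP => ?_⟩
  have hT0 : 0 < T := by linarith
  have hTe : 1 ≤ T ^ (A + ε) := Real.one_le_rpow (by linarith) (by linarith)
  have hTe0 : 0 < T ^ (A + ε) := by positivity
  -- the main estimate
  have main : δ ≤ r / 2 → ∀ η : ℝ, 0 < η → η ≤ r / 2 → δ ≤ η → d ≤ η ^ (1 - κ) * T ^ (A + ε) := by
    intro hδr η hη hηr hδη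
    have h1 := two_zeros (R := 1 / 2) hr (by linarith) (zeta_diff (by linarith : (1:ℝ) ≤ T)) (hup T hT)
      (by simp only [add_zero]; exact hP.1) hδ hδr (pair_dslope hδ hP) hη hηr hδη
    have h2 := hlow η T hη (by linarith) hT0.ne'
    have e : (1 / 2 + T * I + (η:ℂ)) = 1 / 2 + η + T * I := by ring
    simp only [e] at h1
    rw [abs_of_pos hT0] at h2
    have h2T : (1 + T) ^ A ≤ 2 * T ^ A := by
      calc (1 + T) ^ A ≤ (2 * T) ^ A := Real.rpow_le_rpow (by linarith) (by linarith) hA0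
        _ = 2 ^ A * T ^ A := Real.mul_rpow (by norm_num) hT0.le
        _ ≤ 2 ^ (1:ℝ) * T ^ A := by
            apply mul_le_mul_of_nonneg_right _ (by positivity)
            exact Real.rpow_le_rpow_of_exponent_le (by norm_num) hA1
        _ = _ := by rw [Real.rpow_one]
    have h3 : c * η ^ (1 + κ) ≤ (2 * T ^ A) * (4 * T ^ ε / r ^ 2 * η ^ 2) := by
      refine h2.trans ?_
      apply mul_le_mul h2T h1 (norm_nonneg _) (by positivity)
    have h4 : η ^ (1 + κ) * η ^ (1 - κ) = η ^ 2 := by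
      rw [← Real.rpow_add hη, ← Real.rpow_two]
      congr 1
      ring
    have h5 : 0 < η ^ (1 + κ) := by positivity
    have h6 : T ^ A * T ^ ε = T ^ (A + ε) := by
      rw [Real.rpow_add hT0]
    rw [← h4] at h3
    have h7 : c * η ^ (1 + κ) ≤ (8 / r ^ 2 * (T ^ (A + ε) * η ^ (1 - κ))) * η ^ (1 + κ) := by
      refine h3.trans (le_of_eq ?_)
      rw [← h6]
      ring
    have h8 := le_of_mul_le_mul_right h7 h5
    rw [hd, div_le_iff₀ (by norm_num : (0:ℝ) < 8)]
    have h9 : c * r ^ 2 ≤ (8 / r ^ 2 * (T ^ (A + ε) * η ^ (1 - κ))) * r ^ 2 :=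
      mul_le_mul_of_nonneg_right h8 (by positivity)
    refine h9.trans (le_of_eq ?_)
    field_simp
  have hpos : 0 < δ := by
    rcases hδ.eq_or_lt with h0 | h0
    · exfalso
      set x : ℝ := d / (2 * T ^ (A + ε)) with hx
      have hx0 : 0 < x := by positivity
      set η : ℝ := min (r / 2) (x ^ (1 / (1 - κ))) with hη
      have hη0 : 0 < η := lt_min hr20 (by positivity)
      have h1 := main (by rw [← h0]; exact hr20.le) η hη0 (min_le_left _ _) (by rw [← h0]; exact hη0.le)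
      have h2 : η ^ (1 - κ) ≤ x := by
        calc η ^ (1 - κ) ≤ (x ^ (1 / (1 - κ))) ^ (1 - κ) :=
              Real.rpow_le_rpow hη0.le (min_le_right _ _) hκ'.le
          _ = x := by rw [← Real.rpow_mul hx0.le, one_div, inv_mul_cancel₀ hκ'.ne', Real.rpow_one]
      have h3 : d ≤ x * T ^ (A + ε) := h1.trans (mul_le_mul_of_nonneg_right h2 hTe0.le)
      have h4 : x * T ^ (A + ε) = d / 2 := by rw [hx]; field_simp
      rw [h4] at h3
      linarith
    · exact h0
  refine ⟨hpos, ?_⟩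
  rcases le_total δ (r / 2) with h | h
  · exact (min_le_left _ _).trans (main h δ hpos h le_rfl)
  · refine (min_le_right _ _).trans ?_
    calc (r / 2) ^ (1 - κ) ≤ δ ^ (1 - κ) := Real.rpow_le_rpow hr20.le h hκ'.le
      _ ≤ δ ^ (1 - κ) * T ^ (A + ε) := le_mul_of_one_le_right (by positivity) hTe

/-- zeros are simple -/
theorem simple {A κ c : ℝ} (hκ1 : κ < 1) (hc : 0 < c) (hlow : Low A κ c) {t : ℝ} (ht : t ≠ 0)
    (hz : riemannZeta (1 / 2 + t * I) = 0) : deriv riemannZeta (1 / 2 + t * I) ≠ 0 := by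
  intro hd
  set ρ : ℂ := 1 / 2 + t * I with hρ
  have hρ1 : ρ ≠ 1 := by
    intro h
    have h2 := congrArg Complex.im h
    rw [hρ] at h2
    simp at h2
    exact ht h2
  set F : ℂ → ℂ := fun z => riemannZeta (ρ + z) with hF
  have hF0 : F 0 = 0 := by rw [hF]; simp only [add_zero]; exact hz
  have hopen : IsOpen {z : ℂ | ρ + z ≠ 1} := isOpen_ne_fun (by fun_prop) continuous_const
  have h0m : (0:ℂ) ∈ {z : ℂ | ρ + z ≠ 1} := by simpa using hρ1
  have hdiff : DifferentiableOn ℂ F {z : ℂ | ρ + z ≠ 1} := by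
    intro z hz
    have h2 := differentiableAt_riemannZeta (s := ρ + z) hz
    exact (h2.comp z ((differentiableAt_const _).add differentiableAt_id)).differentiableWithinAt
  have hd1 := (Complex.differentiableOn_dslope (hopen.mem_nhds h0m)).mpr hdiff
  have hd2 := (Complex.differentiableOn_dslope (hopen.mem_nhds h0m)).mpr hd1
  have hs0 : dslope F 0 0 = 0 := by
    rw [dslope_same]
    have h5 : deriv F 0 = deriv riemannZeta (ρ + 0) := deriv_comp_const_add _ _ _
    rw [h5, add_zero]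
    exact hd
  have hfac : ∀ z : ℂ, F z = z ^ 2 * dslope (dslope F 0) 0 z := by
    intro z
    have e1 := sub_smul_dslope F 0 z
    have e2 := sub_smul_dslope (dslope F 0) 0 z
    rw [hF0, sub_zero, sub_zero, smul_eq_mul] at e1
    rw [hs0, sub_zero, sub_zero, smul_eq_mul] at e2
    rw [← e1, ← e2]
    ring
  have hcont : ContinuousAt (dslope (dslope F 0) 0) 0 :=
    (hd2.continuousOn.continuousAt (hopen.mem_nhds h0m))
  have hη : Tendsto (fun η : ℝ => (η : ℂ)) (𝓝[>] 0) (𝓝 0) := by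
    have : Tendsto (fun η : ℝ => (η : ℂ)) (𝓝 0) (𝓝 ((0:ℝ):ℂ)) := Complex.continuous_ofReal.tendsto 0
    exact (this.mono_left nhdsWithin_le_nhds)
  have h1 : Tendsto (fun η : ℝ => ‖dslope (dslope F 0) 0 (η:ℂ)‖) (𝓝[>] 0) (𝓝 ‖dslope (dslope F 0) 0 0‖) :=
    ((hcont.tendsto).comp hη).norm
  have h2 : Tendsto (fun η : ℝ => (1 + |t|) ^ A * (η ^ (1 - κ) * ‖dslope (dslope F 0) 0 (η:ℂ)‖)) (𝓝[>] 0)
      (𝓝 ((1 + |t|) ^ A * (0 * ‖dslope (dslope F 0) 0 0‖))) := by
    apply Tendsto.const_mul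
    refine Tendsto.mul ?_ h1
    have h3 : Tendsto (fun η : ℝ => η ^ (1 - κ)) (𝓝 0) (𝓝 ((0:ℝ) ^ (1 - κ))) :=
      (Real.continuousAt_rpow_const _ _ (Or.inr (by linarith))).tendsto
    rw [Real.zero_rpow (by linarith : (1 - κ) ≠ 0)] at h3
    exact h3.mono_left nhdsWithin_le_nhds
  rw [zero_mul, mul_zero] at h2
  have h3 : ∀ᶠ η : ℝ in 𝓝[>] 0, c ≤ (1 + |t|) ^ A * (η ^ (1 - κ) * ‖dslope (dslope F 0) 0 (η:ℂ)‖) := by
    have hev : ∀ᶠ η : ℝ in 𝓝[>] 0, η ∈ Ioo (0:ℝ) (1 / 2) := Ioo_mem_nhdsGT (by norm_num)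
    filter_upwards [hev] with η hη'
    have h4 := hlow η t hη'.1 hη'.2.le ht
    have e : (1 / 2 + η + t * I : ℂ) = ρ + η := by rw [hρ]; ring
    rw [e] at h4
    have h5 : riemannZeta (ρ + η) = F η := rfl
    rw [h5, hfac, norm_mul, norm_pow, Complex.norm_real, Real.norm_of_nonneg hη'.1.le] at h4
    have h6 : η ^ (1 + κ) * η ^ (1 - κ) = η ^ 2 := by
      rw [← Real.rpow_add hη'.1, ← Real.rpow_two]
      congr 1
      ring
    rw [← h6] at h4
    have h7 : 0 < η ^ (1 + κ) := Real.rpow_pos_of_pos hη'.1 _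
    have h8 : c * η ^ (1 + κ) ≤ ((1 + |t|) ^ A * (η ^ (1 - κ) * ‖dslope (dslope F 0) 0 (η:ℂ)‖)) * η ^ (1 + κ) := by
      refine h4.trans (le_of_eq ?_)
      ring
    exact le_of_mul_le_mul_right h8 h7
  have := ge_of_tendsto h2 h3
  linarith

end Pool.Agent.TH299.GO
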