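import Mathlib
import Pool.Agent.TH299.GO.B2
import Pool.Agent.H382P.PosProp

/-! The ordinates and the exponent `α`. -/

set_option autoImplicit false

namespace Pool.Agent.TH299.GO

open Complex Filter Topology Metric Set
open SG (ord NZ zmult)

lemma zmult_one {s : ℂ} (hs : s ≠ 1) (h0 : riemannZeta s = 0) (h1 : deriv riemannZeta s ≠ 0) : zmult s = 1 := by
  have ha := SG.zeta_an hs
  have h2 := ha.analyticOrderAt_deriv_add_one
  have h3 : (fun z => riemannZeta z - riemannZeta s) = riemannZeta := by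
    funext z; rw [h0, sub_zero]
  rw [h3, ha.deriv.analyticOrderAt_eq_zero.mpr h1] at h2
  unfold SG.zmult analyticOrderNatAt
  rw [← h2]
  rfl

/-- nontrivial zeros with the ordinate `t` -/
def At (t : ℝ) : Set ℂ := {s : ℂ | riemannZeta s = 0 ∧ 0 < s.re ∧ s.re < 1 ∧ s.im = t}

lemma at_sub (hRH : ∀ w : ℂ, 1 / 2 < w.re → riemannZeta w ≠ 0) (t : ℝ) {s : ℂ} (hs : s ∈ At t) :
    s = 1 / 2 + t * I := by
  obtain ⟨h1, h2, h3, h4⟩ := hs
  have h5 := re_half hRH h2 h3 h1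
  apply Complex.ext
  · rw [h5]; simp
  · rw [h4]; simp

lemma ordset_fin (t : ℝ) : {n : ℕ | 1 ≤ n ∧ ord n = t}.Finite := by
  refine (Set.finite_Iic (NZ t)).subset ?_
  rintro n ⟨h1, h2⟩
  exact (SG.ord_le_iff h1 t).mp h2.le

lemma ord_zero (hRH : ∀ w : ℂ, 1 / 2 < w.re → riemannZeta w ≠ 0) {n : ℕ} (hn : 1 ≤ n) :
    riemannZeta (1 / 2 + (ord n : ℝ) * I) = 0 := by
  have h1 := SG.ord_count (ord n) (SG.ord_pos hn)
  have h2 : 0 < {k : ℕ | 1 ≤ k ∧ ord k = ord n}.ncard :=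
    (Set.ncard_pos (ordset_fin _)).mpr ⟨n, hn, rfl⟩
  rw [h1] at h2
  have h3 : (At (ord n)).Nonempty := by
    by_contra h
    rw [Set.not_nonempty_iff_eq_empty] at h
    unfold At at h
    rw [h, finsum_mem_empty] at h2
    exact lt_irrefl _ h2
  obtain ⟨s, hs⟩ := h3
  rw [← at_sub hRH _ hs]
  exact hs.1

lemma ord_double (hRH : ∀ w : ℂ, 1 / 2 < w.re → riemannZeta w ≠ 0) {n : ℕ} (hn : 1 ≤ n)
    (h : ord (n + 1) = ord n) : deriv riemannZeta (1 / 2 + (ord n : ℝ) * I) = 0 := by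
  by_contra hd
  have hz := ord_zero hRH hn
  have hpos := SG.ord_pos hn
  have h1 := SG.ord_count (ord n) hpos
  have h2 : 2 ≤ {k : ℕ | 1 ≤ k ∧ ord k = ord n}.ncard := by
    have hsub : ({n, n + 1} : Set ℕ) ⊆ {k : ℕ | 1 ≤ k ∧ ord k = ord n} := by
      rintro k hk
      rcases hk with hk | hk
      · exact ⟨by rw [hk]; exact hn, by rw [hk]⟩
      · have hk' : k = n + 1 := hk
        exact ⟨by omega, by rw [hk', h]⟩
    have := Set.ncard_le_ncard hsub (ordset_fin _)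
    rwa [Set.ncard_pair (by omega)] at this
  have h3 : At (ord n) = {(1 / 2 + (ord n : ℝ) * I : ℂ)} := by
    ext s
    rw [Set.mem_singleton_iff]
    constructor
    · exact fun hs => at_sub hRH _ hs
    · intro hs
      rw [hs]
      refine ⟨hz, ?_, ?_, ?_⟩
      · simp
      · simp; norm_num
      · simp
  unfold At at h3
  rw [h1, h3, finsum_mem_singleton, zmult_one _ hz hd] at h2
  · omega
  · intro h4
    have := congrArg Complex.im h4
    simp at this
    exact hpos.ne' this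

lemma ord_pair (hRH : ∀ w : ℂ, 1 / 2 < w.re → riemannZeta w ≠ 0) {n : ℕ} (hn : 1 ≤ n) :
    Pair (ord n) (ord (n + 1) - ord n) := by
  refine ⟨ord_zero hRH hn, fun _ => ?_, fun h => ord_double hRH hn (by linarith)⟩
  have e : ord n + (ord (n + 1) - ord n) = ord (n + 1) := by ring
  rw [e]
  exact ord_zero hRH (by omega)

/-- the ordinates grow at most linearly -/
lemma ord_le_two (hRH : ∀ w : ℂ, 1 / 2 < w.re → riemannZeta w ≠ 0) : ∀ᶠ n : ℕ in atTop, ord n ≤ 2 * n := by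
  obtain ⟨ε, T0, hε, hT0, h⟩ := _root_.SP.pos_prop (fun s h0 h1 hz => re_half hRH h0 h1 hz) 1 (by norm_num)
  have h1 : ∀ᶠ n : ℕ in atTop, 1 / ε ≤ Real.log n :=
    (Real.tendsto_log_atTop.comp tendsto_natCast_atTop_atTop).eventually_ge_atTop _
  have h2 : ∀ᶠ n : ℕ in atTop, T0 ≤ n := tendsto_natCast_atTop_atTop.eventually_ge_atTop _
  filter_upwards [h1, h2, eventually_ge_atTop 1] with n hn1 hn2 hn3
  rw [SG.ord_le_iff hn3]
  have h3 := h n hn2
  have h4 : {m : ℕ | 1 ≤ m ∧ (n:ℝ) ≤ ord m ∧ ord (m + 1) ≤ 2 * n ∧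
      ord (m + 1) - ord m < 1 * (2 * Real.pi / Real.log n)}.ncard ≤ NZ (2 * n) := by
    have hsub : {m : ℕ | 1 ≤ m ∧ (n:ℝ) ≤ ord m ∧ ord (m + 1) ≤ 2 * n ∧
        ord (m + 1) - ord m < 1 * (2 * Real.pi / Real.log n)} ⊆ ↑(Finset.Icc 1 (NZ (2 * n))) := by
      rintro m ⟨h1, _, h2, _⟩
      rw [Finset.coe_Icc]
      exact ⟨h1, (SG.ord_le_iff h1 _).mp ((SG.ord_mono h1 (Nat.le_succ m)).trans h2)⟩
    have := Set.ncard_le_ncard hsub (Finset.finite_toSet _)
    rw [Set.ncard_coe_finset] at this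
    simpa using this
  have h5 : (n:ℝ) ≤ NZ (2 * n) := by
    have h6 : (n:ℝ) ≤ ε * (n * Real.log n) := by
      have h7 : 1 ≤ ε * Real.log n := by
        rw [div_le_iff₀ hε] at hn1
        linarith
      have h8 : (0:ℝ) ≤ n := Nat.cast_nonneg n
      nlinarith
    exact (h6.trans h3).trans (by exact_mod_cast h4)
  exact_mod_cast h5

/-- the exponent `α`, with `log 0 = -∞` -/
noncomputable def alpha : EReal :=
  liminf (fun n : ℕ => if ord (n + 1) - ord n = 0 then (⊥ : EReal)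
    else ((Real.log (ord (n + 1) - ord n) / Real.log n : ℝ) : EReal)) atTop

theorem alpha_ge {A κ c : ℝ} (hA0 : 0 ≤ A) (hA1 : A ≤ 1) (hκ1 : κ < 1) (hc : 0 < c) (hlow : Low A κ c)
    (hRH : ∀ w : ℂ, 1 / 2 < w.re → riemannZeta w ≠ 0) : ((-(A / (1 - κ)) : ℝ) : EReal) ≤ alpha := by
  have hκ' : 0 < 1 - κ := by linarith
  refine le_of_forall_lt fun b hb => ?_
  obtain ⟨q, hq1, hq2⟩ := EReal.lt_iff_exists_real_btwn.mp hb
  refine hq1.trans_le ?_
  have hq : q < -(A / (1 - κ)) := by exact_mod_cast hq2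
  have hq' : q * (1 - κ) < -A := by
    have := mul_lt_mul_of_pos_right hq hκ'
    have e : -(A / (1 - κ)) * (1 - κ) = -A := by field_simp
    linarith
  set ε : ℝ := min 1 ((-(q * (1 - κ)) - A) / 2) with hε
  have hε0 : 0 < ε := lt_min one_pos (by linarith)
  have hε2 : ε ≤ (-(q * (1 - κ)) - A) / 2 := min_le_right _ _
  obtain ⟨c0, T₁, hc0, hT1, hgap⟩ := gap hA0 hA1 hκ1 hc hlow hRH hε0 (min_le_left _ _)
  refine le_liminf_of_le (by isBoundedDefault) ?_
  have h1 : ∀ᶠ n : ℕ in atTop, T₁ ≤ ord n := SG.ord_tendsto.eventually_ge_atTop _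
  have h2 := ord_le_two hRH
  have h3 : ∀ᶠ n : ℕ in atTop, ((A + ε) * Real.log 2 - Real.log c0) / ε ≤ Real.log n :=
    (Real.tendsto_log_atTop.comp tendsto_natCast_atTop_atTop).eventually_ge_atTop _
  filter_upwards [h1, h2, h3, eventually_ge_atTop 2] with n hn1 hn2 hn3 hn4
  have hn4' : (2:ℝ) ≤ n := by exact_mod_cast hn4
  have hlogn : 0 < Real.log n := Real.log_pos (by linarith)
  have hn0 : 1 ≤ n := by omega
  have hpos := SG.ord_pos hn0
  obtain ⟨hδ, hg⟩ := hgap (ord n) (ord (n + 1) - ord n) hn1 (by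
    have := SG.ord_mono hn0 (Nat.le_succ n)
    simp only [Nat.succ_eq_add_one] at this
    linarith) (ord_pair hRH hn0)
  rw [if_neg hδ.ne']
  have h5 : c0 ≤ (ord (n + 1) - ord n) ^ (1 - κ) * (2 * n) ^ (A + ε) := by
    refine hg.trans ?_
    apply mul_le_mul_of_nonneg_left _ (by positivity)
    exact Real.rpow_le_rpow hpos.le hn2 (by linarith)
  have h6 := Real.log_le_log hc0 h5
  rw [Real.log_mul (by positivity) (by positivity), Real.log_rpow hδ, Real.log_rpow (by positivity),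
    Real.log_mul (by norm_num) (by positivity)] at h6
  have h7 : q ≤ Real.log (ord (n + 1) - ord n) / Real.log n := by
    rw [le_div_iff₀ hlogn]
    rw [div_le_iff₀ hε0] at hn3
    have h8 : q * Real.log n * (1 - κ) ≤ Real.log (ord (n + 1) - ord n) * (1 - κ) := by
      have h9 : (A + ε) * Real.log n + ε * Real.log n ≤ -(q * (1 - κ)) * Real.log n := by
        have : A + ε + ε ≤ -(q * (1 - κ)) := by linarith
        nlinarith
      nlinarith
    exact le_of_mul_le_mul_right h8 hκ'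
  exact_mod_cast h7

/-- all the nontrivial zeros are on the line and simple -/
def AllSimple : Prop :=
  ∀ ρ : ℂ, riemannZeta ρ = 0 → 0 < ρ.re → ρ.re < 1 → ρ.re = 1 / 2 ∧ deriv riemannZeta ρ ≠ 0

theorem all_simple {A κ c : ℝ} (hκ1 : κ < 1) (hc : 0 < c) (hlow : Low A κ c)
    (hRH : ∀ w : ℂ, 1 / 2 < w.re → riemannZeta w ≠ 0) : AllSimple := by
  intro ρ hz h0 h1
  have h2 := re_half hRH h0 h1 hz
  refine ⟨h2, ?_⟩
  have e : ρ = 1 / 2 + ρ.im * I := by
    apply Complex.ext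
    · rw [h2]; simp
    · simp
  have ht : ρ.im ≠ 0 := by
    intro h3
    have h4 : ρ = ((1 / 2 : ℝ) : ℂ) := by
      rw [e, h3]; simp
    rw [h4] at hz
    exact zeta_real_ne (by norm_num) (by norm_num) hz
  rw [e] at hz ⊢
  exact simple hκ1 hc hlow ht hz

/-- **main theorem, the bound for `α`** -/
theorem main_alpha {s κ : ℝ} (hs : s = 1 ∨ s = -1) (hκ : 0 ≤ κ) (hκ1 : κ < 1) (h : Hyp s κ) :
    AllSimple ∧ ((-(1 / (1 - κ)) : ℝ) : EReal) ≤ alpha := by
  obtain ⟨hRH, c, hc, hlow⟩ := first hs hκ hκ1.le h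
  have hlow' : Low 1 κ c := by
    intro η t h1 h2 h3
    rw [Real.rpow_one]
    exact hlow η t h1 h2 h3
  exact ⟨all_simple hκ1 hc hlow' hRH, alpha_ge zero_le_one le_rfl hκ1 hc hlow' hRH⟩

end Pool.Agent.TH299.GO
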