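import Mathlib
import Pool.Agent.TH299.GO.C1
import Pool.Agent.TH299.GO.A6

/-! Complements: finite `α`, pointwise hypotheses, the limit `κ → 0`. -/

set_option autoImplicit false

namespace Pool.Agent.TH299.GO

open Complex Filter Topology Metric Set MeasureTheory
open SG (ord NZ zmult)

/-- exceptional zeros in the upper half plane -/
def Exc : Set ℂ := {ρ : ℂ | riemannZeta ρ = 0 ∧ 0 < ρ.re ∧ ρ.re < 1 ∧ 0 < ρ.im ∧
  ¬ (ρ.re = 1 / 2 ∧ deriv riemannZeta ρ ≠ 0)}

lemma exc_jump {ρ : ℂ} (h : ρ ∈ Exc) : ∃ n : ℕ, 1 ≤ n ∧ ord n = ρ.im ∧ ord (n + 1) = ρ.im := by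
  obtain ⟨h1, h2, h3, h4, h5⟩ := h
  have hj : ∀ t, t < ρ.im → NZ t + 2 ≤ NZ ρ.im := by
    intro t ht
    by_cases hre : ρ.re = 1 / 2
    · have hd : deriv riemannZeta ρ = 0 := by
        by_contra hd
        exact h5 ⟨hre, hd⟩
      have := SG.jump_one h1 h2 h3 h4 t ht
      have h6 := SG.zmult_two h4 h1 hd
      omega
    · have hz' : riemannZeta (1 - (starRingEnd ℂ) ρ) = 0 := by
        have hc : riemannZeta ((starRingEnd ℂ) ρ) = 0 := by
          rw [← norm_eq_zero, Pool.Agent.TH804.SP.norm_zeta_conj, h1, norm_zero]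
        have h6 := riemannZeta_one_sub (s := (starRingEnd ℂ) ρ) (fun n hn => by
          have h7 := congrArg Complex.re hn
          rw [Complex.conj_re] at h7
          simp at h7
          have : (0:ℝ) ≤ n := Nat.cast_nonneg n
          linarith) (by
          intro hn
          have h7 := congrArg Complex.re hn
          rw [Complex.conj_re] at h7
          simp at h7
          linarith)
        rw [h6, hc, mul_zero]
      refine SG.jump_two h1 h2 h3 h4 hz' ?_ ?_ ?_ ?_ t ht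
      · simp; linarith
      · simp; linarith
      · simp
      · intro he
        apply hre
        have h7 := congrArg Complex.re he
        simp at h7
        linarith
  obtain ⟨n, hn, ha, hb⟩ := SG.consecutive_of_jump h4 hj
  have hm := SG.ord_mono hn (Nat.le_succ n)
  simp only [Nat.succ_eq_add_one] at hm
  exact ⟨n, hn, by linarith, by linarith⟩

theorem finite_exc (h : alpha ≠ ⊥) : Exc.Finite := by
  by_contra hinf
  apply h
  have hfr : ∃ᶠ n : ℕ in atTop, (if ord (n + 1) - ord n = 0 then (⊥ : EReal)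
    else ((Real.log (ord (n + 1) - ord n) / Real.log n : ℝ) : EReal)) ≤ ⊥ := by
    rw [frequently_atTop]
    intro N
    have hfin := SG.ZS_finite (ord (N + 1))
    have hex : ∃ ρ ∈ Exc, ord (N + 1) < ρ.im := by
      by_contra hcon
      push Not at hcon
      apply hinf
      refine hfin.subset fun ρ hρ => ?_
      exact ⟨hρ.1, hρ.2.1, hρ.2.2.1, hρ.2.2.2.1, hcon ρ hρ⟩
    obtain ⟨ρ, hρ, hlt⟩ := hex
    obtain ⟨n, hn, ha, hb⟩ := exc_jump hρ
    refine ⟨n, ?_, ?_⟩
    · by_contra hc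
      push Not at hc
      have := SG.ord_mono hn (by omega : n ≤ N + 1)
      linarith
    · rw [if_pos (by rw [ha, hb, sub_self])]
  have := liminf_le_of_frequently_le hfr (by isBoundedDefault)
  exact le_bot_iff.mp this

lemma MS_meas : Measurable MS := by
  unfold MS
  have h1 : Measurable (fun n : ℕ => ∑ k ∈ Finset.Icc 1 n, ((ArithmeticFunction.moebius k : ℤ) : ℝ)) := measurable_from_nat
  exact h1.comp Nat.measurable_floor

/-- a pointwise one-sided bound gives a bound for the mean -/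
theorem hyp_of_pt {s κ : ℝ} (hκ : 0 ≤ κ)
    (h : ∃ C : ℝ, ∀ᶠ x : ℝ in atTop, s * MS x ≤ C * (Real.sqrt x * Real.log x ^ κ)) : Hyp s κ := by
  obtain ⟨C, hC⟩ := h
  obtain ⟨x0, hx0⟩ := eventually_atTop.mp hC
  set V0 : ℝ := Real.log (max x0 1) with hV0
  have hV00 : 0 ≤ V0 := Real.log_nonneg (le_max_right _ _)
  have hex : Real.exp V0 = max x0 1 := Real.exp_log (lt_of_lt_of_le one_pos (le_max_right _ _))
  set A : ℝ := ∫ v in (0:ℝ)..V0, aa s v with hA
  refine ⟨|A| + |C|, ?_⟩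
  filter_upwards [eventually_ge_atTop (Real.exp (V0 + 1))] with x hx
  have hx0' : 0 < x := (Real.exp_pos _).trans_le hx
  set V : ℝ := Real.log x with hV
  have hxV : x = Real.exp V := (Real.exp_log hx0').symm
  have hVV : V0 + 1 ≤ V := by
    rw [hV, Real.le_log_iff_exp_le hx0']
    exact hx
  have hV1 : 1 ≤ V := by linarith
  rw [hxV, subst s V (by linarith)]
  have hii : IntervalIntegrable (aa s) volume V0 V := (aa_ii s V0).symm.trans (aa_ii s V)
  rw [← intervalIntegral.integral_add_adjacent_intervals (aa_ii s V0) hii]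
  have h1 : ∫ v in V0..V, aa s v ≤ ∫ v in V0..V, |C| * V ^ κ := by
    apply intervalIntegral.integral_mono_on_of_le_Ioo (by linarith) hii intervalIntegrable_const
    intro v hv
    have hv0 : 0 < v := by linarith [hv.1]
    rw [aa_eq s v hv0]
    have h2 : x0 ≤ Real.exp v := by
      calc x0 ≤ max x0 1 := le_max_left _ _
        _ = Real.exp V0 := hex.symm
        _ ≤ _ := Real.exp_le_exp.mpr hv.1.le
    have h3 := hx0 _ h2
    rw [Real.log_exp] at h3
    have h4 : Real.sqrt (Real.exp v) = Real.exp (v / 2) := by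
      rw [Real.exp_half]
    rw [h4] at h3
    have h5 : max (s * MS (Real.exp v)) 0 ≤ |C| * V ^ κ * Real.exp (v / 2) := by
      apply max_le _ (by positivity)
      calc s * MS (Real.exp v) ≤ C * (Real.exp (v / 2) * v ^ κ) := h3
        _ ≤ |C| * (Real.exp (v / 2) * v ^ κ) := mul_le_mul_of_nonneg_right (le_abs_self _) (by positivity)
        _ ≤ |C| * (Real.exp (v / 2) * V ^ κ) := by
            apply mul_le_mul_of_nonneg_left _ (abs_nonneg _)
            apply mul_le_mul_of_nonneg_left _ (Real.exp_pos _).le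
            exact Real.rpow_le_rpow hv0.le hv.2.le hκ
        _ = _ := by ring
    calc _ ≤ (|C| * V ^ κ * Real.exp (v / 2)) * Real.exp (-(v / 2)) :=
          mul_le_mul_of_nonneg_right h5 (Real.exp_pos _).le
      _ = |C| * V ^ κ := by rw [mul_assoc, ← Real.exp_add]; simp
  rw [intervalIntegral.integral_const, smul_eq_mul] at h1
  have h6 : V ^ (1 + κ) = V * V ^ κ := by rw [Real.rpow_add (by linarith), Real.rpow_one]
  have h7 : 1 ≤ V ^ (1 + κ) := Real.one_le_rpow hV1 (by linarith)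
  have h8 : A ≤ |A| * V ^ (1 + κ) := (le_abs_self A).trans (le_mul_of_one_le_right (abs_nonneg A) h7)
  have h9 : (V - V0) * (|C| * V ^ κ) ≤ |C| * V ^ (1 + κ) := by
    rw [h6]
    have : 0 ≤ |C| * V ^ κ := by positivity
    nlinarith
  calc _ ≤ |A| * V ^ (1 + κ) + |C| * V ^ (1 + κ) := add_le_add h8 (h1.trans h9)
    _ = _ := by ring

/-- from bounds for all `κ > 0` to the limit -/
lemma alpha_limit {A : ℝ} (hA : 0 ≤ A) (h : ∀ κ : ℝ, 0 < κ → κ < 1 → ((-(A / (1 - κ)) : ℝ) : EReal) ≤ alpha) :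
    ((-A : ℝ) : EReal) ≤ alpha := by
  refine le_of_forall_lt fun b hb => ?_
  obtain ⟨q, hq1, hq2⟩ := EReal.lt_iff_exists_real_btwn.mp hb
  refine hq1.trans_le ?_
  have hq : q < -A := by exact_mod_cast hq2
  have hq0 : q < 0 := by linarith
  -- choose `κ` with `A / (1 - κ) ≤ -q`
  have hq1' : 0 < 1 - 2 * q := by linarith
  set κ : ℝ := (-q - A) / (1 - 2 * q) with hκ
  have hκ0 : 0 < κ := div_pos (by linarith) hq1'
  have hκ1 : κ < 1 := by
    rw [hκ, div_lt_one hq1']
    linarith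
  refine le_trans ?_ (h κ hκ0 hκ1)
  have h1 : 0 < 1 - κ := by linarith
  have h2 : q ≤ -(A / (1 - κ)) := by
    have h3 : A / (1 - κ) ≤ -q := by
      rw [div_le_iff₀ h1]
      have h4 : κ * (1 - 2 * q) = -q - A := by rw [hκ]; exact div_mul_cancel₀ _ hq1'.ne'
      nlinarith
    linarith
  exact_mod_cast h2

/-- the limit `κ → 0` -/
theorem main_zero {s : ℝ} (hs : s = 1 ∨ s = -1) (h : ∀ κ : ℝ, 0 < κ → Hyp s κ) : (-1 : EReal) ≤ alpha := by
  have := alpha_limit (A := 1) zero_le_one (fun κ h0 h1 => (main_alpha hs h0.le h1 (h κ h0)).2)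
  rwa [EReal.coe_neg, EReal.coe_one] at this

/-- **main theorem for the increments** -/
theorem main_alpha2 {s θ κ : ℝ} (hs : s = 1 ∨ s = -1) (hθ : 0 ≤ θ) (hθ1 : θ ≤ 1) (hκ : 0 ≤ κ) (hκ1 : κ < 1)
    (h : Hyp2 s θ κ) : AllSimple ∧ ((-((1 - θ) / (1 - κ)) : ℝ) : EReal) ≤ alpha := by
  obtain ⟨hRH, c, hc, hlow⟩ := first2 hs hθ hθ1 hκ hκ1.le h
  exact ⟨all_simple hκ1 hc hlow hRH, alpha_ge (by linarith) (by linarith) hκ1 hc hlow hRH⟩

theorem main_zero2 {s θ : ℝ} (hs : s = 1 ∨ s = -1) (hθ : 0 ≤ θ) (hθ1 : θ ≤ 1)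
    (h : ∀ κ : ℝ, 0 < κ → Hyp2 s θ κ) : ((-(1 - θ) : ℝ) : EReal) ≤ alpha :=
  alpha_limit (by linarith) (fun κ h0 h1 => (main_alpha2 hs hθ hθ1 h0.le h1 (h κ h0)).2)

end Pool.Agent.TH299.GO
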