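import Mathlib
import Pool.Agent.TH299.GO.C2

/-! First logarithmic means of the two parts of the Mertens function. -/

set_option autoImplicit false

namespace Pool.Agent.TH299.GO

open MeasureTheory ProbabilityTheory Filter Topology Set
open Pool.Agent.W263.BSD
open Pool.Agent.H409R2.MZ.PNT (mm MM laplace_mm measurable_mm abs_mm_le)

lemma bp_eq (s : ℝ) : bp s = ap (-s) := by
  funext u
  unfold bp ap
  rw [neg_mul]

/-- the other sign -/
theorem hyp_neg {s κ : ℝ} (hκ : 0 ≤ κ) (hκ1 : κ ≤ 1) (hs : s = 1 ∨ s = -1) (h : Hyp s κ) : Hyp (-s) κ := by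
  obtain ⟨H, C, hC⟩ := hyp_lap hκ hκ1 h
  obtain ⟨hb1, hb2⟩ := one_sided H
  rw [bp_eq] at hb1 hb2
  have hcont : ContinuousOn Rr (Icc (-(1/2:ℝ)) 0) := fun w hw =>
    (Rr_analyticAt (by have := hw.1; linarith)).continuousAt.continuousWithinAt
  obtain ⟨K, hK⟩ := isCompact_Icc.exists_bound_of_continuousOn hcont
  have hK0 : 0 ≤ K := (norm_nonneg _).trans (hK 0 ⟨by norm_num, le_rfl⟩)
  refine ⟨Real.exp 1 * (|C| + K), ?_⟩
  filter_upwards [eventually_ge_atTop (Real.exp 2)] with x hx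
  have hx0 : 0 < x := (Real.exp_pos _).trans_le hx
  set V : ℝ := Real.log x with hV
  have hxV : x = Real.exp V := (Real.exp_log hx0).symm
  have hV2 : 2 ≤ V := by
    rw [hV, Real.le_log_iff_exp_le hx0]
    exact hx
  have hV0 : 0 < V := by linarith
  rw [hxV, subst (-s) V hV0.le]
  set η : ℝ := 1 / V with hη
  have hη0 : 0 < η := by positivity
  have hη1 : η ≤ 1 / 2 := one_div_le_one_div_of_le (by norm_num) hV2
  have hw : -(1/2:ℝ) < -(1/2) + η := by linarith
  have e : ∀ u : ℝ, aa (-s) u * Real.exp (-(η * u)) = ap (-s) u * Real.exp (-((-(1/2) + η) * u)) := by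
    intro u
    unfold aa
    rw [mul_assoc, ← Real.exp_add]
    congr 2
    ring
  have hint : IntegrableOn (fun u => aa (-s) u * Real.exp (-(η * u))) (Ioi 0) := by
    have h1 := hb1 _ hw
    unfold LInt at h1
    exact h1.congr_fun (fun u _ => (e u).symm) measurableSet_Ioi
  have h1 : ∫ v in (0:ℝ)..V, aa (-s) v ≤ Real.exp 1 * ∫ u in Ioi (0:ℝ), aa (-s) u * Real.exp (-(η * u)) := by
    rw [intervalIntegral.integral_of_le hV0.le, ← integral_const_mul]
    have h2 : ∫ v in Ioc 0 V, aa (-s) v ≤ ∫ v in Ioc 0 V, Real.exp 1 * (aa (-s) v * Real.exp (-(η * v))) := by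
      apply setIntegral_mono_on
      · exact (intervalIntegrable_iff_integrableOn_Ioc_of_le hV0.le).mp (aa_ii (-s) V)
      · exact (hint.mono_set Ioc_subset_Ioi_self).const_mul _
      · exact measurableSet_Ioc
      · intro v hv
        have h3 : 1 ≤ Real.exp 1 * Real.exp (-(η * v)) := by
          rw [← Real.exp_add]
          apply Real.one_le_exp
          have : η * v ≤ 1 := by
            rw [hη, one_div, inv_mul_le_iff₀ hV0, mul_one]
            exact hv.2
          linarith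
        calc aa (-s) v = aa (-s) v * 1 := (mul_one _).symm
          _ ≤ aa (-s) v * (Real.exp 1 * Real.exp (-(η * v))) := mul_le_mul_of_nonneg_left h3 (aa_nn _ _)
          _ = _ := by ring
    refine h2.trans ?_
    apply setIntegral_mono_set (hint.const_mul _)
    · exact ae_of_all _ fun u => mul_nonneg (Real.exp_pos _).le (mul_nonneg (aa_nn _ _) (Real.exp_pos _).le)
    · exact Ioc_subset_Ioi_self.eventuallyLE
  have h2 : ∫ u in Ioi (0:ℝ), aa (-s) u * Real.exp (-(η * u)) = lap (ap (-s)) (-(1/2) + η) := by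
    unfold lap
    congr 1
    funext u
    exact e u
  rw [h2, hb2 _ hw] at h1
  have h3 := hC η hη0 hη1
  have h4 := hK (-(1/2) + η) ⟨by linarith, by linarith⟩
  rw [Real.norm_eq_abs] at h4
  have h5 : -(s * Rr (-(1/2) + η)) ≤ K := by
    have := neg_abs_le (s * Rr (-(1/2) + η))
    have e : |s * Rr (-(1/2) + η)| = |Rr (-(1/2) + η)| := by
      rw [abs_mul]
      rcases hs with h | h <;> · rw [h]; simp
    rw [e] at this
    linarith
  have h6 : η ^ (-(1 + κ)) = V ^ (1 + κ) := by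
    rw [hη, one_div, Real.inv_rpow hV0.le, Real.rpow_neg hV0.le, inv_inv]
  rw [h6] at h3
  have h7 : 1 ≤ V ^ (1 + κ) := Real.one_le_rpow (by linarith) (by linarith)
  have he := Real.exp_pos 1
  calc _ ≤ Real.exp 1 * (lap (ap s) (-(1/2) + η) - s * Rr (-(1/2) + η)) := h1
    _ ≤ Real.exp 1 * (|C| * V ^ (1 + κ) + K * V ^ (1 + κ)) := by
        apply mul_le_mul_of_nonneg_left _ he.le
        have h8 : C * V ^ (1 + κ) ≤ |C| * V ^ (1 + κ) := mul_le_mul_of_nonneg_right (le_abs_self _) (by linarith)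
        have h9 : K ≤ K * V ^ (1 + κ) := le_mul_of_one_le_right hK0 h7
        linarith
    _ = _ := by ring

/-- two-sided -/
def Two (κ : ℝ) : Prop := ∃ C : ℝ, ∀ᶠ x : ℝ in atTop,
  ∫ u in (1:ℝ)..x, |MS u| / u ^ (3 / 2 : ℝ) ≤ C * Real.log x ^ (1 + κ)

lemma MS_le {u : ℝ} (hu : 0 ≤ u) : |MS u| ≤ u := by
  have h1 : |MS u| ≤ (⌊u⌋₊ : ℝ) := Pool.Agent.H409R2.MZ.PNT.abs_MM_le ⌊u⌋₊
  exact h1.trans (Nat.floor_le hu)

lemma ii_gen {f : ℝ → ℝ} (hf : Measurable f) {B : ℝ} (hB : 0 ≤ B) (hb : ∀ u, 1 ≤ u → |f u| ≤ B * u) {x : ℝ} (hx : 1 ≤ x) :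
    IntervalIntegrable (fun u => f u / u ^ (3 / 2 : ℝ)) volume 1 x := by
  rw [intervalIntegrable_iff_integrableOn_Ioc_of_le hx]
  have hc : IntegrableOn (fun _ : ℝ => B) (Ioc 1 x) := integrableOn_const (by simp)
  refine Integrable.mono' hc (hf.div (by fun_prop : Measurable fun u : ℝ => u ^ (3 / 2 : ℝ))).aestronglyMeasurable ?_
  refine (ae_restrict_iff' measurableSet_Ioc).mpr (ae_of_all _ fun u hu => ?_)
  have hu1 : 1 ≤ u := hu.1.le
  have h1 : 0 < u ^ (3 / 2 : ℝ) := by positivity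
  rw [Real.norm_eq_abs, abs_div, abs_of_pos h1, div_le_iff₀ h1]
  calc |f u| ≤ B * u := hb u hu1
    _ = B * u ^ (1:ℝ) := by rw [Real.rpow_one]
    _ ≤ _ := mul_le_mul_of_nonneg_left (Real.rpow_le_rpow_of_exponent_le hu1 (by norm_num)) hB

lemma ii_part (s : ℝ) {x : ℝ} (hx : 1 ≤ x) :
    IntervalIntegrable (fun u => max (s * MS u) 0 / u ^ (3 / 2 : ℝ)) volume 1 x := by
  refine ii_gen ((MS_meas.const_mul s).max measurable_const) (abs_nonneg s) (fun u hu => ?_) hx
  rw [abs_of_nonneg (le_max_right _ _)]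
  apply max_le _ (by positivity)
  calc s * MS u ≤ |s * MS u| := le_abs_self _
    _ = |s| * |MS u| := abs_mul _ _
    _ ≤ _ := mul_le_mul_of_nonneg_left (MS_le (by linarith)) (abs_nonneg s)

lemma ii_abs {x : ℝ} (hx : 1 ≤ x) :
    IntervalIntegrable (fun u => |MS u| / u ^ (3 / 2 : ℝ)) volume 1 x := by
  refine ii_gen (f := fun u => |MS u|) (by simpa using MS_meas.abs) zero_le_one (fun u hu => ?_) hx
  rw [abs_abs, one_mul]
  exact MS_le (by linarith)

theorem two_of_hyp {s κ : ℝ} (hκ : 0 ≤ κ) (hκ1 : κ ≤ 1) (hs : s = 1 ∨ s = -1) (h : Hyp s κ) : Two κ := by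
  have h' := hyp_neg hκ hκ1 hs h
  obtain ⟨C1, hC1⟩ := h
  obtain ⟨C2, hC2⟩ := h'
  refine ⟨C1 + C2, ?_⟩
  filter_upwards [hC1, hC2, eventually_ge_atTop 1] with x h1 h2 hx
  have e : ∫ u in (1:ℝ)..x, |MS u| / u ^ (3 / 2 : ℝ) =
      (∫ u in (1:ℝ)..x, max (s * MS u) 0 / u ^ (3 / 2 : ℝ)) + ∫ u in (1:ℝ)..x, max (-s * MS u) 0 / u ^ (3 / 2 : ℝ) := by
    rw [← intervalIntegral.integral_add (ii_part s hx) (ii_part (-s) hx)]
    congr 1
    funext u
    rw [← add_div]
    congr 1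
    have e2 : |MS u| = |s * MS u| := by
      rw [abs_mul]
      rcases hs with h | h <;> · rw [h]; simp
    rw [e2, neg_mul]
    rcases le_total (s * MS u) 0 with h | h
    · rw [max_eq_right h, max_eq_left (by linarith), abs_of_nonpos h]; ring
    · rw [max_eq_left h, max_eq_right (by linarith), abs_of_nonneg h]; ring
  rw [e]
  linarith

theorem hyp_of_two {s κ : ℝ} (hs : s = 1 ∨ s = -1) (h : Two κ) : Hyp s κ := by
  obtain ⟨C, hC⟩ := h
  refine ⟨C, ?_⟩
  filter_upwards [hC, eventually_ge_atTop 1] with x h1 hx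
  refine le_trans ?_ h1
  apply intervalIntegral.integral_mono_on hx (ii_part s hx) (ii_abs hx)
  intro u hu
  have hu0 : 0 < u := by linarith [hu.1]
  apply div_le_div_of_nonneg_right _ (by positivity)
  apply max_le _ (abs_nonneg _)
  calc s * MS u ≤ |s * MS u| := le_abs_self _
    _ = |MS u| := by
        rw [abs_mul]
        rcases hs with h | h <;> · rw [h]; simp

/-- weak Mertens gives the first mean -/
theorem two_of_weak (h : ∃ C : ℝ, ∀ x : ℝ, 2 ≤ x → ∫ u in (1:ℝ)..x, (MS u / u) ^ 2 ≤ C * Real.log x) : Two 0 := by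
  obtain ⟨C, hC⟩ := h
  refine ⟨(C + 1) / 2, ?_⟩
  filter_upwards [eventually_ge_atTop 2] with x hx
  have hx1 : (1:ℝ) ≤ x := by linarith
  have h1 := hC x hx
  have hI1 : IntervalIntegrable (fun u : ℝ => (MS u / u) ^ 2) volume 1 x := by
    rw [intervalIntegrable_iff_integrableOn_Ioc_of_le hx1]
    have hc : IntegrableOn (fun _ : ℝ => (1:ℝ)) (Ioc 1 x) := integrableOn_const (by simp)
    refine Integrable.mono' hc ((MS_meas.div measurable_id).pow_const 2).aestronglyMeasurable ?_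
    refine (ae_restrict_iff' measurableSet_Ioc).mpr (ae_of_all _ fun u hu => ?_)
    have hu0 : 0 < u := by linarith [hu.1]
    rw [Real.norm_eq_abs, abs_pow, abs_div, abs_of_pos hu0]
    have : |MS u| / u ≤ 1 := by
      rw [div_le_one hu0]
      exact MS_le hu0.le
    have h0 : 0 ≤ |MS u| / u := by positivity
    nlinarith
  have hI2 : IntervalIntegrable (fun u : ℝ => u⁻¹) volume 1 x :=
    intervalIntegral.intervalIntegrable_inv (fun u hu => by
      rw [uIcc_of_le hx1] at hu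
      linarith [hu.1]) continuousOn_id
  have h2 : ∫ u in (1:ℝ)..x, |MS u| / u ^ (3 / 2 : ℝ) ≤ ∫ u in (1:ℝ)..x, (1 / 2 : ℝ) * ((MS u / u) ^ 2 + u⁻¹) := by
    apply intervalIntegral.integral_mono_on hx1 (ii_abs hx1) ((hI1.add hI2).const_mul _)
    intro u hu
    have hu0 : 0 < u := by linarith [hu.1]
    have e1 : u ^ (3 / 2 : ℝ) = u * Real.sqrt u := by
      rw [Real.sqrt_eq_rpow]
      calc u ^ (3 / 2 : ℝ) = u ^ ((1:ℝ) + 1 / 2) := by norm_num
        _ = _ := by rw [Real.rpow_add hu0, Real.rpow_one]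
    have hsq : 0 < Real.sqrt u := Real.sqrt_pos.mpr hu0
    have hss : Real.sqrt u * Real.sqrt u = u := Real.mul_self_sqrt hu0.le
    rw [e1]
    have e2 : |MS u| / (u * Real.sqrt u) = (|MS u| / u) * (1 / Real.sqrt u) := by field_simp
    have e3 : u⁻¹ = (1 / Real.sqrt u) ^ 2 := by
      rw [div_pow, one_pow, Real.sq_sqrt hu0.le, one_div]
    have e4 : (MS u / u) ^ 2 = (|MS u| / u) ^ 2 := by
      rw [div_pow, div_pow, sq_abs]
    rw [e2, e3, e4]
    nlinarith [sq_nonneg (|MS u| / u - 1 / Real.sqrt u)]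
  rw [intervalIntegral.integral_const_mul, intervalIntegral.integral_add hI1 hI2,
    integral_inv_of_pos one_pos (by linarith), div_one] at h2
  rw [add_zero, Real.rpow_one]
  linarith

/-- the derivative at the zeros -/
theorem deriv_lower {c : ℝ} (hlow : Low 1 0 c) {t : ℝ} (ht : t ≠ 0)
    (hz : riemannZeta (1 / 2 + t * Complex.I) = 0) :
    c ≤ (1 + |t|) * ‖deriv riemannZeta (1 / 2 + t * Complex.I)‖ := by
  set ρ : ℂ := 1 / 2 + t * Complex.I with hρ
  have hρ1 : ρ ≠ 1 := by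
    intro h
    have h2 := congrArg Complex.im h
    rw [hρ] at h2
    simp at h2
    exact ht h2
  have hd := (differentiableAt_riemannZeta hρ1).hasDerivAt
  have h1 := hd.tendsto_slope_zero
  have h2 : Tendsto (fun η : ℝ => ((η : ℂ))) (𝓝[>] 0) (𝓝[≠] 0) := by
    apply tendsto_nhdsWithin_of_tendsto_nhds_of_eventually_within
    · have : Tendsto (fun η : ℝ => (η : ℂ)) (𝓝 0) (𝓝 ((0:ℝ):ℂ)) := Complex.continuous_ofReal.tendsto 0
      exact (this.mono_left nhdsWithin_le_nhds)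
    · filter_upwards [self_mem_nhdsWithin] with η hη
      have : (0:ℝ) < η := hη
      show (η:ℂ) ≠ 0
      exact_mod_cast this.ne'
  have h3 := ((h1.comp h2).norm).const_mul (1 + |t|)
  refine ge_of_tendsto h3 ?_
  have hev : ∀ᶠ η : ℝ in 𝓝[>] 0, η ∈ Ioo (0:ℝ) (1 / 2) := Ioo_mem_nhdsGT (by norm_num)
  filter_upwards [hev] with η hη
  have h4 := hlow η t hη.1 hη.2.le ht
  have e : (1 / 2 + η + t * Complex.I : ℂ) = ρ + η := by rw [hρ]; ring
  rw [e, add_zero, Real.rpow_one, Real.rpow_one] at h4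
  simp only [Function.comp_apply]
  rw [hz, sub_zero, norm_smul, norm_inv, Complex.norm_real, Real.norm_of_nonneg hη.1.le]
  calc c = c * η * η⁻¹ := by field_simp [hη.1.ne']
    _ ≤ ((1 + |t|) * ‖riemannZeta (ρ + η)‖) * η⁻¹ := mul_le_mul_of_nonneg_right h4 (by have := hη.1; positivity)
    _ = _ := by ring

theorem residue_bound {s : ℝ} (hs : s = 1 ∨ s = -1) (h : Hyp s 0) :
    ∃ c : ℝ, 0 < c ∧ ∀ ρ : ℂ, riemannZeta ρ = 0 → 0 < ρ.re → ρ.re < 1 → c ≤ ‖ρ * deriv riemannZeta ρ‖ := by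
  obtain ⟨hRH, c, hc, hlow⟩ := first hs le_rfl zero_le_one h
  have hlow' : Low 1 0 c := by
    intro η t h1 h2 h3
    rw [Real.rpow_one]
    exact hlow η t h1 h2 h3
  refine ⟨c / 3, by positivity, fun ρ hz h0 h1 => ?_⟩
  have h2 := re_half hRH h0 h1 hz
  have e : ρ = 1 / 2 + ρ.im * Complex.I := by
    apply Complex.ext
    · rw [h2]; simp
    · simp
  have ht : ρ.im ≠ 0 := by
    intro h3
    have h4 : ρ = ((1 / 2 : ℝ) : ℂ) := by
      rw [e, h3]; simp
    rw [h4] at hz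
    exact zeta_real_ne (by norm_num) (by norm_num) hz
  have h3 := deriv_lower hlow' ht (by rw [← e]; exact hz)
  rw [← e] at h3
  have h4 : 1 + |ρ.im| ≤ 3 * ‖ρ‖ := by
    have h5 := Complex.abs_im_le_norm ρ
    have h6 := Complex.abs_re_le_norm ρ
    rw [h2, abs_of_pos (by norm_num : (0:ℝ) < 1 / 2)] at h6
    linarith
  rw [norm_mul]
  have h5 := norm_nonneg (deriv riemannZeta ρ)
  nlinarith

end Pool.Agent.TH299.GO
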