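import Mathlib
import Pool.Agent.TH299.GO.D1

/-! A sharp Abelian bound and the explicit inequality at a zero. -/

set_option autoImplicit false

namespace Pool.Agent.TH299.GO

open MeasureTheory ProbabilityTheory Filter Topology Set
open Pool.Agent.W263.BSD
open Pool.Agent.H409R2.MZ.PNT (mm MM laplace_mm measurable_mm abs_mm_le)

theorem laplace_sharp {a : ℝ → ℝ} (ham : Measurable a) (ha : ∀ u, 0 ≤ a u)
    (hloc : ∀ V : ℝ, 0 ≤ V → IntervalIntegrable a volume 0 V) {K C η : ℝ} (hK : 0 ≤ K) (hC : 0 ≤ C) (hη : 0 < η)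
    (hA : ∀ V : ℝ, 0 ≤ V → ∫ v in (0:ℝ)..V, a v ≤ K * V + C)
    (hint : IntegrableOn (fun u => a u * Real.exp (-(η * u))) (Ioi 0)) :
    ∫ u in Ioi (0:ℝ), a u * Real.exp (-(η * u)) ≤ K / η + C := by
  set μ : Measure ℝ := (volume.restrict (Ioi (0:ℝ))).withDensity (fun u => ENNReal.ofReal (a u)) with hμ
  have ham' : Measurable fun u => ENNReal.ofReal (a u) := ham.ennreal_ofReal
  have h1 : ENNReal.ofReal (∫ u in Ioi (0:ℝ), a u * Real.exp (-(η * u))) =
      ∫⁻ u, ENNReal.ofReal (Real.exp (-(η * u))) ∂μ := by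
    rw [ofReal_integral_eq_lintegral_ofReal hint (ae_of_all _ fun u => mul_nonneg (ha u) (Real.exp_pos _).le),
      hμ, lintegral_withDensity_eq_lintegral_mul _ ham' (by fun_prop)]
    refine lintegral_congr fun u => ?_
    rw [ENNReal.ofReal_mul (ha u)]
    rfl
  have h2 := lintegral_eq_lintegral_meas_le μ (f := fun u => Real.exp (-(η * u)))
    (ae_of_all _ fun u => (Real.exp_pos _).le) (by fun_prop : Measurable fun u : ℝ => Real.exp (-(η * u))).aemeasurable
  have h3 : ∀ t ∈ Ioi (0:ℝ), μ {u : ℝ | t ≤ Real.exp (-(η * u))} ≤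
      (Ioc (0:ℝ) 1).indicator (fun t => ENNReal.ofReal (K / η * (-Real.log t) + C)) t := by
    intro t ht
    have ht0 : 0 < t := ht
    have hms : MeasurableSet {u : ℝ | t ≤ Real.exp (-(η * u))} := measurableSet_le measurable_const (by fun_prop)
    by_cases ht1 : t ≤ 1
    · rw [indicator_of_mem (show t ∈ Ioc (0:ℝ) 1 from ⟨ht0, ht1⟩)]
      set V : ℝ := -Real.log t / η with hV
      have hlog : Real.log t ≤ 0 := Real.log_nonpos ht0.le ht1
      have hV0 : 0 ≤ V := div_nonneg (by linarith) hη.le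
      rw [hμ, withDensity_apply _ hms, Measure.restrict_restrict hms]
      have hset : {u : ℝ | t ≤ Real.exp (-(η * u))} ∩ Ioi 0 = Ioc 0 V := by
        ext u
        simp only [mem_inter_iff, mem_ofPred_eq, mem_Ioi, mem_Ioc]
        rw [← Real.log_le_iff_le_exp ht0, hV, le_div_iff₀ hη]
        constructor
        · rintro ⟨h1, h2⟩
          exact ⟨h2, by linarith⟩
        · rintro ⟨h1, h2⟩
          exact ⟨by linarith, h1⟩
      rw [hset, ← ofReal_integral_eq_lintegral_ofReal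
        ((intervalIntegrable_iff_integrableOn_Ioc_of_le hV0).mp (hloc V hV0)) (ae_of_all _ fun u => ha u)]
      apply ENNReal.ofReal_le_ofReal
      rw [← intervalIntegral.integral_of_le hV0]
      refine (hA V hV0).trans (le_of_eq ?_)
      rw [hV]
      ring
    · rw [indicator_of_notMem (fun h => ht1 h.2)]
      have hset : {u : ℝ | t ≤ Real.exp (-(η * u))} ∩ Ioi 0 = ∅ := by
        ext u
        simp only [mem_inter_iff, mem_ofPred_eq, mem_Ioi, mem_empty_iff_false, iff_false, not_and]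
        intro h4 h5
        have h6 : Real.exp (-(η * u)) ≤ 1 := Real.exp_le_one_iff.mpr (by nlinarith)
        linarith
      rw [hμ, withDensity_apply _ hms, Measure.restrict_restrict hms, hset]
      simp
  have hN : IntervalIntegrable (fun t => K / η * (-Real.log t)) volume 0 1 :=
    (intervalIntegral.intervalIntegrable_log').neg.const_mul _
  have hI : IntervalIntegrable (fun t => K / η * (-Real.log t) + C) volume 0 1 :=
    hN.add intervalIntegrable_const
  have h4 : ∫⁻ t in Ioi (0:ℝ), (Ioc (0:ℝ) 1).indicator (fun t => ENNReal.ofReal (K / η * (-Real.log t) + C)) t =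
      ENNReal.ofReal (K / η + C) := by
    rw [lintegral_indicator measurableSet_Ioc, Measure.restrict_restrict measurableSet_Ioc,
      inter_eq_left.mpr Ioc_subset_Ioi_self]
    rw [← ofReal_integral_eq_lintegral_ofReal ((intervalIntegrable_iff_integrableOn_Ioc_of_le zero_le_one).mp hI)]
    · congr 1
      rw [← intervalIntegral.integral_of_le zero_le_one,
        intervalIntegral.integral_add hN intervalIntegrable_const,
        intervalIntegral.integral_const_mul, intervalIntegral.integral_neg, integral_log]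
      simp
    · refine (ae_restrict_iff' measurableSet_Ioc).mpr (ae_of_all _ fun t ht => ?_)
      have := Real.log_nonpos ht.1.le ht.2
      have h5 : 0 ≤ K / η * (-Real.log t) := mul_nonneg (by positivity) (by linarith)
      show 0 ≤ K / η * (-Real.log t) + C
      linarith
  have h5 : ENNReal.ofReal (∫ u in Ioi (0:ℝ), a u * Real.exp (-(η * u))) ≤ ENNReal.ofReal (K / η + C) := by
    rw [h1, h2, ← h4]
    exact setLIntegral_mono' measurableSet_Ioi h3
  exact (ENNReal.ofReal_le_ofReal_iff (by positivity)).mp h5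

/-- the bound for the Laplace transform, sharp form -/
theorem lap_sharp {s K : ℝ}
    (h : ∀ᶠ x : ℝ in atTop, ∫ u in (1:ℝ)..x, max (s * MS u) 0 / u ^ (3 / 2 : ℝ) ≤ K * Real.log x)
    (H : ∀ w > -(1/2:ℝ), LInt (ap s) w) :
    0 ≤ K ∧ ∃ C : ℝ, ∀ η : ℝ, 0 < η → lap (ap s) (-(1/2) + η) ≤ K / η + C := by
  obtain ⟨x0, hx0⟩ := eventually_atTop.mp h
  set V0 : ℝ := Real.log (max x0 1) with hV0
  have hV00 : 0 ≤ V0 := Real.log_nonneg (le_max_right _ _)
  have hex : Real.exp V0 = max x0 1 := Real.exp_log (lt_of_lt_of_le one_pos (le_max_right _ _))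
  have hbig : ∀ V : ℝ, V0 ≤ V → ∫ v in (0:ℝ)..V, aa s v ≤ K * V := by
    intro V hV
    have h2 : x0 ≤ Real.exp V := by
      calc x0 ≤ max x0 1 := le_max_left _ _
        _ = Real.exp V0 := hex.symm
        _ ≤ _ := Real.exp_le_exp.mpr hV
    have h3 := hx0 _ h2
    rwa [subst s V (hV00.trans hV), Real.log_exp] at h3
  have hnn : ∀ V : ℝ, 0 ≤ V → 0 ≤ ∫ v in (0:ℝ)..V, aa s v := fun V hV =>
    intervalIntegral.integral_nonneg hV fun u _ => aa_nn s u
  have hK : 0 ≤ K := by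
    have h2 := hbig (V0 + 1) (by linarith)
    have h3 := hnn (V0 + 1) (by linarith)
    by_contra hneg
    push Not at hneg
    have : K * (V0 + 1) < 0 := mul_neg_of_neg_of_pos hneg (by linarith)
    linarith
  set C : ℝ := K * V0 with hC
  have hC0 : 0 ≤ C := by positivity
  have hA : ∀ V : ℝ, 0 ≤ V → ∫ v in (0:ℝ)..V, aa s v ≤ K * V + C := by
    intro V hV
    rcases le_total V0 V with h2 | h2
    · have := hbig V h2
      linarith
    · have h3 := hbig V0 le_rfl
      have h4 : ∫ v in (0:ℝ)..V, aa s v ≤ ∫ v in (0:ℝ)..V0, aa s v := by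
        rw [← intervalIntegral.integral_add_adjacent_intervals (aa_ii s V) ((aa_ii s V).symm.trans (aa_ii s V0))]
        have : 0 ≤ ∫ u in V..V0, aa s u :=
          intervalIntegral.integral_nonneg h2 fun u _ => aa_nn s u
        linarith
      have h5 : 0 ≤ K * V := by positivity
      linarith
  have haam : Measurable (aa s) := (ap_meas s).mul (by fun_prop)
  have e : ∀ η u : ℝ, aa s u * Real.exp (-(η * u)) = ap s u * Real.exp (-((-(1/2) + η) * u)) := by
    intro η u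
    unfold aa
    rw [mul_assoc, ← Real.exp_add]
    congr 2
    ring
  refine ⟨hK, C, fun η hη => ?_⟩
  have h2 : IntegrableOn (fun u => aa s u * Real.exp (-(η * u))) (Ioi 0) := by
    have h3 := H (-(1/2) + η) (by linarith)
    unfold LInt at h3
    exact h3.congr_fun (fun u _ => (e η u).symm) measurableSet_Ioi
  have h3 := laplace_sharp haam (aa_nn s) (fun V _ => aa_ii s V) hK hC0 hη hA h2
  have h4 : lap (ap s) (-(1/2) + η) = ∫ u in Ioi (0:ℝ), aa s u * Real.exp (-(η * u)) := by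
    unfold lap
    congr 1
    funext u
    exact (e η u).symm
  rw [h4]
  exact h3

/-- the transform on the real line -/
lemma lap_real {s : ℝ} (hs : s = 1 ∨ s = -1) (H : ∀ w > -(1/2:ℝ), LInt (ap s) w) {w : ℝ} (hw : -(1/2:ℝ) < w) :
    lap mm w = Rr w := by
  obtain ⟨hb1, hb2⟩ := one_sided H
  have h2 : lap (fun u => ap s u - bp s u) w = lap (ap s) w - lap (bp s) w := lap_sub (H w hw) (hb1 w hw)
  have h3 : (fun u => ap s u - bp s u) = fun u => s * mm u := by funext u; exact ap_bp s u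
  rw [h3, lap_const_mul, hb2 w hw] at h2
  have h4 : s * lap mm w = s * Rr w := by linarith
  rcases hs with h | h
  · rw [h, one_mul, one_mul] at h4
    exact h4
  · rw [h] at h4
    linarith

/-- the pole at a simple zero -/
lemma pole {s : ℝ} (hs : s = 1 ∨ s = -1) (H : ∀ w > -(1/2:ℝ), LInt (ap s) w) {ρ : ℂ} (hz : riemannZeta ρ = 0)
    (hre : ρ.re = 1 / 2) (hd : deriv riemannZeta ρ ≠ 0) :
    Tendsto (fun η : ℝ => (η : ℂ) * lapC mm (ρ + η - 1)) (𝓝[>] 0) (𝓝 (1 / (ρ * deriv riemannZeta ρ))) := by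
  set t : ℝ := ρ.im with ht
  have heρ : ρ = 1 / 2 + t * Complex.I := by
    apply Complex.ext
    · rw [hre]; simp
    · simp [ht]
  have hρ1 : ρ ≠ 1 := by
    intro h
    rw [h] at hre
    norm_num at hre
  have hρ0 : ρ ≠ 0 := by
    intro h
    rw [h] at hre
    norm_num at hre
  have ht0 : t ≠ 0 := by
    intro h3
    have h4 : ρ = ((1 / 2 : ℝ) : ℂ) := by
      rw [heρ, h3]; simp
    rw [h4] at hz
    exact zeta_real_ne (by norm_num) (by norm_num) hz
  have hLid : ∀ η : ℝ, 0 < η → (ρ + η) * riemannZeta (ρ + η) * lapC mm (ρ + η - 1) = 1 := by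
    intro η hη
    have hre' : (ρ + η - 1 : ℂ).re = -(1/2) + η := by
      rw [Complex.sub_re, Complex.add_re, hre]
      simp
      ring
    have h2 := ident hs H (z := ρ + η - 1) (by rw [hre']; linarith)
    have e1 : (1 + (ρ + η - 1) : ℂ) = ρ + η := by ring
    rw [e1] at h2
    have hz0 : (ρ + η - 1 : ℂ) ≠ 0 := by
      intro h3
      have := congrArg Complex.im h3
      simp at this
      exact ht0 this
    have hne1 : (ρ + η : ℂ) ≠ 1 := fun h3 => hz0 (by rw [h3]; ring)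
    rw [riemannZeta_eq_inv_sub_mul hne1]
    calc _ = (ρ + η - 1)⁻¹ * ((ρ + η) * riemannZeta₁ (ρ + η) * lapC mm (ρ + η - 1)) := by ring
      _ = 1 := by rw [h2, inv_mul_cancel₀ hz0]
  have hη : Tendsto (fun η : ℝ => ((η : ℂ))) (𝓝[>] 0) (𝓝[≠] 0) := by
    apply tendsto_nhdsWithin_of_tendsto_nhds_of_eventually_within
    · have : Tendsto (fun η : ℝ => (η : ℂ)) (𝓝 0) (𝓝 ((0:ℝ):ℂ)) := Complex.continuous_ofReal.tendsto 0
      exact (this.mono_left nhdsWithin_le_nhds)
    · filter_upwards [self_mem_nhdsWithin] with η hη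
      have : (0:ℝ) < η := hη
      show (η:ℂ) ≠ 0
      exact_mod_cast this.ne'
  have hη' : Tendsto (fun η : ℝ => ((η : ℂ))) (𝓝[>] 0) (𝓝 0) := hη.mono_right nhdsWithin_le_nhds
  have hslope := ((differentiableAt_riemannZeta hρ1).hasDerivAt).tendsto_slope_zero.comp hη
  have h2 : Tendsto (fun η : ℝ => (ρ + (η:ℂ)) * ((η:ℂ)⁻¹ • (riemannZeta (ρ + η) - riemannZeta ρ))) (𝓝[>] 0)
      (𝓝 ((ρ + 0) * deriv riemannZeta ρ)) := (tendsto_const_nhds.add hη').mul hslope
  rw [add_zero] at h2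
  have h3 := h2.inv₀ (mul_ne_zero hρ0 hd)
  rw [← one_div] at h3
  refine h3.congr' ?_
  filter_upwards [self_mem_nhdsWithin] with η hη
  have hη0 : (0:ℝ) < η := hη
  have hηc : (η:ℂ) ≠ 0 := by exact_mod_cast hη0.ne'
  have h4 := hLid η hη0
  rw [hz, sub_zero, smul_eq_mul]
  apply inv_eq_of_mul_eq_one_right
  calc ((ρ + η) * ((η:ℂ)⁻¹ * riemannZeta (ρ + η))) * ((η:ℂ) * lapC mm (ρ + η - 1)) =
      (η * (η:ℂ)⁻¹) * ((ρ + η) * riemannZeta (ρ + η) * lapC mm (ρ + η - 1)) := by ring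
    _ = 1 := by rw [h4, mul_inv_cancel₀ hηc, one_mul]

/-- **the explicit inequality**, by duality -/
theorem explicit {s K : ℝ} (hs : s = 1 ∨ s = -1)
    (h : ∀ᶠ x : ℝ in atTop, ∫ u in (1:ℝ)..x, max (s * MS u) 0 / u ^ (3 / 2 : ℝ) ≤ K * Real.log x)
    (Z : Finset ℂ) (hZ : ∀ ρ ∈ Z, riemannZeta ρ = 0 ∧ 0 < ρ.re ∧ ρ.re < 1) (a : ℂ → ℂ)
    (ha : ∀ u : ℝ, |(∑ ρ ∈ Z, a ρ * Complex.exp (-(ρ.im * u * Complex.I))).re| ≤ 1) :
    |(∑ ρ ∈ Z, a ρ / (ρ * deriv riemannZeta ρ)).re| ≤ 2 * K := by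
  have hyp : Hyp s 0 := ⟨K, by
    filter_upwards [h] with x hx
    rw [add_zero, Real.rpow_one]
    exact hx⟩
  obtain ⟨H, _⟩ := hyp_lap le_rfl zero_le_one hyp
  have hsimp := (main_alpha hs le_rfl zero_lt_one hyp).1
  obtain ⟨hK, C, hlap⟩ := lap_sharp h H
  -- the main inequality
  have hmain : ∀ σ : ℝ, σ = 1 ∨ σ = -1 → ∀ η : ℝ, 0 < η →
      s * lap mm (-(1/2) + η) + s * (σ * (∑ ρ ∈ Z, a ρ * lapC mm (ρ + η - 1)).re) ≤ 2 * (K / η + C) := by
    intro σ hσ η hη
    have hwη : -(1/2:ℝ) < -(1/2) + η := by linarith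
    have hI := mm_LInt' hs H hwη
    have hI' : Integrable (fun u : ℝ => mm u * Real.exp (-((-(1/2) + η) * u))) (volume.restrict (Ioi 0)) := hI
    have hH' : Integrable (fun u : ℝ => ap s u * Real.exp (-((-(1/2) + η) * u))) (volume.restrict (Ioi 0)) := H _ hwη
    have hIc : ∀ ρ ∈ Z, IntegrableOn (fun u : ℝ => a ρ * ((mm u : ℂ) * Complex.exp (-((ρ + η - 1) * u)))) (Ioi 0) := by
      intro ρ hρ
      have hre := (hsimp ρ (hZ ρ hρ).1 (hZ ρ hρ).2.1 (hZ ρ hρ).2.2).1
      apply Integrable.const_mul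
      apply LInt.complex measurable_mm
      have hre' : (ρ + η - 1 : ℂ).re = -(1/2) + η := by
        rw [Complex.sub_re, Complex.add_re, hre]
        simp
        ring
      rw [hre']
      exact hI
    have hIs : IntegrableOn (fun u : ℝ => ∑ ρ ∈ Z, a ρ * ((mm u : ℂ) * Complex.exp (-((ρ + η - 1) * u)))) (Ioi 0) :=
      integrable_finset_sum _ hIc
    have e1 : s * (σ * (∑ ρ ∈ Z, a ρ * lapC mm (ρ + η - 1)).re) =
        ∫ u in Ioi (0:ℝ), s * (σ * (∑ ρ ∈ Z, a ρ * ((mm u : ℂ) * Complex.exp (-((ρ + η - 1) * u)))).re) := by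
      have h2 := (Complex.reCLM.integral_comp_comm hIs)
      simp only [Complex.reCLM_apply] at h2
      have hsum : (∑ ρ ∈ Z, a ρ * lapC mm (ρ + η - 1)) =
          ∑ ρ ∈ Z, ∫ u in Ioi (0:ℝ), a ρ * ((mm u : ℂ) * Complex.exp (-((ρ + η - 1) * u))) :=
        Finset.sum_congr rfl fun ρ _ => (integral_const_mul _ _).symm
      rw [integral_const_mul, integral_const_mul, h2, integral_finset_sum _ hIc, hsum]
    have e2 : s * lap mm (-(1/2) + η) = ∫ u in Ioi (0:ℝ), s * (mm u * Real.exp (-((-(1/2) + η) * u))) := by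
      unfold lap
      rw [integral_const_mul]
    have hI2 : IntegrableOn (fun u : ℝ => s * (mm u * Real.exp (-((-(1/2) + η) * u)))) (Ioi 0) := hI'.const_mul s
    have hI3 : IntegrableOn (fun u : ℝ => s * (σ * (∑ ρ ∈ Z, a ρ * ((mm u : ℂ) * Complex.exp (-((ρ + η - 1) * u)))).re)) (Ioi 0) :=
      ((hIs.re).const_mul σ).const_mul s
    rw [e1, e2, ← integral_add hI2 hI3]
    have hI4 : IntegrableOn (fun u => 2 * (ap s u * Real.exp (-((-(1/2) + η) * u)))) (Ioi 0) :=
      hH'.const_mul 2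
    have h5 : ∫ u in Ioi (0:ℝ), 2 * (ap s u * Real.exp (-((-(1/2) + η) * u))) ≤ 2 * (K / η + C) := by
      rw [integral_const_mul]
      exact mul_le_mul_of_nonneg_left (hlap η hη) (by norm_num)
    refine le_trans (setIntegral_mono_on (hI2.add hI3) hI4 measurableSet_Ioi fun u hu => ?_) h5
    have hE : (∑ ρ ∈ Z, a ρ * ((mm u : ℂ) * Complex.exp (-((ρ + η - 1) * u)))).re =
        mm u * Real.exp (-((-(1/2) + η) * u)) * (∑ ρ ∈ Z, a ρ * Complex.exp (-(ρ.im * u * Complex.I))).re := by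
      rw [← Complex.re_ofReal_mul, Finset.mul_sum]
      congr 1
      refine Finset.sum_congr rfl fun ρ hρ => ?_
      have hre := (hsimp ρ (hZ ρ hρ).1 (hZ ρ hρ).2.1 (hZ ρ hρ).2.2).1
      have heρ : ρ = 1 / 2 + ρ.im * Complex.I := by
        apply Complex.ext
        · rw [hre]; simp
        · simp
      have h6 : Complex.exp (-((ρ + η - 1) * u)) =
          ((Real.exp (-((-(1/2) + η) * u)) : ℝ) : ℂ) * Complex.exp (-(ρ.im * u * Complex.I)) := by
        rw [Complex.ofReal_exp, ← Complex.exp_add]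
        congr 1
        have h7 : (ρ + η - 1) * (u:ℂ) = (1 / 2 + ρ.im * Complex.I + η - 1) * u := by
          conv_lhs => rw [heρ]
        rw [h7]
        push_cast
        ring
      rw [h6]
      push_cast
      ring
    set p : ℝ := (∑ ρ ∈ Z, a ρ * Complex.exp (-(ρ.im * u * Complex.I))).re with hp
    have hpn := ha u
    rw [← hp] at hpn
    rw [hE]
    have hσp : |σ * p| ≤ 1 := by
      rw [abs_mul]
      rcases hσ with h | h <;> · rw [h]; simpa using hpn
    have hp' := abs_le.mp hσp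
    have hexp := Real.exp_pos (-((-(1/2) + η) * u))
    have h6 : s * mm u * (1 + σ * p) ≤ 2 * ap s u := by
      have h7 : s * mm u ≤ ap s u := le_max_left _ _
      have h8 := ap_nn s u
      calc s * mm u * (1 + σ * p) ≤ ap s u * (1 + σ * p) := mul_le_mul_of_nonneg_right h7 (by linarith)
        _ ≤ ap s u * 2 := mul_le_mul_of_nonneg_left (by linarith) h8
        _ = _ := by ring
    calc s * (mm u * Real.exp (-((-(1/2) + η) * u))) + s * (σ * (mm u * Real.exp (-((-(1/2) + η) * u)) * p)) =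
        (s * mm u * (1 + σ * p)) * Real.exp (-((-(1/2) + η) * u)) := by ring
      _ ≤ (2 * ap s u) * Real.exp (-((-(1/2) + η) * u)) := mul_le_mul_of_nonneg_right h6 hexp.le
      _ = _ := by ring
  -- the limit
  have hηr : Tendsto (fun η : ℝ => η) (𝓝[>] 0) (𝓝 0) := tendsto_id.mono_left nhdsWithin_le_nhds
  have hRr : Tendsto (fun η : ℝ => Rr (-(1/2) + η)) (𝓝[>] 0) (𝓝 (Rr (-(1/2) + 0))) := by
    have h2 : ContinuousAt Rr (-(1/2) + 0) := (Rr_analyticAt (by norm_num)).continuousAt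
    exact h2.tendsto.comp (tendsto_const_nhds.add hηr)
  have hlim : Tendsto (fun η : ℝ => ∑ ρ ∈ Z, a ρ * ((η : ℂ) * lapC mm (ρ + η - 1))) (𝓝[>] 0)
      (𝓝 (∑ ρ ∈ Z, a ρ * (1 / (ρ * deriv riemannZeta ρ)))) := by
    apply tendsto_finset_sum
    intro ρ hρ
    obtain ⟨h1, h2, h3⟩ := hZ ρ hρ
    obtain ⟨h4, h5⟩ := hsimp ρ h1 h2 h3
    exact (pole hs H h1 h4 h5).const_mul (a ρ)
  set S : ℂ := ∑ ρ ∈ Z, a ρ * (1 / (ρ * deriv riemannZeta ρ)) with hS
  have hkey : ∀ σ : ℝ, σ = 1 ∨ σ = -1 → s * (σ * S.re) ≤ 2 * K := by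
    intro σ hσ
    have hL : Tendsto (fun η : ℝ => s * (η * Rr (-(1/2) + η)) +
        s * (σ * (∑ ρ ∈ Z, a ρ * ((η : ℂ) * lapC mm (ρ + η - 1))).re))
        (𝓝[>] 0) (𝓝 (s * (0 * Rr (-(1/2) + 0)) + s * (σ * S.re))) :=
      ((hηr.mul hRr).const_mul s).add
        ((((Complex.continuous_re.tendsto _).comp hlim).const_mul σ).const_mul s)
    have hR : Tendsto (fun η : ℝ => 2 * (K + C * η)) (𝓝[>] 0) (𝓝 (2 * (K + C * 0))) :=
      (tendsto_const_nhds.add (hηr.const_mul C)).const_mul 2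
    have hfin := le_of_tendsto_of_tendsto hL hR (by
      filter_upwards [self_mem_nhdsWithin] with η hη
      have hη0 : (0:ℝ) < η := hη
      have h2 := hmain σ hσ η hη0
      rw [lap_real hs H (by linarith : -(1/2:ℝ) < -(1/2) + η)] at h2
      have h3 : (∑ ρ ∈ Z, a ρ * ((η : ℂ) * lapC mm (ρ + η - 1))).re = η * (∑ ρ ∈ Z, a ρ * lapC mm (ρ + η - 1)).re := by
        rw [← Complex.re_ofReal_mul, Finset.mul_sum]
        congr 1
        refine Finset.sum_congr rfl fun ρ _ => ?_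
        ring
      rw [h3]
      have h4 := mul_le_mul_of_nonneg_left h2 hη0.le
      calc _ = η * (s * Rr (-(1/2) + η) + s * (σ * (∑ ρ ∈ Z, a ρ * lapC mm (ρ + η - 1)).re)) := by ring
        _ ≤ η * (2 * (K / η + C)) := h4
        _ = _ := by field_simp)
    linarith
  have hSe : (∑ ρ ∈ Z, a ρ / (ρ * deriv riemannZeta ρ)) = S := by
    rw [hS]
    refine Finset.sum_congr rfl fun ρ _ => ?_
    rw [mul_one_div]
  rw [hSe]
  have h1 := hkey 1 (Or.inl rfl)
  have h2 := hkey (-1) (Or.inr rfl)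
  rcases hs with h | h
  · rw [h] at h1 h2
    exact abs_le.mpr ⟨by linarith, by linarith⟩
  · rw [h] at h1 h2
    exact abs_le.mpr ⟨by linarith, by linarith⟩

/-- one zero -/
theorem explicit_one {s K : ℝ} (hs : s = 1 ∨ s = -1)
    (h : ∀ᶠ x : ℝ in atTop, ∫ u in (1:ℝ)..x, max (s * MS u) 0 / u ^ (3 / 2 : ℝ) ≤ K * Real.log x)
    {ρ : ℂ} (hz : riemannZeta ρ = 0) (h0 : 0 < ρ.re) (h1 : ρ.re < 1) :
    ρ.re = 1 / 2 ∧ deriv riemannZeta ρ ≠ 0 ∧ 1 ≤ 2 * K * ‖ρ * deriv riemannZeta ρ‖ := by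
  have hyp : Hyp s 0 := ⟨K, by
    filter_upwards [h] with x hx
    rw [add_zero, Real.rpow_one]
    exact hx⟩
  obtain ⟨hre, hd⟩ := (main_alpha hs le_rfl zero_lt_one hyp).1 ρ hz h0 h1
  refine ⟨hre, hd, ?_⟩
  have hρ0 : ρ ≠ 0 := by
    intro h
    rw [h] at h0
    simp at h0
  set c : ℂ := 1 / (ρ * deriv riemannZeta ρ) with hc
  have h4 : 0 < ‖ρ * deriv riemannZeta ρ‖ := norm_pos_iff.mpr (mul_ne_zero hρ0 hd)
  have hcn : 0 < ‖c‖ := by
    rw [hc, norm_div, norm_one]
    positivity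
  set w : ℂ := (starRingEnd ℂ) c / ‖c‖ with hw
  have hwn : ‖w‖ = 1 := by
    rw [hw, norm_div, Complex.norm_conj, Complex.norm_real, norm_norm, div_self hcn.ne']
  have hwc : w * c = ‖c‖ := by
    rw [hw]
    have h2 : (starRingEnd ℂ) c * c = (‖c‖ : ℂ) ^ 2 := by
      rw [mul_comm, Complex.mul_conj, Complex.normSq_eq_norm_sq]
      push_cast
      rfl
    have h3 : (‖c‖ : ℂ) ≠ 0 := by exact_mod_cast hcn.ne'
    calc (starRingEnd ℂ) c / ‖c‖ * c = ((starRingEnd ℂ) c * c) / ‖c‖ := by ring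
      _ = _ := by rw [h2]; field_simp
  have h5 := explicit hs h {ρ} (fun ρ' hρ' => by
    rw [Finset.mem_singleton] at hρ'
    rw [hρ']
    exact ⟨hz, h0, h1⟩) (fun _ => w) (fun u => by
    rw [Finset.sum_singleton]
    refine (Complex.abs_re_le_norm _).trans ?_
    rw [norm_mul, hwn, one_mul, Complex.norm_exp]
    simp)
  rw [Finset.sum_singleton, ← mul_one_div, ← hc, hwc, Complex.ofReal_re, abs_of_pos hcn, hc, norm_div, norm_one,
    div_le_iff₀ h4] at h5
  exact h5

end Pool.Agent.TH299.GO
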