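import Mathlib
import Pool.Agent.TH299.GO.E1

/-! The explicit inequality for all trigonometric polynomials. -/

set_option autoImplicit false

namespace Pool.Agent.TH299.GO

open MeasureTheory ProbabilityTheory Filter Topology Set
open Pool.Agent.W263.BSD
open Pool.Agent.H409R2.MZ.PNT (mm MM laplace_mm measurable_mm abs_mm_le)

/-- no pole where `ζ` does not vanish -/
lemma nopole {s : ℝ} (hs : s = 1 ∨ s = -1) (H : ∀ w > -(1/2:ℝ), LInt (ap s) w) {ρ : ℂ} (hz : riemannZeta ρ ≠ 0)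
    (hre : ρ.re = 1 / 2) :
    Tendsto (fun η : ℝ => (η : ℂ) * lapC mm (ρ + η - 1)) (𝓝[>] 0) (𝓝 0) := by
  have hρ1 : ρ ≠ 1 := by
    intro h
    rw [h] at hre
    norm_num at hre
  have hρ0 : ρ ≠ 0 := by
    intro h
    rw [h] at hre
    norm_num at hre
  have hz1 : riemannZeta₁ ρ ≠ 0 := by
    intro h
    apply hz
    rw [riemannZeta_eq_inv_sub_mul hρ1, h, mul_zero]
  have hη' : Tendsto (fun η : ℝ => ((η : ℂ))) (𝓝[>] 0) (𝓝 0) := by
    have : Tendsto (fun η : ℝ => (η : ℂ)) (𝓝 0) (𝓝 ((0:ℝ):ℂ)) := Complex.continuous_ofReal.tendsto 0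
    exact (this.mono_left nhdsWithin_le_nhds)
  have hadd : Tendsto (fun η : ℝ => ρ + (η : ℂ)) (𝓝[>] 0) (𝓝 ρ) := by
    have := (tendsto_const_nhds (x := ρ)).add hη'
    rwa [add_zero] at this
  have hD : Tendsto (fun η : ℝ => (ρ + (η : ℂ)) * riemannZeta₁ (ρ + η)) (𝓝[>] 0) (𝓝 (ρ * riemannZeta₁ ρ)) :=
    hadd.mul ((differentiable_riemannZeta₁.continuous.tendsto ρ).comp hadd)
  have hD0 : ρ * riemannZeta₁ ρ ≠ 0 := mul_ne_zero hρ0 hz1
  have hlim : Tendsto (fun η : ℝ => (η : ℂ) * ((ρ + (η : ℂ) - 1) / ((ρ + (η : ℂ)) * riemannZeta₁ (ρ + η)))) (𝓝[>] 0)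
      (𝓝 (0 * ((ρ - 1) / (ρ * riemannZeta₁ ρ)))) :=
    hη'.mul ((hadd.sub tendsto_const_nhds).div hD hD0)
  rw [zero_mul] at hlim
  refine hlim.congr' ?_
  filter_upwards [self_mem_nhdsWithin, hD.eventually_ne hD0] with η hη hne
  have hη0 : (0:ℝ) < η := hη
  have hre' : (ρ + η - 1 : ℂ).re = -(1/2) + η := by
    rw [Complex.sub_re, Complex.add_re, hre]
    simp
    ring
  have h2 := ident hs H (z := ρ + η - 1) (by rw [hre']; linarith)
  have e1 : (1 + (ρ + η - 1) : ℂ) = ρ + η := by ring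
  rw [e1] at h2
  congr 1
  rw [div_eq_iff hne, mul_comm]
  exact h2.symm

open Classical in
/-- the mean value of `M(u) u^(-1/2) e^(-iθ log u)`, under the hypothesis -/
noncomputable def cc (θ : ℝ) : ℂ :=
  if riemannZeta (1 / 2 + θ * Complex.I) = 0 then
    1 / ((1 / 2 + θ * Complex.I) * deriv riemannZeta (1 / 2 + θ * Complex.I)) else 0

/-- the point `1/2 + iθ` -/
noncomputable def pp (θ : ℝ) : ℂ := 1 / 2 + θ * Complex.I

lemma pp_re (θ : ℝ) : (pp θ).re = 1 / 2 := by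
  unfold pp
  simp

/-- **the explicit inequality**, by duality -/
theorem explicit_gen {s K : ℝ} (hs : s = 1 ∨ s = -1)
    (h : ∀ᶠ x : ℝ in atTop, ∫ u in (1:ℝ)..x, max (s * MS u) 0 / u ^ (3 / 2 : ℝ) ≤ K * Real.log x)
    (Z : Finset ℝ) (a : ℝ → ℂ)
    (ha : ∀ u : ℝ, |(∑ θ ∈ Z, a θ * Complex.exp (-(θ * u * Complex.I))).re| ≤ 1) :
    |(∑ θ ∈ Z, a θ * cc θ).re| ≤ 2 * K := by
  have hyp : Hyp s 0 := ⟨K, by
    filter_upwards [h] with x hx
    rw [add_zero, Real.rpow_one]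
    exact hx⟩
  obtain ⟨H, _⟩ := hyp_lap le_rfl zero_le_one hyp
  have hsimp := (main_alpha hs le_rfl zero_lt_one hyp).1
  obtain ⟨hK, C, hlap⟩ := lap_sharp h H
  -- the main inequality
  have hmain : ∀ σ : ℝ, σ = 1 ∨ σ = -1 → ∀ η : ℝ, 0 < η →
      s * lap mm (-(1/2) + η) + s * (σ * (∑ ρ ∈ Z, a ρ * lapC mm (pp ρ + η - 1)).re) ≤ 2 * (K / η + C) := by
    intro σ hσ η hη
    have hwη : -(1/2:ℝ) < -(1/2) + η := by linarith
    have hI := mm_LInt' hs H hwη
    have hI' : Integrable (fun u : ℝ => mm u * Real.exp (-((-(1/2) + η) * u))) (volume.restrict (Ioi 0)) := hI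
    have hH' : Integrable (fun u : ℝ => ap s u * Real.exp (-((-(1/2) + η) * u))) (volume.restrict (Ioi 0)) := H _ hwη
    have hIc : ∀ ρ ∈ Z, IntegrableOn (fun u : ℝ => a ρ * ((mm u : ℂ) * Complex.exp (-((pp ρ + η - 1) * u)))) (Ioi 0) := by
      intro ρ hρ
      apply Integrable.const_mul
      apply LInt.complex measurable_mm
      have hre' : (pp ρ + η - 1 : ℂ).re = -(1/2) + η := by
        rw [Complex.sub_re, Complex.add_re, pp_re]
        simp
        ring
      rw [hre']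
      exact hI
    have hIs : IntegrableOn (fun u : ℝ => ∑ ρ ∈ Z, a ρ * ((mm u : ℂ) * Complex.exp (-((pp ρ + η - 1) * u)))) (Ioi 0) :=
      integrable_finsetSum _ hIc
    have e1 : s * (σ * (∑ ρ ∈ Z, a ρ * lapC mm (pp ρ + η - 1)).re) =
        ∫ u in Ioi (0:ℝ), s * (σ * (∑ ρ ∈ Z, a ρ * ((mm u : ℂ) * Complex.exp (-((pp ρ + η - 1) * u)))).re) := by
      have h2 := (Complex.reCLM.integral_comp_comm hIs)
      simp only [Complex.reCLM_apply] at h2
      have hsum : (∑ ρ ∈ Z, a ρ * lapC mm (pp ρ + η - 1)) =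
          ∑ ρ ∈ Z, ∫ u in Ioi (0:ℝ), a ρ * ((mm u : ℂ) * Complex.exp (-((pp ρ + η - 1) * u))) :=
        Finset.sum_congr rfl fun ρ _ => (integral_const_mul _ _).symm
      rw [integral_const_mul, integral_const_mul, h2, integral_finsetSum _ hIc, hsum]
    have e2 : s * lap mm (-(1/2) + η) = ∫ u in Ioi (0:ℝ), s * (mm u * Real.exp (-((-(1/2) + η) * u))) := by
      unfold lap
      rw [integral_const_mul]
    have hI2 : IntegrableOn (fun u : ℝ => s * (mm u * Real.exp (-((-(1/2) + η) * u)))) (Ioi 0) := hI'.const_mul s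
    have hI3 : IntegrableOn (fun u : ℝ => s * (σ * (∑ ρ ∈ Z, a ρ * ((mm u : ℂ) * Complex.exp (-((pp ρ + η - 1) * u)))).re)) (Ioi 0) :=
      ((hIs.re).const_mul σ).const_mul s
    rw [e1, e2, ← integral_add hI2 hI3]
    have hI4 : IntegrableOn (fun u => 2 * (ap s u * Real.exp (-((-(1/2) + η) * u)))) (Ioi 0) :=
      hH'.const_mul 2
    have h5 : ∫ u in Ioi (0:ℝ), 2 * (ap s u * Real.exp (-((-(1/2) + η) * u))) ≤ 2 * (K / η + C) := by
      rw [integral_const_mul]
      exact mul_le_mul_of_nonneg_left (hlap η hη) (by norm_num)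
    refine le_trans (setIntegral_mono_on (hI2.add hI3) hI4 measurableSet_Ioi fun u hu => ?_) h5
    have hE : (∑ ρ ∈ Z, a ρ * ((mm u : ℂ) * Complex.exp (-((pp ρ + η - 1) * u)))).re =
        mm u * Real.exp (-((-(1/2) + η) * u)) * (∑ ρ ∈ Z, a ρ * Complex.exp (-(ρ * u * Complex.I))).re := by
      rw [← Complex.re_ofReal_mul, Finset.mul_sum]
      congr 1
      refine Finset.sum_congr rfl fun ρ hρ => ?_
      have h6 : Complex.exp (-((pp ρ + η - 1) * u)) =
          ((Real.exp (-((-(1/2) + η) * u)) : ℝ) : ℂ) * Complex.exp (-(ρ * u * Complex.I)) := by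
        rw [Complex.ofReal_exp, ← Complex.exp_add]
        congr 1
        unfold pp
        push_cast
        ring
      rw [h6]
      push_cast
      ring
    set p : ℝ := (∑ ρ ∈ Z, a ρ * Complex.exp (-(ρ * u * Complex.I))).re with hp
    have hpn := ha u
    rw [← hp] at hpn
    rw [hE]
    have hσp : |σ * p| ≤ 1 := by
      rw [abs_mul]
      rcases hσ with h | h <;> · rw [h]; simpa using hpn
    have hp' := abs_le.mp hσp
    have hexp := Real.exp_pos (-((-(1/2) + η) * u))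
    have h6 : s * mm u * (1 + σ * p) ≤ 2 * ap s u := by
      have h7 : s * mm u ≤ ap s u := le_max_left _ _
      have h8 := ap_nn s u
      calc s * mm u * (1 + σ * p) ≤ ap s u * (1 + σ * p) := mul_le_mul_of_nonneg_right h7 (by linarith)
        _ ≤ ap s u * 2 := mul_le_mul_of_nonneg_left (by linarith) h8
        _ = _ := by ring
    calc s * (mm u * Real.exp (-((-(1/2) + η) * u))) + s * (σ * (mm u * Real.exp (-((-(1/2) + η) * u)) * p)) =
        (s * mm u * (1 + σ * p)) * Real.exp (-((-(1/2) + η) * u)) := by ring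
      _ ≤ (2 * ap s u) * Real.exp (-((-(1/2) + η) * u)) := mul_le_mul_of_nonneg_right h6 hexp.le
      _ = _ := by ring
  -- the limit
  have hηr : Tendsto (fun η : ℝ => η) (𝓝[>] 0) (𝓝 0) := tendsto_id.mono_left nhdsWithin_le_nhds
  have hRr : Tendsto (fun η : ℝ => Rr (-(1/2) + η)) (𝓝[>] 0) (𝓝 (Rr (-(1/2) + 0))) := by
    have h2 : ContinuousAt Rr (-(1/2) + 0) := (Rr_analyticAt (by norm_num)).continuousAt
    exact h2.tendsto.comp (tendsto_const_nhds.add hηr)
  have hlim : Tendsto (fun η : ℝ => ∑ ρ ∈ Z, a ρ * ((η : ℂ) * lapC mm (pp ρ + η - 1))) (𝓝[>] 0)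
      (𝓝 (∑ ρ ∈ Z, a ρ * cc ρ)) := by
    apply tendsto_finsetSum
    intro ρ hρ
    apply Tendsto.const_mul
    by_cases hzero : riemannZeta (pp ρ) = 0
    · obtain ⟨h4, h5⟩ := hsimp (pp ρ) hzero (by rw [pp_re]; norm_num) (by rw [pp_re]; norm_num)
      have h6 := pole hs H hzero h4 h5
      have h7 : cc ρ = 1 / (pp ρ * deriv riemannZeta (pp ρ)) := by
        unfold cc
        exact if_pos hzero
      rw [h7]
      exact h6
    · have h7 : cc ρ = 0 := by
        unfold cc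
        exact if_neg hzero
      rw [h7]
      exact nopole hs H hzero (pp_re ρ)
  set S : ℂ := ∑ ρ ∈ Z, a ρ * cc ρ with hS
  have hkey : ∀ σ : ℝ, σ = 1 ∨ σ = -1 → s * (σ * S.re) ≤ 2 * K := by
    intro σ hσ
    have hL : Tendsto (fun η : ℝ => s * (η * Rr (-(1/2) + η)) +
        s * (σ * (∑ ρ ∈ Z, a ρ * ((η : ℂ) * lapC mm (pp ρ + η - 1))).re))
        (𝓝[>] 0) (𝓝 (s * (0 * Rr (-(1/2) + 0)) + s * (σ * S.re))) :=
      ((hηr.mul hRr).const_mul s).add
        ((((Complex.continuous_re.tendsto _).comp hlim).const_mul σ).const_mul s)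
    have hR : Tendsto (fun η : ℝ => 2 * (K + C * η)) (𝓝[>] 0) (𝓝 (2 * (K + C * 0))) :=
      (tendsto_const_nhds.add (hηr.const_mul C)).const_mul 2
    have hfin := le_of_tendsto_of_tendsto hL hR (by
      filter_upwards [self_mem_nhdsWithin] with η hη
      have hη0 : (0:ℝ) < η := hη
      have h2 := hmain σ hσ η hη0
      rw [lap_real hs H (by linarith : -(1/2:ℝ) < -(1/2) + η)] at h2
      have h3 : (∑ ρ ∈ Z, a ρ * ((η : ℂ) * lapC mm (pp ρ + η - 1))).re = η * (∑ ρ ∈ Z, a ρ * lapC mm (pp ρ + η - 1)).re := by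
        rw [← Complex.re_ofReal_mul, Finset.mul_sum]
        congr 1
        refine Finset.sum_congr rfl fun ρ _ => ?_
        ring
      rw [h3]
      have h4 := mul_le_mul_of_nonneg_left h2 hη0.le
      calc _ = η * (s * Rr (-(1/2) + η) + s * (σ * (∑ ρ ∈ Z, a ρ * lapC mm (pp ρ + η - 1)).re)) := by ring
        _ ≤ η * (2 * (K / η + C)) := h4
        _ = _ := by field_simp)
    linarith
  have h1 := hkey 1 (Or.inl rfl)
  have h2 := hkey (-1) (Or.inr rfl)
  rcases hs with h | h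
  · rw [h] at h1 h2
    exact abs_le.mpr ⟨by linarith, by linarith⟩
  · rw [h] at h1 h2
    exact abs_le.mpr ⟨by linarith, by linarith⟩

end Pool.Agent.TH299.GO
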