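import Mathlib
import Pool.Agent.TH299.GO.E2

/-! Riesz products: square sums over dissociate sets of ordinates. -/

set_option autoImplicit false

namespace Pool.Agent.TH299.GO

open MeasureTheory ProbabilityTheory Filter Topology Set
open Pool.Agent.W263.BSD
open Pool.Agent.H409R2.MZ.PNT (mm MM laplace_mm measurable_mm abs_mm_le)

theorem explicit_idx {ι : Type} {s K : ℝ} (hs : s = 1 ∨ s = -1)
    (h : ∀ᶠ x : ℝ in atTop, ∫ u in (1:ℝ)..x, max (s * MS u) 0 / u ^ (3 / 2 : ℝ) ≤ K * Real.log x)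
    (Z : Finset ι) (θ : ι → ℝ) (a : ι → ℂ)
    (ha : ∀ u : ℝ, |(∑ i ∈ Z, a i * Complex.exp (-(θ i * u * Complex.I))).re| ≤ 1) :
    |(∑ i ∈ Z, a i * cc (θ i)).re| ≤ 2 * K := by
  classical
  have key : ∀ F : ℝ → ℂ, ∑ t ∈ Z.image θ, (∑ i ∈ Z with θ i = t, a i) * F t = ∑ i ∈ Z, a i * F (θ i) := by
    intro F
    rw [← Finset.sum_fiberwise_of_maps_to (g := θ) (t := Z.image θ) (fun i hi => Finset.mem_image_of_mem θ hi)]
    refine Finset.sum_congr rfl fun t _ => ?_
    rw [Finset.sum_mul]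
    refine Finset.sum_congr rfl fun i hi => ?_
    rw [(Finset.mem_filter.mp hi).2]
  have h2 := explicit_gen hs h (Z.image θ) (fun t => ∑ i ∈ Z with θ i = t, a i) (fun u => by
    rw [key (fun t => Complex.exp (-(t * u * Complex.I)))]
    exact ha u)
  rw [key cc] at h2
  exact h2

lemma cc_lim {s : ℝ} (hs : s = 1 ∨ s = -1) (H : ∀ w > -(1/2:ℝ), LInt (ap s) w) (hsimp : AllSimple) (θ : ℝ) :
    Tendsto (fun η : ℝ => (η : ℂ) * lapC mm (pp θ + η - 1)) (𝓝[>] 0) (𝓝 (cc θ)) := by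
  by_cases hzero : riemannZeta (pp θ) = 0
  · obtain ⟨h4, h5⟩ := hsimp (pp θ) hzero (by rw [pp_re]; norm_num) (by rw [pp_re]; norm_num)
    have h6 := pole hs H hzero h4 h5
    have h7 : cc θ = 1 / (pp θ * deriv riemannZeta (pp θ)) := by
      unfold cc
      exact if_pos hzero
    rw [h7]
    exact h6
  · have h7 : cc θ = 0 := by
      unfold cc
      exact if_neg hzero
    rw [h7]
    exact nopole hs H hzero (pp_re θ)

lemma lapC_conj (z : ℂ) : lapC mm ((starRingEnd ℂ) z) = (starRingEnd ℂ) (lapC mm z) := by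
  unfold lapC
  rw [← integral_conj]
  refine integral_congr_ae (ae_of_all _ fun u => ?_)
  simp only [map_mul, Complex.conj_ofReal, ← Complex.exp_conj, map_neg]

lemma cc_conj {s : ℝ} (hs : s = 1 ∨ s = -1) (H : ∀ w > -(1/2:ℝ), LInt (ap s) w) (hsimp : AllSimple) (θ : ℝ) :
    cc (-θ) = (starRingEnd ℂ) (cc θ) := by
  have h1 := cc_lim hs H hsimp (-θ)
  have h2 := (Complex.continuous_conj.tendsto _).comp (cc_lim hs H hsimp θ)
  refine tendsto_nhds_unique h1 (h2.congr fun η => ?_)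
  simp only [Function.comp]
  rw [map_mul, Complex.conj_ofReal, ← lapC_conj]
  congr 2
  unfold pp
  simp
  exact map_ofNat (starRingEnd ℂ) 2

lemma cc_zero : cc 0 = 0 := by
  unfold cc
  apply if_neg
  have : (1 / 2 + ((0:ℝ):ℂ) * Complex.I) = ((1 / 2 : ℝ) : ℂ) := by simp
  rw [this]
  exact zeta_real_ne (by norm_num) (by norm_num)

/-- the sum over sign patterns reduces to the patterns with one sign -/
lemma sum_patterns {N : ℕ} (A : Fin N → ℤ → ℂ) (hA : ∀ j, A j 0 = 1) (γ : Fin N → ℝ)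
    (hdis : ∀ ε : Fin N → ℤ, (∀ j, ε j = 0 ∨ ε j = 1 ∨ ε j = -1) → (∃ i j, i ≠ j ∧ ε i ≠ 0 ∧ ε j ≠ 0) →
      riemannZeta (1 / 2 + ((∑ j, (ε j : ℝ) * γ j : ℝ) : ℂ) * Complex.I) ≠ 0) :
    ∑ ε ∈ Fintype.piFinset (fun _ : Fin N => ({0, 1, -1} : Finset ℤ)),
      (∏ j, A j (ε j)) * cc (∑ j, (ε j : ℝ) * γ j) = ∑ j, (A j 1 * cc (γ j) + A j (-1) * cc (-γ j)) := by
  classical
  set S : Finset (Fin N × ℤ) := Finset.univ ×ˢ ({1, -1} : Finset ℤ) with hS
  set φ : Fin N × ℤ → (Fin N → ℤ) := fun p => Pi.single p.1 p.2 with hφ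
  have hSne : ∀ p ∈ S, p.2 ≠ 0 := by
    intro p hp
    rw [hS, Finset.mem_product] at hp
    have := hp.2
    simp only [Finset.mem_insert, Finset.mem_singleton] at this
    rcases this with h | h <;> rw [h] <;> norm_num
  have hinj : Set.InjOn φ (S : Set (Fin N × ℤ)) := by
    intro p hp q hq hpq
    have hp0 := hSne p hp
    have h1 := congrFun hpq p.1
    simp only [hφ, Pi.single_eq_same] at h1
    have h2 : p.1 = q.1 := by
      by_contra hne
      rw [Pi.single_eq_of_ne hne] at h1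
      exact hp0 h1
    rw [h2, Pi.single_eq_same] at h1
    exact Prod.ext h2 h1
  have hsub : S.image φ ⊆ Fintype.piFinset (fun _ : Fin N => ({0, 1, -1} : Finset ℤ)) := by
    intro ε hε
    obtain ⟨p, hp, rfl⟩ := Finset.mem_image.mp hε
    rw [Fintype.mem_piFinset]
    intro j
    by_cases hj : j = p.1
    · rw [hj]
      simp only [hφ, Pi.single_eq_same]
      rw [hS, Finset.mem_product] at hp
      exact Finset.mem_insert_of_mem hp.2
    · simp only [hφ]
      rw [Pi.single_eq_of_ne hj]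
      exact Finset.mem_insert_self _ _
  rw [← Finset.sum_subset hsub]
  · rw [Finset.sum_image hinj, hS, Finset.sum_product]
    refine Finset.sum_congr rfl fun i _ => ?_
    have hval : ∀ e : ℤ, (∏ j, A j (φ (i, e) j)) * cc (∑ j, (φ (i, e) j : ℝ) * γ j) = A i e * cc (e * γ i) := by
      intro e
      congr 1
      · rw [Finset.prod_eq_single i]
        · simp only [hφ, Pi.single_eq_same]
        · intro j _ hj
          simp only [hφ]
          rw [Pi.single_eq_of_ne hj, hA]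
        · intro h
          exact absurd (Finset.mem_univ i) h
      · congr 1
        rw [Finset.sum_eq_single i]
        · simp only [hφ, Pi.single_eq_same]
        · intro j _ hj
          simp only [hφ]
          rw [Pi.single_eq_of_ne hj]
          simp
        · intro h
          exact absurd (Finset.mem_univ i) h
    rw [Finset.sum_insert (by decide), Finset.sum_singleton, hval, hval]
    congr 2
    · simp
    · simp
  · intro ε hε hnot
    rw [Fintype.mem_piFinset] at hε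
    have hε' : ∀ j, ε j = 0 ∨ ε j = 1 ∨ ε j = -1 := by
      intro j
      have := hε j
      simpa only [Finset.mem_insert, Finset.mem_singleton] using this
    by_cases hall : ∀ j, ε j = 0
    · have h1 : (∑ j, (ε j : ℝ) * γ j) = 0 := Finset.sum_eq_zero fun j _ => by rw [hall j]; simp
      rw [h1, cc_zero, mul_zero]
    · push Not at hall
      obtain ⟨i, hi⟩ := hall
      by_cases htwo : ∃ j, i ≠ j ∧ ε j ≠ 0
      · obtain ⟨j, hij, hj⟩ := htwo
        have h1 := hdis ε hε' ⟨i, j, hij, hi, hj⟩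
        have h2 : cc (∑ j, (ε j : ℝ) * γ j) = 0 := by
          unfold cc
          exact if_neg h1
        rw [h2, mul_zero]
      · exfalso
        push Not at htwo
        apply hnot
        rw [Finset.mem_image]
        refine ⟨(i, ε i), ?_, ?_⟩
        · rw [hS, Finset.mem_product]
          refine ⟨Finset.mem_univ _, ?_⟩
          simp only [Finset.mem_insert, Finset.mem_singleton]
          rcases hε' i with h | h | h
          · exact absurd h hi
          · exact Or.inl h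
          · exact Or.inr h
        · funext j
          simp only [hφ]
          by_cases hj : j = i
          · rw [hj, Pi.single_eq_same]
          · rw [Pi.single_eq_of_ne hj]
            exact (htwo j (Ne.symm hj)).symm

lemma unimodular (c : ℂ) : ∃ w : ℂ, ‖w‖ = 1 ∧ w * c = ‖c‖ := by
  by_cases hc : c = 0
  · exact ⟨1, by simp, by rw [hc]; simp⟩
  · have hcn : 0 < ‖c‖ := norm_pos_iff.mpr hc
    refine ⟨(starRingEnd ℂ) c / ‖c‖, ?_, ?_⟩
    · rw [norm_div, Complex.norm_conj, Complex.norm_real, norm_norm, div_self hcn.ne']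
    · have h2 : (starRingEnd ℂ) c * c = (‖c‖ : ℂ) ^ 2 := by
        rw [mul_comm, Complex.mul_conj, Complex.normSq_eq_norm_sq]
        push_cast
        rfl
      have h3 : (‖c‖ : ℂ) ≠ 0 := by exact_mod_cast hcn.ne'
      calc (starRingEnd ℂ) c / ‖c‖ * c = ((starRingEnd ℂ) c * c) / ‖c‖ := by ring
        _ = _ := by rw [h2]; field_simp

lemma norm_factor {b x : ℝ} (hx : |x| ≤ 1) : ‖(1 : ℂ) + Complex.I * ((b * x : ℝ) : ℂ)‖ ≤ Real.exp (b ^ 2 / 2) := by
  have h1 : ‖(1 : ℂ) + Complex.I * ((b * x : ℝ) : ℂ)‖ ^ 2 = 1 + (b * x) ^ 2 := by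
    rw [Complex.sq_norm, Complex.normSq_apply]
    simp
    ring
  have h2 : (Real.exp (b ^ 2 / 2)) ^ 2 = Real.exp (b ^ 2) := by
    rw [← Real.exp_nat_mul]
    congr 1
    push_cast
    ring
  have h3 : (b * x) ^ 2 ≤ b ^ 2 := by
    rw [mul_pow]
    have : x ^ 2 ≤ 1 := by
      rw [← sq_abs]
      exact pow_le_one₀ (abs_nonneg x) hx
    nlinarith [sq_nonneg b]
  have h4 : 1 + b ^ 2 ≤ Real.exp (b ^ 2) := by
    have := Real.add_one_le_exp (b ^ 2)
    linarith
  refine (pow_le_pow_iff_left₀ (norm_nonneg _) (Real.exp_pos _).le two_ne_zero).mp ?_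
  rw [h1, h2]
  linarith

/-- the Riesz product inequality -/
theorem riesz {N : ℕ} {s K : ℝ} (hs : s = 1 ∨ s = -1)
    (h : ∀ᶠ x : ℝ in atTop, ∫ u in (1:ℝ)..x, max (s * MS u) 0 / u ^ (3 / 2 : ℝ) ≤ K * Real.log x)
    (γ : Fin N → ℝ)
    (hdis : ∀ ε : Fin N → ℤ, (∀ j, ε j = 0 ∨ ε j = 1 ∨ ε j = -1) → (∃ i j, i ≠ j ∧ ε i ≠ 0 ∧ ε j ≠ 0) →
      riemannZeta (1 / 2 + ((∑ j, (ε j : ℝ) * γ j : ℝ) : ℂ) * Complex.I) ≠ 0) (b : Fin N → ℝ) :
    ∑ j, b j * ‖cc (γ j)‖ ≤ 2 * K * Real.exp ((∑ j, b j ^ 2) / 2) := by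
  classical
  have hyp : Hyp s 0 := ⟨K, by
    filter_upwards [h] with x hx
    rw [add_zero, Real.rpow_one]
    exact hx⟩
  obtain ⟨H, _⟩ := hyp_lap le_rfl zero_le_one hyp
  have hsimp : AllSimple := (main_alpha hs le_rfl zero_lt_one hyp).1
  choose w hw1 hw2 using fun j => unimodular (cc (γ j))
  set A : Fin N → ℤ → ℂ := fun j e => if e = 0 then 1 else if e = 1 then Complex.I * b j * w j / 2 else
    Complex.I * b j * (starRingEnd ℂ) (w j) / 2 with hA
  have hA0 : ∀ j, A j 0 = 1 := fun j => by simp [hA]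
  have hA1 : ∀ j, A j 1 = Complex.I * b j * w j / 2 := fun j => by simp [hA]
  have hAm : ∀ j, A j (-1) = Complex.I * b j * (starRingEnd ℂ) (w j) / 2 := fun j => by simp [hA]
  set R : ℝ := Real.exp ((∑ j, b j ^ 2) / 2) with hR
  have hRpos : 0 < R := Real.exp_pos _
  set Z : Finset (Fin N → ℤ) := Fintype.piFinset (fun _ : Fin N => ({0, 1, -1} : Finset ℤ)) with hZ
  -- the product formula
  have hP : ∀ u : ℝ, ∑ ε ∈ Z, (∏ j, A j (ε j)) * Complex.exp (-(((∑ j, (ε j : ℝ) * γ j : ℝ) : ℂ) * u * Complex.I)) =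
      ∏ j, ((1 : ℂ) + Complex.I * ((b j * (w j * Complex.exp (-(γ j * u * Complex.I))).re : ℝ) : ℂ)) := by
    intro u
    have h1 : ∀ j, ((1 : ℂ) + Complex.I * ((b j * (w j * Complex.exp (-(γ j * u * Complex.I))).re : ℝ) : ℂ)) =
        ∑ e ∈ ({0, 1, -1} : Finset ℤ), A j e * Complex.exp (-((e : ℂ) * γ j * u * Complex.I)) := by
      intro j
      rw [Finset.sum_insert (by decide), Finset.sum_insert (by decide), Finset.sum_singleton, hA0, hA1, hAm]
      have h2 : (starRingEnd ℂ) (w j * Complex.exp (-(γ j * u * Complex.I))) =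
          (starRingEnd ℂ) (w j) * Complex.exp (γ j * u * Complex.I) := by
        rw [map_mul, ← Complex.exp_conj]
        congr 2
        simp
      have h3 := Complex.add_conj (w j * Complex.exp (-(γ j * u * Complex.I)))
      rw [h2] at h3
      have h4 : (((w j * Complex.exp (-(γ j * u * Complex.I))).re : ℝ) : ℂ) =
          (w j * Complex.exp (-(γ j * u * Complex.I)) + (starRingEnd ℂ) (w j) * Complex.exp (γ j * u * Complex.I)) / 2 := by
        rw [h3]
        push_cast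
        ring
      have e0 : Complex.exp (-(((0:ℤ) : ℂ) * γ j * u * Complex.I)) = 1 := by simp
      have e1 : Complex.exp (-(((1:ℤ) : ℂ) * γ j * u * Complex.I)) = Complex.exp (-(γ j * u * Complex.I)) := by simp
      have e2 : Complex.exp (-(((-1:ℤ) : ℂ) * γ j * u * Complex.I)) = Complex.exp (γ j * u * Complex.I) := by simp
      rw [e0, e1, e2, Complex.ofReal_mul, h4]
      ring
    rw [Finset.prod_congr rfl (fun j _ => h1 j), Finset.prod_univ_sum]
    refine Finset.sum_congr rfl fun ε _ => ?_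
    rw [Finset.prod_mul_distrib, ← Complex.exp_sum]
    congr 2
    push_cast
    rw [Finset.sum_mul, Finset.sum_mul, ← Finset.sum_neg_distrib]
  -- the bound
  have hPn : ∀ u : ℝ, ‖∑ ε ∈ Z, (∏ j, A j (ε j)) * Complex.exp (-(((∑ j, (ε j : ℝ) * γ j : ℝ) : ℂ) * u * Complex.I))‖ ≤ R := by
    intro u
    rw [hP u, norm_prod, hR, Finset.sum_div, Real.exp_sum]
    refine Finset.prod_le_prod (fun j _ => norm_nonneg _) fun j _ => norm_factor ?_
    refine (Complex.abs_re_le_norm _).trans ?_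
    rw [norm_mul, hw1, one_mul, Complex.norm_exp]
    simp
  have hmain := explicit_idx hs h Z (fun ε => ∑ j, (ε j : ℝ) * γ j)
    (fun ε => -Complex.I * ((R⁻¹ : ℝ) : ℂ) * ∏ j, A j (ε j)) (fun u => by
      have h1 : ∑ ε ∈ Z, -Complex.I * ((R⁻¹ : ℝ) : ℂ) * (∏ j, A j (ε j)) *
          Complex.exp (-(((∑ j, (ε j : ℝ) * γ j : ℝ) : ℂ) * u * Complex.I)) =
          -Complex.I * ((R⁻¹ : ℝ) : ℂ) * ∑ ε ∈ Z, (∏ j, A j (ε j)) *
          Complex.exp (-(((∑ j, (ε j : ℝ) * γ j : ℝ) : ℂ) * u * Complex.I)) := by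
        rw [Finset.mul_sum]
        refine Finset.sum_congr rfl fun ε _ => ?_
        ring
      rw [h1]
      refine (Complex.abs_re_le_norm _).trans ?_
      rw [norm_mul, norm_mul, norm_neg, Complex.norm_I, one_mul, Complex.norm_real, Real.norm_eq_abs,
        abs_of_pos (inv_pos.mpr hRpos)]
      calc R⁻¹ * _ ≤ R⁻¹ * R := mul_le_mul_of_nonneg_left (hPn u) (inv_pos.mpr hRpos).le
        _ = 1 := inv_mul_cancel₀ hRpos.ne')
  have hval : ∑ ε ∈ Z, -Complex.I * ((R⁻¹ : ℝ) : ℂ) * (∏ j, A j (ε j)) * cc (∑ j, (ε j : ℝ) * γ j) =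
      ((R⁻¹ * ∑ j, b j * ‖cc (γ j)‖ : ℝ) : ℂ) := by
    have h1 : ∑ ε ∈ Z, -Complex.I * ((R⁻¹ : ℝ) : ℂ) * (∏ j, A j (ε j)) * cc (∑ j, (ε j : ℝ) * γ j) =
        -Complex.I * ((R⁻¹ : ℝ) : ℂ) * ∑ ε ∈ Z, (∏ j, A j (ε j)) * cc (∑ j, (ε j : ℝ) * γ j) := by
      rw [Finset.mul_sum]
      refine Finset.sum_congr rfl fun ε _ => ?_
      ring
    rw [h1, hZ, sum_patterns A hA0 γ hdis]
    have h2 : ∀ j, A j 1 * cc (γ j) + A j (-1) * cc (-γ j) = Complex.I * ((b j * ‖cc (γ j)‖ : ℝ) : ℂ) := by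
      intro j
      have h3 : (starRingEnd ℂ) (w j) * (starRingEnd ℂ) (cc (γ j)) = ‖cc (γ j)‖ := by
        rw [← map_mul, hw2, Complex.conj_ofReal]
      rw [hA1, hAm, cc_conj hs H hsimp]
      calc Complex.I * b j * w j / 2 * cc (γ j) + Complex.I * b j * (starRingEnd ℂ) (w j) / 2 * (starRingEnd ℂ) (cc (γ j)) =
          Complex.I * b j / 2 * (w j * cc (γ j) + (starRingEnd ℂ) (w j) * (starRingEnd ℂ) (cc (γ j))) := by ring
        _ = _ := by
          rw [hw2, h3]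
          push_cast
          ring
    rw [Finset.sum_congr rfl (fun j _ => h2 j), ← Finset.mul_sum]
    calc -Complex.I * ((R⁻¹ : ℝ) : ℂ) * (Complex.I * ∑ j, ((b j * ‖cc (γ j)‖ : ℝ) : ℂ)) =
        -(Complex.I * Complex.I) * ((R⁻¹ : ℝ) : ℂ) * ∑ j, ((b j * ‖cc (γ j)‖ : ℝ) : ℂ) := by ring
      _ = _ := by
        rw [Complex.I_mul_I]
        push_cast
        ring
  rw [hval, Complex.ofReal_re] at hmain
  have h1 := (le_abs_self _).trans hmain
  calc ∑ j, b j * ‖cc (γ j)‖ = R * (R⁻¹ * ∑ j, b j * ‖cc (γ j)‖) := by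
        rw [← mul_assoc, mul_inv_cancel₀ hRpos.ne', one_mul]
    _ ≤ R * (2 * K) := mul_le_mul_of_nonneg_left h1 hRpos.le
    _ = _ := by ring

/-- square sums over dissociate sets of ordinates -/
theorem dissociate {N : ℕ} {s K : ℝ} (hs : s = 1 ∨ s = -1)
    (h : ∀ᶠ x : ℝ in atTop, ∫ u in (1:ℝ)..x, max (s * MS u) 0 / u ^ (3 / 2 : ℝ) ≤ K * Real.log x)
    (γ : Fin N → ℝ)
    (hdis : ∀ ε : Fin N → ℤ, (∀ j, ε j = 0 ∨ ε j = 1 ∨ ε j = -1) → (∃ i j, i ≠ j ∧ ε i ≠ 0 ∧ ε j ≠ 0) →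
      riemannZeta (1 / 2 + ((∑ j, (ε j : ℝ) * γ j : ℝ) : ℂ) * Complex.I) ≠ 0) :
    ∑ j, ‖cc (γ j)‖ ^ 2 ≤ 4 * Real.exp 1 * K ^ 2 := by
  set D : ℝ := ∑ j, ‖cc (γ j)‖ ^ 2 with hD
  have hD0 : 0 ≤ D := Finset.sum_nonneg fun j _ => by positivity
  rcases hD0.eq_or_lt with h0 | hpos
  · rw [← h0]
    positivity
  · have hq : 0 < Real.sqrt D := Real.sqrt_pos.mpr hpos
    have h1 := riesz hs h γ hdis (fun j => ‖cc (γ j)‖ / Real.sqrt D)
    have h2 : ∑ j, (‖cc (γ j)‖ / Real.sqrt D) ^ 2 = 1 := by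
      simp only [div_pow]
      rw [← Finset.sum_div, Real.sq_sqrt hD0, ← hD, div_self hpos.ne']
    have h3 : ∑ j, ‖cc (γ j)‖ / Real.sqrt D * ‖cc (γ j)‖ = Real.sqrt D := by
      have h4 : ∀ j, ‖cc (γ j)‖ / Real.sqrt D * ‖cc (γ j)‖ = ‖cc (γ j)‖ ^ 2 / Real.sqrt D := fun j => by ring
      rw [Finset.sum_congr rfl fun j _ => h4 j, ← Finset.sum_div, ← hD, div_eq_iff hq.ne', Real.mul_self_sqrt hD0]
    rw [h2, h3] at h1
    calc D = Real.sqrt D ^ 2 := (Real.sq_sqrt hD0).symm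
      _ ≤ (2 * K * Real.exp (1 / 2)) ^ 2 := pow_le_pow_left₀ hq.le h1 2
      _ = 4 * (Real.exp (1 / 2) ^ 2) * K ^ 2 := by ring
      _ = _ := by
        rw [← Real.exp_nat_mul]
        norm_num

end Pool.Agent.TH299.GO
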